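import Mathlib

/-!
# Systems of tensors closed under adjoints: definitions
-/

set_option autoImplicit false

namespace Pool.Agent.E8helper1.TX

open Matrix

/-- The operators on the `m`-th tensor power of the space with basis `n`. -/
abbrev Op (n : Type) (m : ℕ) : Type := Matrix (Fin m → n) (Fin m → n) ℂ

variable {n : Type} [Fintype n] [DecidableEq n] {m k : ℕ}

/-- The operator `g ⊗ ... ⊗ g`. -/
def tpow (g : Matrix n n ℂ) (m : ℕ) : Op n m := fun I J => ∏ i, g (I i) (J i)

/-- The operator `x ⊗ 1 ⊗ ... ⊗ 1 + ... + 1 ⊗ ... ⊗ 1 ⊗ x`. -/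
def dpow (x : Matrix n n ℂ) (m : ℕ) : Op n m :=
  fun I J => ∑ i, if ∀ j, j ≠ i → I j = J j then x (I i) (J i) else 0

/-- The operator `A ⊗ B`. -/
def tens (A : Op n m) (B : Op n k) : Op n (m + k) :=
  fun I J => A (fun i => I (Fin.castAdd k i)) (fun i => J (Fin.castAdd k i)) *
    B (fun j => I (Fin.natAdd m j)) (fun j => J (Fin.natAdd m j))

/-- The partial trace over the last `k` factors. -/
def ptr (A : Op n (m + k)) : Op n m :=
  fun I J => ∑ L : Fin k → n, A (Fin.append I L) (Fin.append J L)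

/-- The operator which permutes the factors. -/
def perm (σ : Equiv.Perm (Fin m)) : Op n m := fun I J => if I = J ∘ σ then 1 else 0

/-- A system of spaces of operators on the tensor powers, closed under products, adjoints, tensor
products and partial traces, which contains the permutations. -/
structure TSys (n : Type) [Fintype n] [DecidableEq n] where
  /-- the space of operators on the `m`-th tensor power -/
  S : ∀ m, Submodule ℂ (Op n m)
  perm_mem : ∀ {m} (σ : Equiv.Perm (Fin m)), perm σ ∈ S m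
  mul_mem : ∀ {m} {A B : Op n m}, A ∈ S m → B ∈ S m → A * B ∈ S m
  star_mem : ∀ {m} {A : Op n m}, A ∈ S m → Aᴴ ∈ S m
  tens_mem : ∀ {m k} {A : Op n m} {B : Op n k}, A ∈ S m → B ∈ S k → tens A B ∈ S (m + k)
  ptr_mem : ∀ {m k} {A : Op n (m + k)}, A ∈ S (m + k) → ptr A ∈ S m

/-- The unitary matrix `g` commutes with the system `S`. -/
def Fixes (S : ∀ m, Submodule ℂ (Op n m)) (g : Matrix n n ℂ) : Prop :=
  ∀ m, ∀ A ∈ S m, A * tpow g m = tpow g m * A

/-- The derivation given by `x` commutes with the system `S`. -/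
def Kills (S : ∀ m, Submodule ℂ (Op n m)) (x : Matrix n n ℂ) : Prop :=
  ∀ m, ∀ A ∈ S m, A * dpow x m = dpow x m * A

/-- The commutant of a set of matrices in the operators on the `m`-th tensor power. -/
def comm (G : Set (Matrix n n ℂ)) (m : ℕ) : Submodule ℂ (Op n m) where
  carrier := {A | ∀ g ∈ G, A * tpow g m = tpow g m * A}
  zero_mem' := by intro g _; rw [zero_mul, mul_zero]
  add_mem' := by
    intro A B hA hB g hg
    rw [add_mul, mul_add, hA g hg, hB g hg]
  smul_mem' := by
    intro c A hA g hg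
    rw [Matrix.smul_mul, Matrix.mul_smul, hA g hg]

/-- A closed group of unitary matrices. -/
structure IsCGroup (G : Set (Matrix n n ℂ)) : Prop where
  closed : IsClosed G
  unitary : ∀ g ∈ G, g ∈ Matrix.unitaryGroup n ℂ
  one_mem : 1 ∈ G
  mul_mem : ∀ {g h}, g ∈ G → h ∈ G → g * h ∈ G
  star_mem : ∀ {g}, g ∈ G → gᴴ ∈ G

/-! ## The statements of the project TX4 -/

/-- **Schur-Weyl duality for the unitary group** (piece SW). -/
def S_SW : Prop := ∀ (n : Type) [Fintype n] [DecidableEq n] (m : ℕ) (A : Op n m),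
  (∀ g ∈ Matrix.unitaryGroup n ℂ, A * tpow g m = tpow g m * A) →
    A ∈ Submodule.span ℂ (Set.range (perm (n := n) (m := m)))

/-- **Tannaka duality** (piece TAN). -/
def S_TAN : Prop := ∀ (n : Type) [Fintype n] [DecidableEq n] (S : TSys n) (m : ℕ) (A : Op n m),
  (∀ g ∈ Matrix.unitaryGroup n ℂ, Fixes S.S g → A * tpow g m = tpow g m * A) → A ∈ S.S m

/-- **The closed subgroup argument** (piece CS): if `H` contains all one-parameter groups of `G`
then `H` is open in `G`. -/
def S_CS : Prop := ∀ (n : Type) [Fintype n] [DecidableEq n] (G H : Set (Matrix n n ℂ)),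
  IsCGroup G → IsCGroup H → H ⊆ G →
  (∀ x : Matrix n n ℂ, (∀ t : ℝ, NormedSpace.exp ((t : ℂ) • x) ∈ G) →
    ∀ t : ℝ, NormedSpace.exp ((t : ℂ) • x) ∈ H) →
  ∃ O : Set (Matrix n n ℂ), IsOpen O ∧ 1 ∈ O ∧ G ∩ O ⊆ H

/-- **The dimensions of commutants** (piece HAAR): if `H` is open in `G` then the dimensions of the
commutants of `H` and `G` in the tensor powers differ by a bounded factor. -/
def S_HAAR : Prop := ∀ (n : Type) [Fintype n] [DecidableEq n] (G H : Set (Matrix n n ℂ)),
  IsCGroup G → IsCGroup H → H ⊆ G →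
  (∃ O : Set (Matrix n n ℂ), IsOpen O ∧ 1 ∈ O ∧ G ∩ O ⊆ H) →
  ∃ C : ℕ, ∀ m, Module.finrank ℂ (comm H m) ≤ C * Module.finrank ℂ (comm G m)

/-- **One-parameter groups and derivations** (piece EXP). -/
def S_EXP : Prop := ∀ (n : Type) [Fintype n] [DecidableEq n] (x : Matrix n n ℂ) (m : ℕ)
  (A : Op n m), (∀ t : ℝ, A * tpow (NormedSpace.exp ((t : ℂ) • x)) m =
    tpow (NormedSpace.exp ((t : ℂ) • x)) m * A) ↔ A * dpow x m = dpow x m * A

/-- **The final abstract theorem** (piece FIN, from the others). -/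
def S_FIN : Prop := ∀ (n : Type) [Fintype n] [DecidableEq n] (S : TSys n)
  (T : ∀ m, Submodule ℂ (Op n m)), (∀ x : Matrix n n ℂ, Kills S.S x → Kills T x) →
  ∃ C : ℕ, ∀ m, Module.finrank ℂ (T m) ≤ C * Module.finrank ℂ (S.S m)

end Pool.Agent.E8helper1.TX
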