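import Mathlib
import Pool.Agent.E8helper1.TX.Defs

/-!
# Systems of tensors: a short list of axioms
-/

set_option autoImplicit false

namespace Pool.Agent.E8helper1.TX

open Matrix

variable {n : Type} [Fintype n] [DecidableEq n] {m k : ℕ}

/-- The operator `1 ⊗ B`. -/
def oneT (B : Op n m) : Op n (m + 1) :=
  fun I J => if I 0 = J 0 then B (fun i => I i.succ) (fun i => J i.succ) else 0

/-- The partial trace over the first factor. -/
def trL (A : Op n (m + 1)) : Op n m :=
  fun I J => ∑ a : n, A (Fin.cons a I : Fin (m + 1) → n) (Fin.cons a J : Fin (m + 1) → n)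

/-- A system of spaces of operators: short list of axioms. -/
structure PSys (n : Type) [Fintype n] [DecidableEq n] where
  /-- the space of operators on the `m`-th tensor power -/
  S : ∀ m, Submodule ℂ (Op n m)
  one_mem : ∀ m, (1 : Op n m) ∈ S m
  mul_mem : ∀ {m} {A B : Op n m}, A ∈ S m → B ∈ S m → A * B ∈ S m
  star_mem : ∀ {m} {A : Op n m}, A ∈ S m → Aᴴ ∈ S m
  oneT_mem : ∀ {m} {B : Op n m}, B ∈ S m → oneT B ∈ S (m + 1)
  sw_mem : ∀ m, perm (Equiv.swap (0 : Fin (m + 2)) 1) ∈ S (m + 2)
  trL_mem : ∀ {m} {A : Op n (m + 1)}, A ∈ S (m + 1) → trL A ∈ S m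

/-- **The short list of axioms implies the long one** (piece PRE). -/
def S_PRE : Prop := ∀ (n : Type) [Fintype n] [DecidableEq n] (P : PSys n),
  ∃ T : TSys n, T.S = P.S

end Pool.Agent.E8helper1.TX
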