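import Mathlib
import Pool.Agent.E8helper1.TX.Defs

/-!
# Extension of scalars for spaces of matrices: statements
-/

set_option autoImplicit false

namespace Pool.Agent.E8helper1.TX

open Matrix Module

section

variable (K : Type) [Field K]

/-- The derivation given by a matrix over `K`. -/
def dpowK {n : Type} [Fintype n] [DecidableEq n] (x : Matrix n n K) (m : ℕ) :
    Matrix (Fin m → n) (Fin m → n) K :=
  fun I J => ∑ i, if ∀ j, j ≠ i → I j = J j then x (I i) (J i) else 0

/-- The tensor power of a matrix over `K`. -/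
def tpowK {n : Type} [Fintype n] [DecidableEq n] (x : Matrix n n K) (m : ℕ) :
    Matrix (Fin m → n) (Fin m → n) K :=
  fun I J => ∏ i, x (I i) (J i)

/-- The complex span of a space of matrices over `K`. -/
def bcM [Algebra K ℂ] {N : Type} [Fintype N] [DecidableEq N] (A : Submodule K (Matrix N N K)) :
    Submodule ℂ (Matrix N N ℂ) :=
  Submodule.span ℂ ((fun M : Matrix N N K => M.map (algebraMap K ℂ)) '' (A : Set (Matrix N N K)))

end

/-- **Dimensions** (piece DIM, part 1). -/
def S_DIM1 : Prop := ∀ (K : Type) [Field K] [Algebra K ℂ] (N : Type) [Fintype N] [DecidableEq N]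
  (A : Submodule K (Matrix N N K)), finrank ℂ (bcM K A) = finrank K A

/-- **Rational elements** (piece DIM, part 2). -/
def S_DIM2 : Prop := ∀ (K : Type) [Field K] [Algebra K ℂ] (N : Type) [Fintype N] [DecidableEq N]
  (A : Submodule K (Matrix N N K)) (M : Matrix N N K),
  M.map (algebraMap K ℂ) ∈ bcM K A → M ∈ A

/-- **Commutants** (piece DIM, part 3): the commutant of a set of matrices over `K` is defined over
`K`. -/
def S_DIM3 : Prop := ∀ (K : Type) [Field K] [Algebra K ℂ] (N : Type) [Fintype N] [DecidableEq N]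
  (Y : Set (Matrix N N K)) (C : Submodule K (Matrix N N K)), (∀ M, M ∈ C ↔ ∀ y ∈ Y, M * y = y * M) →
  ∀ A : Matrix N N ℂ, (∀ y ∈ Y, A * y.map (algebraMap K ℂ) = y.map (algebraMap K ℂ) * A) →
    A ∈ bcM K C

/-- **Descent of the Lie part** (piece DIM, part 4). -/
def S_DIM4 : Prop := ∀ (K : Type) [Field K] [Algebra K ℂ] (n : Type) [Fintype n] [DecidableEq n]
  (S : Submodule K (Matrix (Fin 2 → n) (Fin 2 → n) K))
  (T : ∀ m, Submodule K (Matrix (Fin m → n) (Fin m → n) K)),
  (∀ x : Matrix n n K, (∀ A ∈ S, A * dpowK K x 2 = dpowK K x 2 * A) →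
    ∀ m, ∀ A ∈ T m, A * dpowK K x m = dpowK K x m * A) →
  ∀ x : Matrix n n ℂ, (∀ A ∈ bcM K S, A * dpow x 2 = dpow x 2 * A) →
    ∀ m, ∀ A ∈ bcM K (T m), A * dpow x m = dpow x m * A

/-- **Descent of the Lie algebra** (piece DIM, part 5): the matrices which commute with `S` (as
derivations) are linear combinations of such matrices over `K`. -/
def S_DIM5 : Prop := ∀ (K : Type) [Field K] [Algebra K ℂ] (n : Type) [Fintype n] [DecidableEq n]
  (S : Submodule K (Matrix (Fin 2 → n) (Fin 2 → n) K)) (C : Submodule K (Matrix n n K)),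
  (∀ x, x ∈ C ↔ ∀ A ∈ S, A * dpowK K x 2 = dpowK K x 2 * A) →
  ∀ x : Matrix n n ℂ, (∀ A ∈ bcM K S, A * dpow x 2 = dpow x 2 * A) → x ∈ bcM K C

end Pool.Agent.E8helper1.TX
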