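import Mathlib
import Pool.Agent.E8helper1.TX.Dim
import Pool.Agent.E8helper1.CT.Core
import Pool.Agent.Y126.Notions

/-!
# The Lie part of the theorem for Tate classes: statements
-/

set_option autoImplicit false

namespace Pool.Agent.E8helper1.TX

open Matrix Module
open Pool.Agent.Y126.Notions (PotentiallySemisimple)
open Pool.Agent.E8helper1.CT (HasLattice)

/-- The representation given by matrices. -/
noncomputable def mrep {K : Type} [Field K] {n : Type} [Fintype n] [DecidableEq n] {Γ : Type}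
    [Group Γ] (R : Γ →* Matrix n n K) : Representation K Γ (n → K) :=
  (Matrix.toLinAlgEquiv' (R := K) (n := n)).toMonoidHom.comp R

/-- The matrices `z` which commute with a subgroup of finite index and with the parity. -/
def IsPot {K : Type} [Field K] {n : Type} [Fintype n] [DecidableEq n] {Γ : Type}
    [Group Γ] (R : Γ →* Matrix n n K) (p : Matrix n n K) (z : Matrix n n K) : Prop :=
  (∃ Δ : Subgroup Γ, Δ.FiniteIndex ∧ ∀ g ∈ Δ, z * R g = R g * z) ∧ z * p = p * z

/-- The operators on the `m`-th tensor power which commute with a subgroup of finite index and with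
the parity. -/
def PotOp {K : Type} [Field K] {n : Type} [Fintype n] [DecidableEq n] {Γ : Type}
    [Group Γ] (R : Γ →* Matrix n n K) (p : Matrix n n K) (m : ℕ) :
    Submodule K (Matrix (Fin m → n) (Fin m → n) K) where
  carrier := {A | (∃ Δ : Subgroup Γ, Δ.FiniteIndex ∧ ∀ g ∈ Δ,
    A * tpowK K (R g) m = tpowK K (R g) m * A) ∧ A * tpowK K p m = tpowK K p m * A}
  zero_mem' := ⟨⟨⊤, inferInstance, fun g _ => by rw [zero_mul, mul_zero]⟩, by
    rw [zero_mul, mul_zero]⟩
  add_mem' := by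
    rintro A A' ⟨⟨Δ, h1, h2⟩, h3⟩ ⟨⟨Δ', h1', h2'⟩, h3'⟩
    refine ⟨⟨Δ ⊓ Δ', inferInstance, fun g hg => ?_⟩, ?_⟩
    · rw [add_mul, mul_add, h2 g hg.1, h2' g hg.2]
    · rw [add_mul, mul_add, h3, h3']
  smul_mem' := by
    rintro c A ⟨⟨Δ, h1, h2⟩, h3⟩
    refine ⟨⟨Δ, h1, fun g hg => ?_⟩, ?_⟩
    · rw [Matrix.smul_mul, Matrix.mul_smul, h2 g hg]
    · rw [Matrix.smul_mul, Matrix.mul_smul, h3]

/-- The normalized action of the Galois group on the total cohomology of `X`, with the parity `p`, the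
matrix `B` of the pairing `tr (x * y)`, the vector `e` of the class `1` and the functional `t` given by
the trace. -/
structure GalData (ℓ : ℕ) [Fact ℓ.Prime] (n : Type) [Fintype n] [DecidableEq n] (Γ : Type)
    [Group Γ] where
  R : Γ →* Matrix n n ℚ_[ℓ]
  p : Matrix n n ℚ_[ℓ]
  B : Matrix n n ℚ_[ℓ]
  e : n → ℚ_[ℓ]
  t : n → ℚ_[ℓ]
  p_mul : p * p = 1
  p_comm : ∀ g, p * R g = R g * p
  B_unit : IsUnit B.det
  B_inv : ∀ g, (R g)ᵀ * B * R g = B
  B_p : pᵀ * B * p = B
  e_ne : e ≠ 0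
  e_inv : ∀ g, R g *ᵥ e = e
  e_p : p *ᵥ e = e
  t_ne : t ≠ 0
  t_inv : ∀ g, t ᵥ* R g = t
  t_p : t ᵥ* p = t
  lattice : HasLattice ℓ (mrep R)
  ss : PotentiallySemisimple (mrep R)

variable {ℓ : ℕ} [Fact ℓ.Prime] {n : Type} [Fintype n] [DecidableEq n] {Γ : Type} [Group Γ]

/-- There is no part of type IV. -/
def GalData.NoSkew (D : GalData ℓ n Γ) : Prop :=
  ∀ z, IsPot D.R D.p z → (∀ z', IsPot D.R D.p z' → z * z' = z' * z) →
    zᵀ * D.B = -(D.B * z) → z = 0

/-- **Piece LIE1'** (general form, type IV allowed): an operator that commutes with the Tate tensors of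
degree two is the sum of an operator that commutes with all Tate tensors, and of a skew element of the
centre of the potential endomorphisms, and of a scalar. -/
def S_LIE1' : Prop := ∀ (ℓ : ℕ) [Fact ℓ.Prime] (n : Type) [Fintype n] [DecidableEq n] (Γ : Type)
  [Group Γ] (D : GalData ℓ n Γ) (x : Matrix n n ℚ_[ℓ]),
  (∀ A ∈ PotOp D.R D.p 2, A * dpowK _ x 2 = dpowK _ x 2 * A) →
  ∃ y z : Matrix n n ℚ_[ℓ], ∃ c : ℚ_[ℓ], x = y + z + c • 1 ∧
    (∀ m, ∀ A ∈ PotOp D.R D.p m, A * dpowK _ y m = dpowK _ y m * A) ∧ yᵀ * D.B = -(D.B * y) ∧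
    IsPot D.R D.p z ∧ (∀ z', IsPot D.R D.p z' → z * z' = z' * z) ∧ zᵀ * D.B = -(D.B * z)

/-- **Piece LIE1**: an operator that commutes with the Tate tensors of degree two commutes with all
Tate tensors. -/
def S_LIE1 : Prop := ∀ (ℓ : ℕ) [Fact ℓ.Prime] (n : Type) [Fintype n] [DecidableEq n] (Γ : Type)
  [Group Γ] (D : GalData ℓ n Γ), D.NoSkew → ∀ x : Matrix n n ℚ_[ℓ],
  (∀ A ∈ PotOp D.R D.p 2, A * dpowK _ x 2 = dpowK _ x 2 * A) →
  ∀ m, ∀ A ∈ PotOp D.R D.p m, A * dpowK _ x m = dpowK _ x m * A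

/-- **Piece LIE2**: the tensors which commute with the Lie algebra and with the parity are Tate
tensors. -/
def S_LIE2 : Prop := ∀ (ℓ : ℕ) [Fact ℓ.Prime] (n : Type) [Fintype n] [DecidableEq n] (Γ : Type)
  [Group Γ] (D : GalData ℓ n Γ) (m : ℕ) (M : Matrix (Fin m → n) (Fin m → n) ℚ_[ℓ]),
  (∀ x : Matrix n n ℚ_[ℓ], (∀ A ∈ PotOp D.R D.p 2, A * dpowK _ x 2 = dpowK _ x 2 * A) →
    M * dpowK _ x m = dpowK _ x m * M) →
  M * tpowK _ D.p m = tpowK _ D.p m * M → M ∈ PotOp D.R D.p m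

theorem t_LIE1_of (h : S_LIE1') : S_LIE1 := by
  intro ℓ _ n _ _ Γ _ D hD x hx m A hA
  obtain ⟨y, z, c, rfl, h1, -, h2, h3, h4⟩ := h ℓ n Γ D x hx
  have hz : z = 0 := hD z h2 h3 h4
  subst hz
  have e1 : dpowK ℚ_[ℓ] (y + 0 + c • 1) m = dpowK ℚ_[ℓ] y m + (m * c) • 1 := by
    ext I J
    simp only [dpowK, add_zero, Matrix.add_apply, Matrix.smul_apply, Matrix.one_apply, smul_eq_mul]
    have h5 : ∀ i : Fin m, (if ∀ j, j ≠ i → I j = J j then y (I i) (J i) + c *
        (if I i = J i then (1 : ℚ_[ℓ]) else 0) else 0) =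
        (if ∀ j, j ≠ i → I j = J j then y (I i) (J i) else 0) +
          c * (if I = J then (1 : ℚ_[ℓ]) else 0) := by
      intro i
      by_cases h6 : ∀ j, j ≠ i → I j = J j
      · rw [if_pos h6, if_pos h6]
        by_cases h7 : I i = J i
        · have h8 : I = J := by
            funext j
            by_cases hj : j = i
            · rw [hj, h7]
            · exact h6 j hj
          rw [if_pos h7, if_pos h8]
        · have h8 : I ≠ J := fun h9 => h7 (congrFun h9 i)
          rw [if_neg h7, if_neg h8]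
      · have h8 : I ≠ J := by
          rintro rfl
          exact h6 fun _ _ => rfl
        rw [if_neg h6, if_neg h6, if_neg h8]
        ring
    rw [Finset.sum_congr rfl fun i _ => h5 i, Finset.sum_add_distrib, Finset.sum_const,
      Finset.card_univ, Fintype.card_fin, nsmul_eq_mul]
    ring
  rw [e1, mul_add, add_mul, h1 m A hA, Matrix.mul_smul, Matrix.smul_mul, mul_one, one_mul]

end Pool.Agent.E8helper1.TX
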