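import Mathlib
import Pool.Agent.E8helper1.TX.Pre
import Pool.Agent.E8helper1.TX.Lie

/-!
# The assembly on the level of matrices: statements
-/

set_option autoImplicit false

namespace Pool.Agent.E8helper1.TX

open Matrix Module
open scoped ComplexOrder

/-- A system of spaces of operators: short list of axioms, without the adjoints. -/
structure PSys0 (n : Type) [Fintype n] [DecidableEq n] where
  /-- the space of operators on the `m`-th tensor power -/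
  S : ∀ m, Submodule ℂ (Op n m)
  one_mem : ∀ m, (1 : Op n m) ∈ S m
  mul_mem : ∀ {m} {A B : Op n m}, A ∈ S m → B ∈ S m → A * B ∈ S m
  oneT_mem : ∀ {m} {B : Op n m}, B ∈ S m → oneT B ∈ S (m + 1)
  sw_mem : ∀ m, perm (Equiv.swap (0 : Fin (m + 2)) 1) ∈ S (m + 2)
  trL_mem : ∀ {m} {A : Op n (m + 1)}, A ∈ S (m + 1) → trL A ∈ S m

/-- The change of the basis. -/
noncomputable def cjm {n : Type} [Fintype n] [DecidableEq n] (P : Matrix n n ℂ) (m : ℕ) :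
    Op n m →ₗ[ℂ] Op n m where
  toFun A := tpow P⁻¹ m * A * tpow P m
  map_add' A B := by rw [mul_add, add_mul]
  map_smul' c A := by rw [Matrix.mul_smul, Matrix.smul_mul, RingHom.id_apply]

/-- **Piece TRF**: a system which is closed under the adjoints with respect to the positive definite
hermitian form `Q` becomes closed under the usual adjoints in an orthonormal basis. (Uses piece PRE.) -/
def S_TRF : Prop := ∀ (n : Type) [Fintype n] [DecidableEq n] (P0 : PSys0 n) (Q : Matrix n n ℂ),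
  Q.PosDef → (∀ m, ∀ A ∈ P0.S m, tpow Q⁻¹ m * Aᴴ * tpow Q m ∈ P0.S m) →
  ∃ (P : Matrix n n ℂ) (T : TSys n), IsUnit P.det ∧ Pᴴ * Q * P = 1 ∧
    ∀ m, T.S m = (P0.S m).map (cjm P m)

/-- **Piece ASM**: the theorem on the level of matrices. -/
def S_ASM : Prop := ∀ (ℓ : ℕ) [Fact ℓ.Prime] [Algebra ℚ_[ℓ] ℂ] (n : Type) [Fintype n]
  [DecidableEq n] (Γ : Type) [Group Γ] (D : GalData ℓ n Γ) (_ : D.NoSkew)
  (S : ∀ m, Submodule ℚ_[ℓ] (Matrix (Fin m → n) (Fin m → n) ℚ_[ℓ])) (P0 : PSys0 n)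
  (_ : ∀ m, P0.S m = bcM ℚ_[ℓ] (S m)) (Q : Matrix n n ℂ) (_ : Q.PosDef)
  (_ : ∀ m, ∀ A ∈ P0.S m, tpow Q⁻¹ m * Aᴴ * tpow Q m ∈ P0.S m)
  (_ : (D.p.map (algebraMap ℚ_[ℓ] ℂ))ᴴ * Q = Q * D.p.map (algebraMap ℚ_[ℓ] ℂ))
  (_ : ∀ m, S m ≤ PotOp D.R D.p m),
  (PotOp D.R D.p 2 ≤ S 2 → ∀ m, finrank ℚ_[ℓ] (PotOp D.R D.p m) ≤
    (2 * Fintype.card n + 1) ^ (2 * Fintype.card n ^ 2) * finrank ℚ_[ℓ] (S m)) ∧
  (Nonempty n → ∀ m : ℕ, 2 ≤ m →
    2 * (Fintype.card n : ℝ) ^ 3 * Real.log (3 * Fintype.card n) ≤ m → PotOp D.R D.p m ≤ S m →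
    ∀ j, PotOp D.R D.p j = S j)

end Pool.Agent.E8helper1.TX
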