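import Pool.Agent.E8helper1.TX.Fin5
import Pool.Agent.E8helper41.TX.Asm
import Pool.Agent.E8helper26.TX.TRF
import Pool.Agent.E8helper3.TX.Sqrt
import Pool.Agent.E8helper56.TX.LieL1
import Pool.Agent.E8helper56.TX.LieL2
import Pool.Agent.E8helper63.TX.Dim
import Pool.Agent.E8helper89.TX.Hdg
import Pool.Agent.E8helper89.TX.Starj

/-!
# Assembly: the pieces plugged in
-/

set_option autoImplicit false

namespace Pool.Agent.E8helper1.TX

theorem s_asm : S_ASM :=
  Pool.Agent.E8helper41.TX.t_ASM' (t_LIE1_of Pool.Agent.E8helper56.TX.t_LIE1')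
    Pool.Agent.E8helper56.TX.t_LIE2 Pool.Agent.E8helper63.TX.t_DIM1 Pool.Agent.E8helper63.TX.t_DIM2
    Pool.Agent.E8helper63.TX.t_DIM3 Pool.Agent.E8helper63.TX.t_DIM4 Pool.Agent.E8helper26.TX.t_TRF


end Pool.Agent.E8helper1.TX
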