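import Pool.Agent.E8helper1.TX.Fin3
import Pool.Agent.Y121.AH.Abs

/-!
# Hodge classes on the powers of a variety: statements
-/

open CategoryTheory AlgebraicGeometry

universe u

namespace Pool.Agent.E8helper1.TX

open Module
open Pool.Agent.H914 Pool.Agent.H914.VarClass Pool.Agent.H914.VarClass.Obj
  Pool.Agent.H914.WeilCohomology
open Pool.Agent.Y121 (AH.HodgeTheory AH.hodgeSys AH.IsHodge)
open Pool.Agent.Y121.AH (em)
open Pool.Agent.Y129 (pw)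

/-- The types are effective. -/
def Eff {k : Type u} [Field k] {𝒱 : VarClass k} {ops : CycleOps 𝒱} (T : AH.HodgeTheory ops) :
    Prop :=
  ∀ (X : 𝒱.Obj) (p q : ℤ) (x : (baseW T.W ℂ).H X), x ∈ T.pq X p q → x ≠ 0 → 0 ≤ p ∧ 0 ≤ q

/-- The trace vanishes on the classes of type `(p, q)` with `p ≠ q`. -/
def Top {k : Type u} [Field k] {𝒱 : VarClass k} {ops : CycleOps 𝒱} (T : AH.HodgeTheory ops) :
    Prop :=
  ∀ (X : 𝒱.Obj) (p q : ℤ) (x : (baseW T.W ℂ).H X), x ∈ T.pq X p q → (baseW T.W ℂ).tr X x ≠ 0 →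
    p = q

/-- **Piece HOP**: the matrix `hm` of the operator which is the multiplication by `p - q` on the
classes of type `(p, q)` on `X`. The operators on `H(X^(n+1))` given by Hodge classes are the
rational operators which commute with the derivation given by `hm`. -/
def S_HOP : Prop := ∀ {k : Type u} [Field k] {𝒱 : VarClass k} {ops : CycleOps 𝒱}
  (T : AH.HodgeTheory ops), Eff T → Top T → ∀ (X : 𝒱.Obj) {ι : Type} [Fintype ι] [DecidableEq ι]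
  (v : Basis ι T.W.K (T.W.H X)) (dg : ι → ℕ), (∀ i, v i ∈ T.W.gr X (dg i)) →
  ∃ hm : Matrix ι ι ℂ,
    (∀ (n : ℕ) (a : Module.End T.W.K (T.W.H (pw X n))),
      a ∈ (AH.hodgeSys T).Op (pw X n) (pw X n) ↔
        mc v n a * dpow hm (n + 1) = dpow hm (n + 1) * mc v n a) ∧
    (∀ (μ : ℂ) (u : ι → ℂ), u ≠ 0 → hm.mulVec u = μ • u → ∃ z : ℤ, μ = z ∧ |z| ≤ X.dim) ∧
    (∀ D : X.Cycles, X.IsCyc 1 D → hm * m1 v (LinearMap.mulLeft T.W.K (T.W.cl X D)) =
      m1 v (LinearMap.mulLeft T.W.K (T.W.cl X D)) * hm) ∧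
    ∀ i j, hm i j ≠ 0 → dg i = dg j

/-- **Piece HOP**, with the additional property that `hm` is skew for the pairing. -/
def S_HOP2 : Prop := ∀ {k : Type u} [Field k] {𝒱 : VarClass k} {ops : CycleOps 𝒱}
  (T : AH.HodgeTheory ops), Eff T → Top T → ∀ (X : 𝒱.Obj) {ι : Type} [Fintype ι] [DecidableEq ι]
  (v : Basis ι T.W.K (T.W.H X)) (dg : ι → ℕ), (∀ i, v i ∈ T.W.gr X (dg i)) →
  ∃ hm : Matrix ι ι ℂ,
    (∀ (n : ℕ) (a : Module.End T.W.K (T.W.H (pw X n))),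
      a ∈ (AH.hodgeSys T).Op (pw X n) (pw X n) ↔
        mc v n a * dpow hm (n + 1) = dpow hm (n + 1) * mc v n a) ∧
    (∀ (μ : ℂ) (u : ι → ℂ), u ≠ 0 → hm.mulVec u = μ • u → ∃ z : ℤ, μ = z ∧ |z| ≤ X.dim) ∧
    (∀ D : X.Cycles, X.IsCyc 1 D → hm * m1 v (LinearMap.mulLeft T.W.K (T.W.cl X D)) =
      m1 v (LinearMap.mulLeft T.W.K (T.W.cl X D)) * hm) ∧
    (∀ i j, hm i j ≠ 0 → dg i = dg j) ∧
    hm.transpose * BC v = -(BC v * hm)

end Pool.Agent.E8helper1.TX
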