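import Pool.Agent.E8helper1.TX.Hod1
import Pool.Agent.E8helper1.TX.HDefs
import Pool.Agent.E8helper89.TX.Starj

/-!
# Hodge operators commute with the twisted conjugation; the star operator is a Hodge operator
-/

open CategoryTheory AlgebraicGeometry

universe u

namespace Pool.Agent.E8helper1.TX

open Module Matrix
open Pool.Agent.H914 Pool.Agent.H914.VarClass Pool.Agent.H914.VarClass.Obj
  Pool.Agent.H914.WeilCohomology
open Pool.Agent.Y133.Half (Sys PH xp xp_def)
open Pool.Agent.Y133.Half.Sys (mem_Op)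
open Pool.Agent.Y121 (AH.HodgeTheory AH.hodgeSys AH.IsHodge)
open Pool.Agent.Y121.AH (em em_add em_zero ex em_smul em_mul em_map em_push em_corr)
open Pool.Agent.Y129 (pw word word_succ)
open Pool.Agent.E8helper89.TX (J_push J_wb em_indep em_op)

set_option linter.unusedSectionVars false

section gen

variable {k : Type u} [Field k] {𝒱 : VarClass k} {ops : CycleOps 𝒱}
  {W : WeilCohomology.{u, 0} ops} [Algebra W.K ℂ] (T : TwConj W) {X Y Z : 𝒱.Obj}

theorem J_corr' (c : W.H (X.prod Z)) (hc : T.J _ (em W ℂ c) = em W ℂ c)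
    (x : (baseW W ℂ).H X) :
    T.J Z ((baseW W ℂ).corr (em W ℂ c) x) = (baseW W ℂ).corr (em W ℂ c) (T.J X x) := by
  rw [corr_apply, corr_apply, J_push, T.map_mul, hc, T.map_pull]

/-- An operator given by a class which is fixed by the twisted conjugation commutes with it. -/
theorem starj_gen {ι : Type} [Fintype ι] [DecidableEq ι] (v : Basis ι W.K (W.H X)) (n : ℕ)
    (c : W.H ((pw X n).prod (pw X n))) (hc : T.J _ (em W ℂ c) = em W ℂ c) :
    JComm v (jmat v T) n (W.corr c) := by
  have hj := jmat_spec v T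
  set jm := jmat v T
  set A : Module.End W.K (W.H (pw X n)) := W.corr c with hA
  have hJ : ∀ y : W.H (pw X n), T.J (pw X n) (em W ℂ (A y)) =
      (baseW W ℂ).corr (em W ℂ c) (T.J (pw X n) (em W ℂ y)) := by
    intro y
    rw [hA, ← em_corr, J_corr' T c hc]
  ext L J
  rw [Matrix.mul_apply, Matrix.mul_apply]
  have h1 := hJ (wb v n J)
  rw [em_op, J_sum, J_wb T v jm hj, map_sum] at h1
  have h2 : ∑ I, T.J (pw X n) (cK W (mc v n A I J) • em W ℂ (wb v n I)) =
      ∑ L, cK W (∑ I, tpow jm (n + 1) L I * cc (mc v n A I J)) • em W ℂ (wb v n L) := by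
    have h3 : ∀ I, T.J (pw X n) (cK W (mc v n A I J) • em W ℂ (wb v n I)) =
        ∑ L, (cK W (tpow jm (n + 1) L I * cc (mc v n A I J))) • em W ℂ (wb v n L) := by
      intro I
      rw [T.map_smul, J_wb T v jm hj, Finset.smul_sum]
      refine Finset.sum_congr rfl fun L _ => ?_
      rw [smul_smul, mul_comm (tpow jm (n + 1) L I)]
      rfl
    rw [Finset.sum_congr rfl fun I _ => h3 I, Finset.sum_comm]
    refine Finset.sum_congr rfl fun L _ => ?_
    rw [← Finset.sum_smul]
    rfl
  have h4 : ∑ I, (baseW W ℂ).corr (em W ℂ c)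
      (cK W (tpow jm (n + 1) I J) • em W ℂ (wb v n I)) =
      ∑ L, cK W (∑ I, mc v n A L I * tpow jm (n + 1) I J) • em W ℂ (wb v n L) := by
    have h3 : ∀ I, (baseW W ℂ).corr (em W ℂ c)
        (cK W (tpow jm (n + 1) I J) • em W ℂ (wb v n I)) =
        ∑ L, (cK W (mc v n A L I * tpow jm (n + 1) I J)) • em W ℂ (wb v n L) := by
      intro I
      rw [map_smul, em_corr]
      have h5 : em W ℂ (W.corr c (wb v n I)) = em W ℂ (A (wb v n I)) := rfl
      rw [h5, em_op, Finset.smul_sum]
      refine Finset.sum_congr rfl fun L _ => ?_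
      rw [smul_smul, mul_comm (mc v n A L I)]
      rfl
    rw [Finset.sum_congr rfl fun I _ => h3 I, Finset.sum_comm]
    refine Finset.sum_congr rfl fun L _ => ?_
    rw [← Finset.sum_smul]
    rfl
  rw [h2, h4] at h1
  have h6 := congrFun (em_indep v n _ _ h1) L
  exact h6.symm

variable {ι : Type} [Fintype ι] [DecidableEq ι] (v : Basis ι W.K (W.H X)) {dg : ι → ℕ}
  (hv : ∀ i, v i ∈ W.gr X (dg i))

include hv in
omit [Algebra W.K ℂ] in
theorem repr_gr {i : ℕ} {x : W.H X} (hx : x ∈ W.gr X i) {j : ι} (hj : v.repr x j ≠ 0) :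
    dg j = i := by
  have h0 : CharZero W.K := W.charZero
  have h1 : scal (W.isInternal X) (fun i => (i : W.K)) x = (i : W.K) • x :=
    scal_apply (W.isInternal X) (fun i => (i : W.K)) hx
  have h2 : ∀ l, scal (W.isInternal X) (fun i => (i : W.K)) (v l) = (dg l : W.K) • v l :=
    fun l => scal_apply (W.isInternal X) (fun i => (i : W.K)) (hv l)
  have h3 : scal (W.isInternal X) (fun i => (i : W.K)) x =
      ∑ l, ((dg l : W.K) * v.repr x l) • v l := by
    conv_lhs => rw [← v.sum_repr x]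
    rw [map_sum]
    refine Finset.sum_congr rfl fun l _ => ?_
    rw [map_smul, h2, smul_smul, mul_comm]
  have h4 := DFunLike.congr_fun (congrArg v.repr (h3.symm.trans h1)) j
  have h5 := congrFun (v.repr_sum_self fun l => (dg l : W.K) * v.repr x l) j
  rw [map_smul, Finsupp.smul_apply, smul_eq_mul] at h4
  have h6 : (dg j : W.K) * v.repr x j = (i : W.K) * v.repr x j := h5.symm.trans h4
  exact_mod_cast mul_right_cancel₀ hj h6

include hv in
omit [Algebra W.K ℂ] in
/-- An operator whose matrix respects the degrees respects the degrees. -/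
theorem toLin_gr (B : Matrix ι ι W.K) (hB : ∀ i j, B i j ≠ 0 → dg i = dg j) (i : ℕ) (x : W.H X)
    (hx : x ∈ W.gr X i) : Matrix.toLin v v B x ∈ W.gr X i := by
  have h1 : Matrix.toLin v v B x = ∑ j, v.repr x j • ∑ l, B l j • v l := by
    conv_lhs => rw [← v.sum_repr x]
    rw [map_sum]
    refine Finset.sum_congr rfl fun j _ => ?_
    rw [map_smul, Matrix.toLin_self]
  rw [h1]
  refine Submodule.sum_mem _ fun j _ => ?_
  by_cases hj : v.repr x j = 0
  · rw [hj, zero_smul]
    exact Submodule.zero_mem _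
  · refine Submodule.smul_mem _ _ (Submodule.sum_mem _ fun l _ => ?_)
    by_cases hl : B l j = 0
    · rw [hl, zero_smul]
      exact Submodule.zero_mem _
    · refine Submodule.smul_mem _ _ ?_
      rw [← repr_gr v hv hx hj, ← hB l j hl]
      exact hv l

/-- The matrices which commute with the Lefschetz operator `L` and respect the degrees. -/
def UL (dg : ι → ℕ) (L : Matrix ι ι ℂ) : Submodule ℂ (Matrix ι ι ℂ) where
  carrier := {M | M * L = L * M ∧ ∀ i j, dg i ≠ dg j → M i j = 0}
  zero_mem' := ⟨by rw [zero_mul, mul_zero], fun _ _ _ => rfl⟩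
  add_mem' := by
    rintro A B ⟨h1, h2⟩ ⟨h3, h4⟩
    refine ⟨by rw [add_mul, mul_add, h1, h3], fun i j hij => ?_⟩
    rw [Matrix.add_apply, h2 i j hij, h4 i j hij, add_zero]
  smul_mem' := by
    rintro c A ⟨h1, h2⟩
    refine ⟨by rw [Matrix.smul_mul, Matrix.mul_smul, h1], fun i j hij => ?_⟩
    rw [Matrix.smul_apply, h2 i j hij, smul_zero]

include hv in
/-- An operator which commutes with all rational operators commuting with the Lefschetz operator
and respecting the degrees commutes with all complex ones. -/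
theorem comm_of_rat (rat : ∀ r : W.K, ∃ q : ℚ, (q : W.K) = r) (η : W.H X)
    {s : Module.End W.K (W.H X)}
    (hs : ∀ f : Module.End W.K (W.H X), (∀ i, ∀ x ∈ W.gr X i, f x ∈ W.gr X i) →
      (∀ x, f (η * x) = η * f x) → f * s = s * f)
    {M : Matrix ι ι ℂ} (hM : M ∈ UL dg (m1 v (LinearMap.mulLeft W.K η))) :
    M * m1 v s = m1 v s * M := by
  have h1 := desc_mat (UL dg (m1 v (LinearMap.mulLeft W.K η))) (fun σ A hA => by
    refine ⟨?_, fun i j hij => ?_⟩
    · have h2 := congrArg (fun M : Matrix ι ι ℂ => M.map σ) hA.1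
      simp only [Matrix.map_mul] at h2
      rw [m1, map_fix rat] at h2
      exact h2
    · rw [Matrix.map_apply, hA.2 i j hij, map_zero]) hM
  refine Submodule.span_induction (p := fun M _ => M * m1 v s = m1 v s * M) ?_ ?_ ?_ ?_ h1
  · rintro _ ⟨h2, B, rfl⟩
    have e : (B.map fun q => (q : ℂ)) = m1 v (Matrix.toLin v v (B.map fun q => (q : W.K))) := by
      rw [m1, LinearMap.toMatrix_toLin]
      ext i j
      simp only [Matrix.map_apply, map_ratCast]
    have h0 : CharZero W.K := W.charZero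
    have h3 : ∀ i j, (B.map fun q => (q : W.K)) i j ≠ 0 → dg i = dg j := by
      intro i j hij
      by_contra h4
      have h5 := h2.2 i j h4
      rw [Matrix.map_apply] at h5 hij
      have h6 : B i j = 0 := by exact_mod_cast h5
      rw [h6, Rat.cast_zero] at hij
      exact hij rfl
    rw [e] at h2 ⊢
    set f := Matrix.toLin v v (B.map fun q => (q : W.K)) with hf
    have h4 : f * LinearMap.mulLeft W.K η = LinearMap.mulLeft W.K η * f := by
      have h5 := h2.1
      rw [← m1_mul, ← m1_mul] at h5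
      have h6 : Function.Injective (m1 (W := W) (X := X) v) := by
        intro a b hab
        apply (LinearMap.toMatrix v v).injective
        ext i j
        have h7 := congrFun (congrFun hab i) j
        rw [m1, m1, Matrix.map_apply, Matrix.map_apply] at h7
        exact (algebraMap W.K ℂ).injective h7
      exact h6 h5
    have h5 := hs f (fun i x hx => toLin_gr v hv _ h3 i x hx) (fun x => LinearMap.congr_fun h4 x)
    rw [← m1_mul, ← m1_mul, h5]
  · rw [zero_mul, mul_zero]
  · intro a b _ _ ha hb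
    rw [add_mul, mul_add, ha, hb]
  · intro c a _ ha
    rw [Matrix.smul_mul, Matrix.mul_smul, ha]

end gen

section hodge

variable {k : Type u} [Field k] {𝒱 : VarClass k} {ops : CycleOps 𝒱}
  {T : AH.HodgeTheory ops} (TJ : TwConj T.W) {X : 𝒱.Obj}
  {ι : Type} [Fintype ι] [DecidableEq ι] (v : Basis ι T.W.K (T.W.H X)) {dg : ι → ℕ}
  (hv : ∀ i, v i ∈ T.W.gr X (dg i))

/-- Hodge operators commute with the twisted conjugation. -/
theorem hodge_JComm (hJ : ∀ (Z : 𝒱.Obj) (j : ℕ) (c : T.W.H Z), AH.IsHodge T Z j c →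
      TJ.J Z (em T.W ℂ c) = em T.W ℂ c) (n : ℕ) {a : Module.End T.W.K (T.W.H (pw X n))}
    (ha : a ∈ (AH.hodgeSys T).Op (pw X n) (pw X n)) : JComm v (jmat v TJ) n a := by
  obtain ⟨c, hc, rfl⟩ := mem_Op.1 ha
  refine starj_gen TJ v n c ?_
  refine Submodule.span_induction (p := fun c _ => TJ.J _ (em T.W ℂ c) = em T.W ℂ c) ?_ ?_ ?_ ?_ hc
  · rintro c ⟨j, hj⟩
    exact hJ _ j c hj
  · rw [em_zero, J_zero]
  · intro x y _ _ hx hy
    rw [em_add, TJ.map_add, hx, hy]
  · intro r x _ hx
    rw [em_smul, TJ.map_smul, hx]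
    congr 1
    obtain ⟨q, rfl⟩ := T.rat r
    have h1 : (ex T.W ℂ (q : T.W.K) : ℂ) = (q : ℂ) := map_ratCast (algebraMap T.W.K ℂ) q
    change (cc (ex T.W ℂ (q : T.W.K) : ℂ) : ℂ) = (ex T.W ℂ (q : T.W.K) : ℂ)
    rw [h1, cc, map_ratCast]

theorem dpow_one_eq (x : Matrix ι ι ℂ) : dpow x 1 = tpow x 1 := by
  ext I J
  rw [dpow, tpow, Fin.sum_univ_one, Fin.prod_univ_one, if_pos]
  intro j hj
  exact absurd (Subsingleton.elim j 0) hj

theorem mc_zero' (s : Module.End T.W.K (T.W.H X)) :
    mc v 0 (show Module.End T.W.K (T.W.H (pw X 0)) from s) = tpow (m1 v s) 1 :=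
  mc_extP v s 0

/-- Operators which commute with `hm` are Hodge operators. -/
theorem mem_Op_of_comm {hm : Matrix ι ι ℂ}
    (ha : ∀ (n : ℕ) (a : Module.End T.W.K (T.W.H (pw X n))),
      a ∈ (AH.hodgeSys T).Op (pw X n) (pw X n) ↔
        mc v n a * dpow hm (n + 1) = dpow hm (n + 1) * mc v n a)
    {s : Module.End T.W.K (T.W.H X)} (hs : m1 v s * hm = hm * m1 v s) :
    s ∈ (AH.hodgeSys T).Op X X := by
  refine (ha 0 s).2 ?_
  have h1 := mc_zero' v s
  change mc v 0 (show Module.End T.W.K (T.W.H (pw X 0)) from s) * dpow hm 1 =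
    dpow hm 1 * mc v 0 (show Module.End T.W.K (T.W.H (pw X 0)) from s)
  rw [h1, dpow_one_eq, ← tpow_mul, ← tpow_mul, hs]

end hodge

end Pool.Agent.E8helper1.TX
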