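import Pool.Agent.E8helper1.TX.Frob1
import Pool.Agent.E8helper1.TX.Hod2

/-!
# Frobenius elements: construction of the data
-/

open CategoryTheory AlgebraicGeometry

universe u v

namespace Pool.Agent.E8helper1.TX

open Module Matrix Polynomial
open Pool.Agent.H914 Pool.Agent.H914.VarClass Pool.Agent.H914.VarClass.Obj
  Pool.Agent.H914.WeilCohomology
open Pool.Agent.Y133.Half (Sys PH)
open Pool.Agent.Y129 (pw pj PowerAction TG tateClasses)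
open Pool.Agent.E8helper56.TY (FrobData)

set_option linter.unusedSectionVars false

variable {k : Type u} [Field k] {𝒱 : VarClass k} {ops : CycleOps 𝒱}
  {W : WeilCohomology.{u, 0} ops} {X : 𝒱.Obj}

theorem sum_finrank_le (n : ℕ) :
    ∑ i : Fin n, finrank W.K (W.gr X i) ≤ finrank W.K (W.H X) := by
  rw [← Module.finrank_pi_fintype W.K]
  let f : (∀ i : Fin n, W.gr X i) →ₗ[W.K] W.H X :=
    { toFun := fun x => ∑ i, (x i : W.H X)
      map_add' := fun x y => by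
        simp only [Pi.add_apply, Submodule.coe_add]
        rw [Finset.sum_add_distrib]
      map_smul' := fun c x => by
        simp only [Pi.smul_apply, Submodule.coe_smul, RingHom.id_apply]
        rw [Finset.smul_sum] }
  refine LinearMap.finrank_le_finrank_of_injective (f := f) ?_
  rw [← LinearMap.ker_eq_bot, LinearMap.ker_eq_bot']
  intro x hx
  funext j
  apply Subtype.ext
  have h1 : ∑ i, (x i : W.H X) = 0 := hx
  have h2 := congrArg (H914.proj (W.isInternal X) (j : ℕ)) h1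
  rw [map_sum, map_zero, Finset.sum_eq_single j] at h2
  · rwa [proj_same _ (x j).2] at h2
  · intro i _ hij
    exact proj_ne _ (x i).2 (fun h => hij (Fin.ext h))
  · intro h
    exact absurd (Finset.mem_univ _) h

variable {Γ : Type} [Group Γ] {χ : Γ →* W.Kˣ}
  {ρ : ∀ n, Γ →* (W.H (pw X n) ≃ₐ[W.K] W.H (pw X n))}
  {ι : Type} [Fintype ι] [DecidableEq ι] (v : Basis ι W.K (W.H X))
  {ℓ : ℕ} [Fact ℓ.Prime] (φ : W.K ≃+* ℚ_[ℓ])

/-- The matrices of the original action over `ℚ_ℓ`. -/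
noncomputable def Aq (ρ : ∀ n, Γ →* (W.H (pw X n) ≃ₐ[W.K] W.H (pw X n))) :
    Γ →* Matrix ι ι ℚ_[ℓ] where
  toFun g := mapφ φ (LinearMap.toMatrix v v (rep1 ρ g))
  map_one' := by rw [map_one, LinearMap.toMatrix_one, mapφ_one]
  map_mul' g g' := by rw [map_mul, LinearMap.toMatrix_mul, mapφ_mul]

theorem Aq_apply (g : Γ) (a b : ι) :
    Aq v φ ρ g a b = φ (v.repr (show W.H X from ρ 0 g (v b)) a) := by
  change φ (LinearMap.toMatrix v v (rep1 ρ g) a b) = _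
  rw [LinearMap.toMatrix_apply]
  rfl

/-- The element `γ` is a Frobenius element at `p`. -/
def IsFrobE (ρ : ∀ n, Γ →* (W.H (pw X n) ≃ₐ[W.K] W.H (pw X n))) (p : ℕ) (γ : Γ) : Prop :=
  ∀ i, ∃ P : ℤ[X], P.Monic ∧ P.natDegree ≤ finrank W.K (W.gr X i) ∧
    (∀ z : ℂ, aeval z P = 0 → ‖z‖ ^ 2 = (p : ℝ) ^ i) ∧
    ∀ a ∈ W.gr X i, (aeval (rep1 ρ γ) P : Module.End W.K (W.H X)) a = 0

/-- The Frobenius elements are dense. -/
def FrobDense (χ : Γ →* W.Kˣ) (ρ : ∀ n, Γ →* (W.H (pw X n) ≃ₐ[W.K] W.H (pw X n))) : Prop :=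
  ∀ (g : Γ) (ε : ℝ), 0 < ε → ∃ (γ : Γ) (p : ℕ), p.Prime ∧ (χ γ : W.K) = p ∧ IsFrobE ρ p γ ∧
    ‖φ (χ γ) - φ (χ g)‖ < ε ∧ ∀ a b, ‖Aq v φ ρ γ a b - Aq v φ ρ g a b‖ < ε

section

variable (h : PowerAction W X χ ρ) {dg : ι → ℕ} (hv : ∀ i, v i ∈ W.gr X (dg i))

include h hv in
theorem Aq_hom (g : Γ) (a b : ι) (hab : dg a ≠ dg b) : Aq v φ ρ g a b = 0 := by
  rw [Aq_apply]
  by_contra h1
  apply hab
  refine repr_gr v hv (i := dg b) (x := (show W.H X from ρ 0 g (v b)))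
    ((h.galois 0).gr_mem g (dg b) (v b) (hv b)) ?_
  intro h2
  apply h1
  rw [h2, map_zero]

include hv in
theorem Rq_res (Δ : Subgroup Γ) (θ : Δ →* W.Kˣ) (s : Δ) (a b : ι) :
    Rq v φ (power_restrict h Δ) θ s a b =
      φ ((θ s⁻¹ : W.Kˣ) : W.K) ^ dg b * Aq v φ ρ (s : Γ) a b := by
  have h2 : Rq v φ (power_restrict h Δ) θ s a b =
      φ (v.repr (nu0 (rres ρ Δ) θ s (v b)) a) := by
    rw [Rq_apply]
    change φ (LinearMap.toMatrix v v (nu0 (rres ρ Δ) θ s) a b) = _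
    rw [LinearMap.toMatrix_apply]
  obtain ⟨y, hy⟩ : ∃ y : W.H X, y = ρ 0 (s : Γ) (v b) := ⟨_, rfl⟩
  have h3 : nu0 (rres ρ Δ) θ s (v b) = ((θ s⁻¹ : W.Kˣ) : W.K) ^ (dg b) • y := by
    rw [hy]
    exact nu_gr (ρ := rres ρ Δ) (θ := θ) (n := 0) s (hv b)
  rw [h2, h3, map_smul, Finsupp.smul_apply, smul_eq_mul, map_mul, map_pow, Aq_apply, hy]

theorem theta_sq {Δ : Subgroup Γ} {θ : Δ →* W.Kˣ} (hθ : ∀ g, θ g ^ 2 = (χ.comp Δ.subtype) g)
    {M : ℕ} (hM : ∀ g : Γ, g ^ M ∈ Δ) (s : Δ) (g : Γ) (hs : (s : Γ) = g ^ (2 * M)) :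
    φ ((θ s⁻¹ : W.Kˣ) : W.K) = (φ (χ g : W.K))⁻¹ ^ M := by
  have h1 : s = (⟨g ^ M, hM g⟩ : Δ) ^ 2 := by
    apply Subtype.ext
    rw [hs, mul_comm, pow_mul]
    rfl
  have h2 : θ s = χ g ^ M := by
    rw [h1, map_pow, hθ]
    change χ (g ^ M) = _
    rw [map_pow]
  rw [map_inv, h2, Units.val_inv_eq_inv_val, map_inv₀, Units.val_pow_eq_pow_val, map_pow, inv_pow]

end

section frob

variable [Algebra ℚ_[ℓ] ℂ]

/-- The ring homomorphism to complex matrices. -/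
noncomputable def toC : Module.End W.K (W.H X) →+* Matrix ι ι ℂ :=
  (algebraMap ℚ_[ℓ] ℂ).mapMatrix.comp ((φ : W.K →+* ℚ_[ℓ]).mapMatrix.comp
    (LinearMap.toMatrixAlgEquiv v : Module.End W.K (W.H X) →+* Matrix ι ι W.K))

theorem toC_rep1 (g : Γ) : toC v φ (rep1 ρ g) = (Aq v φ ρ g).map (algebraMap ℚ_[ℓ] ℂ) := rfl

theorem toC_apply (f : Module.End W.K (W.H X)) (a b : ι) :
    toC v φ f a b = algebraMap ℚ_[ℓ] ℂ (φ (v.repr (f (v b)) a)) := by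
  change algebraMap ℚ_[ℓ] ℂ (φ (LinearMap.toMatrixAlgEquiv v f a b)) = _
  rw [LinearMap.toMatrixAlgEquiv_apply]

variable {dg : ι → ℕ} (hv : ∀ i, v i ∈ W.gr X (dg i))

include hv in
theorem aeval_kill {γ : Γ} {i : ℕ} {P : ℤ[X]}
    (hP : ∀ a ∈ W.gr X i, (aeval (rep1 ρ γ) P : Module.End W.K (W.H X)) a = 0) {y : ι → ℂ}
    (hy : ∀ b, dg b ≠ i → y b = 0) :
    (aeval ((Aq v φ ρ γ).map (algebraMap ℚ_[ℓ] ℂ)) P) *ᵥ y = 0 := by
  have h1 : aeval ((Aq v φ ρ γ).map (algebraMap ℚ_[ℓ] ℂ)) P =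
      toC v φ (aeval (rep1 ρ γ) P) := by
    rw [← toC_rep1]
    exact Polynomial.aeval_algHom_apply (toC v φ).toIntAlgHom (rep1 ρ γ) P
  rw [h1]
  ext a
  rw [Matrix.mulVec, dotProduct]
  refine Finset.sum_eq_zero fun b _ => ?_
  by_cases hb : dg b = i
  · rw [toC_apply, hP (v b) (by rw [← hb]; exact hv b), map_zero, Finsupp.zero_apply, map_zero,
      map_zero, zero_mul]
  · rw [hy b hb, mul_zero]

/-- **The Frobenius data.** -/
noncomputable def frobData [Nontrivial (W.H X)] (h : PowerAction W X χ ρ) (Δ : Subgroup Γ)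
    (θ : Δ →* W.Kˣ) (hθ : ∀ g, θ g ^ 2 = (χ.comp Δ.subtype) g)
    (hlat : ∀ g i j, ‖φ (v.repr (rres ρ Δ 0 g (v j)) i)‖ ≤ 1)
    (hlat' : ∀ g i j, ‖φ (v.repr (ρ 0 g (v j)) i)‖ ≤ 1) (hχ : ∀ g, ‖φ (χ g : W.K)‖ = 1)
    (hθ1 : ∀ g, ‖φ ((θ g : W.Kˣ) : W.K)‖ = 1) (hSSG : S_SSG) (hss : SemisimpleH (rres ρ Δ))
    (hF : FrobDense v φ χ ρ) {M1 : ℕ} (hM0 : 0 < M1) (hM1 : ∀ g : Γ, g ^ M1 ∈ Δ) :
    FrobData (galData v φ hv (power_restrict h Δ) hθ hlat hθ1 hSSG hss) X.dim where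
  F := {s | ∃ (γ : Γ) (p : ℕ), p.Prime ∧ (χ γ : W.K) = p ∧ IsFrobE ρ p γ ∧
    (s : Γ) = γ ^ (2 * M1)}
  M := 2 * M1
  M_pos := by omega
  e := M1
  e_pos := hM0
  dense g ε hε := by
    obtain ⟨γ, p, hp, hγ, hfr, hd1, hd2⟩ := hF (g : Γ) ε hε
    have hmem : γ ^ (2 * M1) ∈ Δ := by
      rw [pow_mul]
      exact hM1 _
    refine ⟨⟨γ ^ (2 * M1), hmem⟩, ⟨γ, p, hp, hγ, hfr, rfl⟩, fun a b => ?_⟩
    change ‖Rq v φ (power_restrict h Δ) θ ⟨γ ^ (2 * M1), hmem⟩ a b -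
      Rq v φ (power_restrict h Δ) θ (g ^ (2 * M1)) a b‖ < ε
    rw [Rq_res v φ h hv, Rq_res v φ h hv, theta_sq φ hθ hM1 _ γ rfl,
      theta_sq φ hθ hM1 (g ^ (2 * M1)) (g : Γ) rfl]
    have h1 : NearM ε (Aq v φ ρ γ) (Aq v φ ρ g) := fun i j =>
      ⟨by rw [Aq_apply]; exact hlat' γ i j, by rw [Aq_apply]; exact hlat' g i j, hd2 i j⟩
    have h2 : Near ε (φ (χ γ : W.K)) (φ (χ (g : Γ) : W.K)) := ⟨(hχ γ).le, (hχ g).le, hd1⟩
    have h3 := ((((h2.inv (hχ _) (hχ _)).pow hε M1).pow hε (dg b)).mul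
      ((h1.pow hε (2 * M1)) a b)).2.2
    have e1 : Aq v φ ρ (γ ^ (2 * M1)) = Aq v φ ρ γ ^ (2 * M1) := map_pow _ _ _
    have e2 : Aq v φ ρ ((g ^ (2 * M1) : Δ) : Γ) = Aq v φ ρ (g : Γ) ^ (2 * M1) := by
      rw [SubmonoidClass.coe_pow, map_pow]
    rw [e1, e2]
    exact h3
  weil := by
    rintro s ⟨γ, p, hp, hγ, hfr, hs⟩
    choose P hP1 hP2 hP3 hP4 using hfr
    refine ⟨p, fun i => P i, hp, fun i => hP1 i, ?_, fun i => hP3 i, ?_⟩
    · refine (Finset.sum_le_sum fun (i : Fin (2 * X.dim + 1)) _ => hP2 (i : ℕ)).trans ?_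
      rw [← Module.finrank_eq_card_basis v]
      exact sum_finrank_le (W := W) (X := X) (2 * X.dim + 1)
    · intro lam hlam
      have hx : φ (χ γ : W.K) = (p : ℚ_[ℓ]) := by rw [hγ, map_natCast]
      have hB : ∀ a b, (((galData v φ hv (power_restrict h Δ) hθ hlat hθ1 hSSG hss).R s).map
          (algebraMap ℚ_[ℓ] ℂ)) a b = (((p : ℂ))⁻¹ ^ M1) ^ dg b *
          (((Aq v φ ρ γ).map (algebraMap ℚ_[ℓ] ℂ)) ^ (2 * M1)) a b := by
        intro a b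
        rw [Matrix.map_apply]
        have e0 : (galData v φ hv (power_restrict h Δ) hθ hlat hθ1 hSSG hss).R s a b =
          Rq v φ (power_restrict h Δ) θ s a b := rfl
        rw [e0, Rq_res v φ h hv, theta_sq φ hθ hM1 s γ hs, hx, map_mul, map_pow, map_pow, map_inv₀,
          map_natCast, hs]
        congr 1
        have e1 : Aq v φ ρ (γ ^ (2 * M1)) = Aq v φ ρ γ ^ (2 * M1) := map_pow _ _ _
        have e2 := map_pow (algebraMap ℚ_[ℓ] ℂ).mapMatrix (Aq v φ ρ γ) (2 * M1)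
        rw [e1]
        exact congrFun (congrFun e2 a) b
      have hA : ∀ a b, dg a ≠ dg b → ((Aq v φ ρ γ).map (algebraMap ℚ_[ℓ] ℂ)) a b = 0 := by
        intro a b hab
        rw [Matrix.map_apply, Aq_hom v φ h hv γ a b hab, map_zero]
      obtain ⟨b0, y, hy, hy', hy2⟩ := eig_twist hA hB hlam
      have hp0 : (p : ℂ) ≠ 0 := by exact_mod_cast hp.ne_zero
      have hy3 : ((Aq v φ ρ γ).map (algebraMap ℚ_[ℓ] ℂ)) ^ (2 * M1) *ᵥ y =
          (lam * (p : ℂ) ^ (dg b0 * M1)) • y := by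
        have h3 := congrArg (fun z => ((p : ℂ) ^ (dg b0 * M1)) • z) hy2
        simp only [smul_smul] at h3
        have h4 : (p : ℂ) ^ (dg b0 * M1) * (((p : ℂ))⁻¹ ^ M1) ^ dg b0 = 1 := by
          rw [← pow_mul, mul_comm M1, ← mul_pow, mul_inv_cancel₀ hp0, one_pow]
        rw [h4, one_smul] at h3
        rw [h3, mul_comm]
      obtain ⟨α, hα1, hα2⟩ := exists_root hy
        (aeval_kill v φ hv (hP4 (dg b0)) hy') hy3
      have hi : dg b0 < 2 * X.dim + 1 := by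
        by_contra hlt
        push Not at hlt
        have h5 := W.gr_eq_bot X (dg b0) (by omega)
        have h6 := hv b0
        rw [h5, Submodule.mem_bot] at h6
        exact v.ne_zero b0 h6
      exact ⟨⟨dg b0, hi⟩, α, hα1, hα2.symm⟩

end frob

end Pool.Agent.E8helper1.TX
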