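import Pool.Agent.E8helper1.TX.Fin5
import Pool.Agent.E8helper1.TX.Frob2

/-!
# The theorem for Tate classes, all types: assembly
-/

open CategoryTheory AlgebraicGeometry Filter Topology

open scoped ENNReal

universe u v

namespace Pool.Agent.E8helper1.TX

open Module Matrix
open Pool.Agent.H914 Pool.Agent.H914.VarClass Pool.Agent.H914.VarClass.Obj
  Pool.Agent.H914.WeilCohomology Pool.Agent.H281R3.HT
open Pool.Agent.Y133.Half (Sys PH xp xp_def Ev Adj algSys)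
open Pool.Agent.Y133.Half.Sys (mem_Op)
open Pool.Agent.Y129 (pw pj PowerAction TG tateClasses tateDim cycRank tate_index finrank_TG
  TG_eq_iff)
open Pool.Agent.TH125.Gal (IsGaloisAct Intertwines TateAct)
open Pool.Agent.E8helper56.TY (FrobData S_ASM5 M5)
open scoped ComplexOrder

set_option linter.unusedSectionVars false

variable {k : Type u} [Field k] {𝒱 : VarClass k} {ops : CycleOps 𝒱}
  {W : WeilCohomology.{u, 0} ops} {X : 𝒱.Obj} {Γ : Type} [Group Γ] {χ : Γ →* W.Kˣ}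
  {ρ : ∀ n, Γ →* (W.H (pw X n) ≃ₐ[W.K] W.H (pw X n))} {θ : Γ →* W.Kˣ}

section core

variable {ℓ : ℕ} [Fact ℓ.Prime] (φ : W.K ≃+* ℚ_[ℓ])
  [Nontrivial (W.H X)]
  {ι : Type} [Fintype ι] [DecidableEq ι] (v : Basis ι W.K (W.H X)) {dg : ι → ℕ}

/-- **The theorem, if the normalized action exists.** -/
theorem core_tate5 [Algebra W.K ℂ] (hSJ : S_STARJ.{u}) (hSSG : S_SSG) (hASM : S_ASM5)
    (h : PowerAction W X χ ρ) (hθ : ∀ g, θ g ^ 2 = χ g)
    (hv : ∀ i, v i ∈ W.gr X (dg i))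
    (hlat : ∀ g i j, ‖φ (v.repr (ρ 0 g (v j)) i)‖ ≤ 1)
    (hθ1 : ∀ g, ‖φ ((θ g : W.Kˣ) : W.K)‖ = 1) (hss : SemisimpleH ρ) (T : TwConj W)
    {s : Module.End W.K (W.H X)} (hs2 : s * s = 1)
    (hsc : ∃ Δ : Subgroup Γ, Δ.FiniteIndex ∧ ∀ g ∈ Δ, s * nu0 ρ θ g = nu0 ρ θ g * s)
    (hsp : s * H914.par (W.isInternal X) = H914.par (W.isInternal X) * s)
    (hpos : ∀ x : (baseW W ℂ).H X, x ≠ 0 → ∃ r : ℝ, 0 < r ∧
      (baseW W ℂ).tr X (x * bcO s (T.J X x)) = cK W (r : ℂ))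
    (hFD : ∀ [Algebra ℚ_[ℓ] ℂ],
      Nonempty (FrobData (galData v φ hv h hθ hlat hθ1 hSSG hss) X.dim)) :
    (∀ m0 : ℕ, M5 (finrank W.K (W.H X)) X.dim = m0 + 1 →
      TG W X χ ρ (m0 + m0 + 1) ≤ algSpan W (pw X (m0 + m0 + 1)) →
      ∀ n, finrank W.K (TG W X χ ρ (n + n + 1)) ≤
      (2 * finrank W.K (W.H X) * M5 (finrank W.K (W.H X)) X.dim) ^
        (2 * finrank W.K (W.H X) ^ 2) * finrank W.K (algSpan W (pw X (n + n + 1)))) ∧
    ∀ m : ℕ, (finrank W.K (W.H X) : ℝ) ^ 3 * (M5 (finrank W.K (W.H X)) X.dim : ℝ) ^ 2 *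
      Real.log (2 * finrank W.K (W.H X) * M5 (finrank W.K (W.H X)) X.dim + 1) ≤ (m + 1 : ℕ) →
      TG W X χ ρ (m + m + 1) ≤ algSpan W (pw X (m + m + 1)) →
      ∀ n, TG W X χ ρ n ≤ algSpan W (pw X n) := by
  have hb : Fintype.card ι = finrank W.K (W.H X) := (Module.finrank_eq_card_basis v).symm
  have hne : Nonempty ι := by
    by_contra hne
    rw [not_nonempty_iff] at hne
    have h3 : Subsingleton (W.H X) := by
      have h4 := (v.repr.toEquiv.trans Finsupp.equivFunOnFinite).injective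
      exact h4.subsingleton
    exact not_subsingleton (W.H X) h3
  rw [← hb]
  -- the general situation
  have key : TG W X χ ρ 1 ≤ algSpan W (pw X 1) →
      (PotOp (galData v φ hv h hθ hlat hθ1 hSSG hss).R (galData v φ hv h hθ hlat hθ1 hSSG hss).p
        (M5 (Fintype.card ι) X.dim) ≤
        trφ φ (SK v (algSys W) (M5 (Fintype.card ι) X.dim)) →
        ∀ m, finrank ℚ_[ℓ] (trφ φ (PotOp (R0 v h θ) (p0 v) m)) ≤
        (2 * Fintype.card ι * M5 (Fintype.card ι) X.dim) ^ (2 * Fintype.card ι ^ 2) *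
          finrank ℚ_[ℓ] (trφ φ (SK v (algSys W) m))) ∧
      (∀ m : ℕ, (Fintype.card ι : ℝ) ^ 3 * (M5 (Fintype.card ι) X.dim : ℝ) ^ 2 *
        Real.log (2 * Fintype.card ι * M5 (Fintype.card ι) X.dim + 1) ≤ m →
        trφ φ (PotOp (R0 v h θ) (p0 v) m) ≤ trφ φ (SK v (algSys W) m) →
        ∀ j, trφ φ (PotOp (R0 v h θ) (p0 v) j) = trφ φ (SK v (algSys W) j)) := by
    intro hT1
    have hp : H914.par (W.isInternal X) ∈ (algSys W).Op X X :=
      op_of_pot h hθ hT1 ⟨⊤, inferInstance, fun g _ => par_nu0 h g⟩ rfl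
    have hs : s ∈ (algSys W).Op X X := op_of_pot h hθ hT1 hsc hsp
    letI : Algebra ℚ_[ℓ] ℂ := ((algebraMap W.K ℂ).comp (φ.symm : ℚ_[ℓ] →+* W.K)).toAlgebra
    have halg : ∀ x : W.K, algebraMap ℚ_[ℓ] ℂ (φ x) = algebraMap W.K ℂ x := by
      intro x
      change algebraMap W.K ℂ (φ.symm (φ x)) = _
      rw [RingEquiv.symm_apply_apply]
    have hQ : (Qm v s (jmat v T)).PosDef := Qm_posDef v T s hpos
    have hQu : IsUnit (Qm v s (jmat v T)).det := by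
      rw [isUnit_iff_ne_zero]
      exact hQ.det_pos.ne'
    have hPO : ∀ m, PotOp (Rq v φ h θ) (mapφ φ (p0 v)) m = trφ φ (PotOp (R0 v h θ) (p0 v) m) :=
      fun m => PotOp_trφ φ (R0 v h θ) (p0 v) (Rq v φ h θ) (fun g => rfl) m
    have hpm : (mapφ φ (p0 v)).map (algebraMap ℚ_[ℓ] ℂ) = m1 v (H914.par (W.isInternal X)) := by
      ext i j
      exact halg _
    obtain ⟨FD⟩ := hFD
    have hA := hASM ℓ ι Γ (galData v φ hv h hθ hlat hθ1 hSSG hss) X.dim FD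
      (fun m => trφ φ (SK v (algSys W) m)) (psys0 v (algSys W) hv hp)
      (fun m => by
        rw [bcM_trφ φ halg]
        exact SB_eq_bcM v (algSys W) m)
      (Qm v s (jmat v T)) hQ
      (fun m A hA => SB_star v hv (algSys W) hp hs hs2 (fun n a ha => jcomm_span v hSJ T n ha)
        hQu m A hA)
      (by
        have h1 : (galData v φ hv h hθ hlat hθ1 hSSG hss).p = mapφ φ (p0 v) := rfl
        rw [h1, hpm]
        exact par_Qm v hv T hsp)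
      (fun m => by
        have h1 : PotOp (galData v φ hv h hθ hlat hθ1 hSSG hss).R
          (galData v φ hv h hθ hlat hθ1 hSSG hss).p m = trφ φ (PotOp (R0 v h θ) (p0 v) m) := hPO m
        rw [h1]
        exact trφ_le φ (SK_le v h hθ m)) hne
    have h2 : ∀ m, PotOp (galData v φ hv h hθ hlat hθ1 hSSG hss).R
      (galData v φ hv h hθ hlat hθ1 hSSG hss).p m = trφ φ (PotOp (R0 v h θ) (p0 v) m) := hPO
    obtain ⟨hA1, hA2⟩ := hA
    constructor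
    · intro h3 m
      have h4 := hA1 h3 m
      rw [h2] at h4
      exact h4
    · intro m hm hle j
      have h4 := hA2 m hm (by rw [h2]; exact hle) j
      rw [h2] at h4
      exact h4
  have h2 : ∀ m, PotOp (galData v φ hv h hθ hlat hθ1 hSSG hss).R
      (galData v φ hv h hθ hlat hθ1 hSSG hss).p m = trφ φ (PotOp (R0 v h θ) (p0 v) m) :=
    fun m => PotOp_trφ φ (R0 v h θ) (p0 v) (Rq v φ h θ) (fun g => rfl) m
  constructor
  · intro m0 hm0 hT n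
    have h3 := (key (TG_down h (by omega) hT)).1 (by
      rw [h2, hm0]
      exact trφ_le φ ((PotOp_le_iff v h hθ m0).2 hT)) (n + 1)
    rw [finrank_trφ, finrank_trφ, finrank_PotOp v h hθ, finrank_SK] at h3
    exact h3
  · intro m hm hT n
    have h3 := (key (TG_down h (by omega) hT)).2 (m + 1) hm
      (trφ_le φ ((PotOp_le_iff v h hθ m).2 hT)) (n + 1)
    have h4 := le_of_trφ φ h3.le
    exact TG_down h (by omega) ((PotOp_le_iff v h hθ n).1 h4)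

end core

/-- The homogeneous basis in which the Galois group acts by integral matrices, and in which the
Frobenius elements are dense. -/
def HasFrob {ℓ : ℕ} [Fact ℓ.Prime] (φ : W.K ≃+* ℚ_[ℓ]) (χ : Γ →* W.Kˣ)
    (ρ : ∀ n, Γ →* (W.H (pw X n) ≃ₐ[W.K] W.H (pw X n))) : Prop :=
  ∃ (d : ℕ) (v : Basis (Fin d) W.K (W.H X)), (∀ i, ∃ j, v i ∈ W.gr X j) ∧
    (∀ g i j, ‖φ (v.repr (ρ 0 g (v j)) i)‖ ≤ 1) ∧ FrobDense v φ χ ρ

variable {ℓ : ℕ} [Fact ℓ.Prime]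

/-- The theorem in terms of spaces. -/
theorem main_TG5 (hSJ : S_STARJ.{u}) (hSSG : S_SSG) (hASM : S_ASM5) (hTRF : S_TRF) (hSQ : S_SQRT)
    (hHDG : S_HDG.{u}) (hHRS : S_HRS.{u}) [Algebra W.K ℂ] (φ : W.K ≃+* ℚ_[ℓ])
    [Nontrivial (W.H X)] (h : PowerAction W X χ ρ) (hχ : ∀ g, ‖φ (χ g : W.K)‖ = 1)
    (hlat : HasFrob φ χ ρ) (hss : SemisimpleH ρ)
    (H : HodgeDec W) (D : X.Cycles) (hD : Polarizes H X D) :
    (TG W X χ ρ 1 ≤ algSpan W (pw X 1) → ∀ n, HomEqNum W (pw X n)) ∧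
    (∀ m0 : ℕ, M5 (finrank W.K (W.H X)) X.dim = m0 + 1 →
      TG W X χ ρ (m0 + m0 + 1) ≤ algSpan W (pw X (m0 + m0 + 1)) →
      ∀ n, finrank W.K (TG W X χ ρ (n + n + 1)) ≤
      (2 * finrank W.K (W.H X) * M5 (finrank W.K (W.H X)) X.dim) ^
        (2 * finrank W.K (W.H X) ^ 2) * finrank W.K (algSpan W (pw X (n + n + 1)))) ∧
    ∀ m : ℕ, (finrank W.K (W.H X) : ℝ) ^ 3 * (M5 (finrank W.K (W.H X)) X.dim : ℝ) ^ 2 *
      Real.log (2 * finrank W.K (W.H X) * M5 (finrank W.K (W.H X)) X.dim + 1) ≤ (m + 1 : ℕ) →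
      TG W X χ ρ (m + m + 1) ≤ algSpan W (pw X (m + m + 1)) →
      ∀ n, TG W X χ ρ n ≤ algSpan W (pw X n) := by
  obtain ⟨Δ, hΔ, θ', hθ1, hθ2⟩ := hSQ ℓ Γ ((Units.map (φ : W.K →* ℚ_[ℓ])).comp χ) hχ
  let θ : Δ →* W.Kˣ := (Units.map (φ.symm : ℚ_[ℓ] →* W.K)).comp θ'
  have hθ : ∀ g, θ g ^ 2 = (χ.comp Δ.subtype) g := by
    intro g
    apply Units.ext
    have h1 := congrArg (fun u : ℚ_[ℓ]ˣ => φ.symm (u : ℚ_[ℓ])) (hθ1 g)
    simp only [Units.val_pow_eq_pow_val, map_pow] at h1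
    change (φ.symm (θ' g : ℚ_[ℓ])) ^ 2 = (χ g : W.K)
    rw [h1]
    exact φ.symm_apply_apply _
  have hθn : ∀ g, ‖φ ((θ g : W.Kˣ) : W.K)‖ = 1 := by
    intro g
    have h1 : φ ((θ g : W.Kˣ) : W.K) = (θ' g : ℚ_[ℓ]) := φ.apply_symm_apply _
    rw [h1]
    exact hθ2 g
  have h' := power_restrict h Δ
  obtain ⟨d, v, hv, hl, hF⟩ := hlat
  choose dg hv using hv
  obtain ⟨T, hT⟩ := hHDG W H
  obtain ⟨s, hs1, hs2, hs3⟩ := hHRS W H T hT X D hD
  -- the class of the divisor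
  obtain ⟨Δ', hΔ', hcl⟩ := (h'.galois 0).cl_fix 1 (W.cl X D) ⟨D, hD.1, rfl⟩
  have hLc : W.cl X D ∈ W.gr X (2 * 1) := W.cl_mem hD.1
  have hcl2 : ∀ g ∈ Δ', nu0 (rres ρ Δ) θ g (W.cl X D) = W.cl X D := by
    intro g hg
    have h1 : nu0 (rres ρ Δ) θ g (W.cl X D) = ((θ g⁻¹ : W.Kˣ) : W.K) ^ (2 * 1) •
        (show W.H X from rres ρ Δ 0 g (W.cl X D)) := nu_gr (n := 0) g hLc
    have h2 : (show W.H X from rres ρ Δ 0 g (W.cl X D)) =
        (((χ.comp Δ.subtype) g : W.Kˣ) : W.K) ^ 1 • W.cl X D := hcl g hg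
    rw [h1, h2, smul_smul, ← hθ g]
    have h3 : ((θ g⁻¹ : W.Kˣ) : W.K) ^ (2 * 1) * ((θ g ^ 2 : W.Kˣ) : W.K) ^ 1 = 1 := by
      rw [mul_one, pow_one, Units.val_pow_eq_pow_val, ← mul_pow, ← Units.val_mul, ← map_mul θ,
        inv_mul_cancel, map_one, Units.val_one, one_pow]
    rw [h3, one_smul]
  have hsc : ∃ Δ' : Subgroup Δ, Δ'.FiniteIndex ∧ ∀ g ∈ Δ', s * nu0 (rres ρ Δ) θ g =
      nu0 (rres ρ Δ) θ g * s := by
    refine ⟨Δ', hΔ', fun g hg => ?_⟩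
    refine (hs2 (nu0 (rres ρ Δ) θ g) (fun i x hx => nu_mem (n := 0) h' g hx) fun x => ?_).symm
    rw [nu0_mulH h', hcl2 g hg]
  have hsp : s * H914.par (W.isInternal X) = H914.par (W.isInternal X) * s := by
    refine (hs2 (H914.par (W.isInternal X)) (fun i x hx => ?_) fun x => ?_).symm
    · rw [PH.par (PH.of hx)]
      exact Submodule.smul_mem _ _ hx
    · rw [par_mulH, PH.par (PH.of hLc), pow_mul, neg_one_sq, one_pow, one_smul]
  obtain ⟨M1, hM0, hM1⟩ := exists_pow_mem Δ hΔ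
  have hA := core_tate5 (θ := θ) φ v hSJ hSSG hASM h' hθ hv
    (fun g => hl g) hθn (semisimple_restrict Δ hΔ hss) T hs1 hsc hsp hs3
    ⟨frobData v φ hv h Δ θ hθ (fun g => hl g) hl hχ hθn hSSG (semisimple_restrict Δ hΔ hss) hF
      hM0 hM1⟩
  have hB := core_hen (θ := θ) hSJ hTRF v hv h' hθ T hs1 hsc hsp hs3
  obtain ⟨hA1, hA2⟩ := hA
  refine ⟨fun hT n => ?_, fun m0 hm0 hT n => ?_, fun m hm hT n => ?_⟩
  · exact hB (by rw [TG_restrict Δ hΔ]; exact hT) n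
  · have h1 := hA1 m0 hm0 (by rw [TG_restrict Δ hΔ]; exact hT) n
    rw [TG_restrict Δ hΔ] at h1
    exact h1
  · have h1 := hA2 m hm (by rw [TG_restrict Δ hΔ]; exact hT) n
    rw [TG_restrict Δ hΔ] at h1
    exact h1

/-- The passage to the index. -/
theorem index_of [Nontrivial (W.H X)] (h : PowerAction W X χ ρ) (C : ℕ) (hN : ∀ n, HomEqNum W (pw X n))
    (h2 : ∀ n, finrank W.K (TG W X χ ρ (n + n + 1)) ≤
      C * finrank W.K (algSpan W (pw X (n + n + 1)))) :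
    (∀ n, tateDim W X χ ρ (2 * n + 1) ≤ C * cycRank ops (pw X (2 * n + 1))) ∧
      ∃ N : ℕ, 1 ≤ N ∧ N ≤ C ∧
        Tendsto (fun n => (tateDim W X χ ρ n : ℝ≥0∞) / cycRank ops (pw X n)) atTop
          (𝓝 (N : ℝ≥0∞)) ∧
        (N = 1 ↔ ∀ n, TateAct χ (W.gr (pw X n)) (algClasses W (pw X n)) (ρ n)) := by
  have hle : ∀ n, tateDim W X χ ρ (2 * n + 1) ≤ C * cycRank ops (pw X (2 * n + 1)) := by
    intro n
    have h4 := h2 n
    have e : n + n + 1 = 2 * n + 1 := by omega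
    rw [e] at h4
    have h5 : cycRank ops (pw X (2 * n + 1)) = finrank W.K (algSpan W (pw X (2 * n + 1))) :=
      (Pool.Agent.Y133.Half.homEqNum_iff' (pw X (2 * n + 1))).1 (hN _)
    rw [h5, ← finrank_TG]
    exact h4
  refine ⟨hle, ?_⟩
  obtain ⟨N, e1, e2, e3, e4⟩ := tate_index h
  have hNle : (N : ℝ≥0∞) ≤ (C : ℝ≥0∞) := by
    have hsub : Tendsto (fun n : ℕ => 2 * n + 1) atTop atTop := by
      refine tendsto_atTop_mono (fun n => ?_) tendsto_id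
      change n ≤ 2 * n + 1
      omega
    refine le_of_tendsto (e2.comp hsub) (Eventually.of_forall fun n => ?_)
    change (tateDim W X χ ρ (2 * n + 1) : ℝ≥0∞) / cycRank ops (pw X (2 * n + 1)) ≤ _
    refine ENNReal.div_le_of_le_mul ?_
    exact_mod_cast hle n
  have hNle' : N ≤ (C : ℕ∞) := by
    have : ((N : ℕ∞) : ℝ≥0∞) ≤ (((C : ℕ) : ℕ∞) : ℝ≥0∞) := by
      simpa using hNle
    exact ENat.toENNReal_le.1 this
  obtain ⟨N', rfl⟩ := ENat.ne_top_iff_exists.1 (ne_top_of_le_ne_top (ENat.coe_ne_top _) hNle')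
  refine ⟨N', by exact_mod_cast e1, by exact_mod_cast hNle', by simpa using e2, ?_⟩
  have e5 : N' = 1 ↔ (N' : ℕ∞) = 1 := by exact_mod_cast Iff.rfl
  rw [e5, e4]
  exact ⟨fun h4 n => (h4 n).1, fun h4 n => ⟨h4 n, hN n⟩⟩

end Pool.Agent.E8helper1.TX
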