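import Pool.Agent.E8helper56.TX.Final
import Pool.Agent.E8helper41.TX.Asm
import Pool.Agent.W437.HD.Fixed

/-!
# The theorem on the level of matrices, for the commutants of a Hodge cocharacter
-/

set_option autoImplicit false
set_option linter.unusedSectionVars false

namespace Pool.Agent.E8helper1.TX

open Matrix Module
open Pool.Agent.E8helper56.TX (TL IsInt uni4)
open Pool.Agent.E8helper41.TX (cjm_apply cjm_dpow cjm_comm cjm_inj cjm_back mem_bcM bcM_mono)
open scoped ComplexOrder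

section desc

/-- Descent for spaces of matrices which are stable under the automorphisms of `ℂ`. -/
theorem desc_mat {N : Type} [Fintype N] (U : Submodule ℂ (Matrix N N ℂ))
    (hU : ∀ σ : ℂ ≃+* ℂ, ∀ M ∈ U, M.map σ ∈ U) {A : Matrix N N ℂ} (hA : A ∈ U) :
    A ∈ Submodule.span ℂ {M | M ∈ U ∧ ∃ B : Matrix N N ℚ, M = B.map fun q => (q : ℂ)} := by
  let f : (N × N → ℂ) →ₗ[ℂ] Matrix N N ℂ :=
    { toFun := fun w => Matrix.of fun i j => w (i, j)
      map_add' := fun _ _ => rfl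
      map_smul' := fun _ _ => rfl }
  have h1 := Pool.Agent.W437.HD.span_rational (U.comap f) (fun σ v hv => by
    have h2 := hU σ _ hv
    exact h2)
  have h2 : (fun p : N × N => A p.1 p.2) ∈ U.comap f := hA
  rw [h1] at h2
  have h3 := Submodule.mem_map_of_mem (f := f) h2
  rw [Submodule.map_span] at h3
  refine Submodule.span_mono ?_ h3
  rintro _ ⟨w, ⟨hw, u, rfl⟩, rfl⟩
  exact ⟨hw, Matrix.of fun i j => u (i, j), rfl⟩

variable {K : Type} [Field K] [Algebra K ℂ] (rat : ∀ r : K, ∃ q : ℚ, (q : K) = r)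

include rat in
theorem fix_alg (σ : ℂ ≃+* ℂ) (r : K) : σ (algebraMap K ℂ r) = algebraMap K ℂ r := by
  obtain ⟨q, rfl⟩ := rat r
  rw [map_ratCast, map_ratCast]

include rat in
theorem map_fix {N : Type} (σ : ℂ ≃+* ℂ) (B : Matrix N N K) :
    (B.map (algebraMap K ℂ)).map σ = B.map (algebraMap K ℂ) := by
  ext i j
  simp only [Matrix.map_apply]
  exact fix_alg rat σ _

theorem map_comp_aut {N : Type} (σ τ : ℂ ≃+* ℂ) (M : Matrix N N ℂ) :
    (M.map σ).map τ = M.map (σ.trans τ) := by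
  ext i j
  simp only [Matrix.map_apply, RingEquiv.trans_apply]

theorem map_refl_aut {N : Type} (M : Matrix N N ℂ) : M.map (RingEquiv.refl ℂ) = M := by
  ext i j
  simp only [Matrix.map_apply, RingEquiv.refl_apply]

theorem dpow_map {n : Type} [Fintype n] [DecidableEq n] (σ : ℂ ≃+* ℂ) (x : Matrix n n ℂ) (m : ℕ) :
    (dpow x m).map σ = dpow (x.map σ) m := by
  ext I J
  rw [Matrix.map_apply]
  simp only [dpow, Matrix.map_apply]
  rw [map_sum]
  refine Finset.sum_congr rfl fun i _ => ?_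
  split_ifs
  · rfl
  · exact map_zero σ

/-- The commutant of the conjugates of a matrix. -/
def cmt {N : Type} [Fintype N] (M : Matrix N N ℂ) : Submodule ℂ (Matrix N N ℂ) where
  carrier := {A | ∀ σ : ℂ ≃+* ℂ, A * M.map σ = M.map σ * A}
  zero_mem' := by intro σ; rw [zero_mul, mul_zero]
  add_mem' := by
    intro A B hA hB σ
    rw [add_mul, mul_add, hA σ, hB σ]
  smul_mem' := by
    intro c A hA σ
    rw [Matrix.smul_mul, Matrix.mul_smul, hA σ]

theorem cmt_map {N : Type} [Fintype N] (M : Matrix N N ℂ) (τ : ℂ ≃+* ℂ) {A : Matrix N N ℂ}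
    (hA : A ∈ cmt M) : A.map τ ∈ cmt M := by
  intro σ
  have h1 := hA (σ.trans τ.symm)
  have h2 : (M.map (σ.trans τ.symm)).map τ = M.map σ := by
    ext a b
    simp
  have h3 := congrArg (fun M : Matrix N N ℂ => M.map τ) h1
  simp only [Matrix.map_mul] at h3
  rw [h2] at h3
  exact h3

include rat in
/-- **Descent for the commutant.** -/
theorem cmt_eq {N : Type} [Fintype N] [DecidableEq N] (M : Matrix N N ℂ)
    (C : Submodule K (Matrix N N K)) (hC : ∀ B, B ∈ C ↔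
      B.map (algebraMap K ℂ) * M = M * B.map (algebraMap K ℂ)) : cmt M = bcM K C := by
  apply le_antisymm
  · intro A hA
    refine Submodule.span_le.2 ?_ (desc_mat (cmt M) (fun σ M' hM' => cmt_map M σ hM') hA)
    rintro _ ⟨hM, B, rfl⟩
    have e : (B.map fun q => (q : ℂ)) = (B.map fun q => (q : K)).map (algebraMap K ℂ) := by
      ext i j
      simp only [Matrix.map_apply, map_ratCast]
    rw [e] at hM ⊢
    refine mem_bcM ((hC _).2 ?_)
    have h1 := hM (RingEquiv.refl ℂ)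
    rwa [map_refl_aut] at h1
  · refine Submodule.span_le.2 ?_
    rintro _ ⟨B, hB, rfl⟩ σ
    have h1 := (hC B).1 hB
    have h3 := congrArg (fun M : Matrix N N ℂ => M.map σ) h1
    simp only [Matrix.map_mul] at h3
    rw [map_fix rat] at h3
    exact h3

end desc

section main

variable {K : Type} [Field K] [Algebra K ℂ] (rat : ∀ r : K, ∃ q : ℚ, (q : K) = r)
  {n : Type} [Fintype n] [DecidableEq n] (hm : Matrix n n ℂ)
  (S T : ∀ m, Submodule K (Matrix (Fin m → n) (Fin m → n) K))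
  (hT : ∀ m B, B ∈ T m ↔ B.map (algebraMap K ℂ) * dpow hm m = dpow hm m * B.map (algebraMap K ℂ))

/-- The conjugates of the cocharacter, in the basis given by `P`. -/
def LP (P : Matrix n n ℂ) : Set (Matrix n n ℂ) := {x | ∃ σ : ℂ ≃+* ℂ, x = P⁻¹ * hm.map σ * P}

include rat hT in
theorem TL_LP {P : Matrix n n ℂ} (hP : IsUnit P.det) (m : ℕ) :
    TL (LP hm P) m = (bcM K (T m)).map (cjm P m) := by
  have h0 : cmt (dpow hm m) = bcM K (T m) := cmt_eq rat _ _ (hT m)
  rw [← h0]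
  ext A
  constructor
  · intro hA
    refine ⟨tpow P m * A * tpow P⁻¹ m, fun σ => ?_, cjm_back hP A⟩
    rw [dpow_map, ← cjm_comm hP, cjm_back hP, cjm_dpow hP]
    exact hA _ ⟨σ, rfl⟩
  · rintro ⟨B, hB, rfl⟩
    rintro x ⟨σ, rfl⟩
    have h1 := hB σ
    rw [dpow_map, ← cjm_comm hP, cjm_dpow hP] at h1
    exact h1

theorem isInt_conj {w : ℕ} (hint : ∀ (μ : ℂ) (u : n → ℂ), u ≠ 0 → hm *ᵥ u = μ • u →
    ∃ z : ℤ, μ = z ∧ |z| ≤ w) {P : Matrix n n ℂ} (hP : IsUnit P.det) {x : Matrix n n ℂ}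
    (hx : x ∈ LP hm P) : IsInt w x := by
  obtain ⟨σ, rfl⟩ := hx
  intro μ u hu h1
  have hPu : P *ᵥ u ≠ 0 := by
    intro h2
    apply hu
    have h3 := congrArg (fun y => P⁻¹ *ᵥ y) h2
    simp only [Matrix.mulVec_mulVec, Matrix.mulVec_zero, Matrix.nonsing_inv_mul _ hP,
      Matrix.one_mulVec] at h3
    exact h3
  have h2 : hm.map σ *ᵥ (P *ᵥ u) = μ • (P *ᵥ u) := by
    have h3 := congrArg (fun y => P *ᵥ y) h1
    simp only [Matrix.mulVec_mulVec, Matrix.mulVec_smul] at h3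
    rw [← Matrix.mul_assoc, ← Matrix.mul_assoc, Matrix.mul_nonsing_inv _ hP, Matrix.one_mul] at h3
    rw [Matrix.mulVec_mulVec]
    exact h3
  set y := P *ᵥ u with hy
  have h3 : hm *ᵥ (fun i => σ.symm (y i)) = σ.symm μ • (fun i => σ.symm (y i)) := by
    funext i
    have h4 := congrFun h2 i
    have h5 := congrArg σ.symm h4
    simp only [Matrix.mulVec, dotProduct, Matrix.map_apply, map_sum, map_mul,
      RingEquiv.symm_apply_apply, Pi.smul_apply, smul_eq_mul] at h5 ⊢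
    exact h5
  have h4 : (fun i => σ.symm (y i)) ≠ 0 := by
    intro h5
    apply hPu
    funext i
    have h6 := congrFun h5 i
    exact (map_eq_zero σ.symm).1 h6
  obtain ⟨z, hz, hzw⟩ := hint _ _ h4 h3
  refine ⟨z, hzw, ?_⟩
  have h5 := congrArg σ hz
  rwa [RingEquiv.apply_symm_apply, map_intCast] at h5

/-- The adjoint and the change of the basis. -/
theorem cjm_star {P Q : Matrix n n ℂ} (hP : IsUnit P.det) (hQ : IsUnit Q.det)
    (hPQ : Pᴴ * Q * P = 1) (m : ℕ) (A : Op n m) :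
    (cjm P m A)ᴴ = cjm P m (tpow Q⁻¹ m * Aᴴ * tpow Q m) := by
  have e1 : Pᴴ = P⁻¹ * Q⁻¹ := by
    have h1 : Pᴴ * (Q * P) = 1 := by rw [← Matrix.mul_assoc]; exact hPQ
    have h2 : (Q * P)⁻¹ = Pᴴ := Matrix.inv_eq_left_inv h1
    rw [← h2, Matrix.mul_inv_rev]
  have e2 : (P⁻¹)ᴴ = Q * P := by
    rw [Matrix.conjTranspose_nonsing_inv, e1, Matrix.mul_inv_rev, Matrix.nonsing_inv_nonsing_inv _ hQ,
      Matrix.nonsing_inv_nonsing_inv _ hP]
  rw [cjm_apply, cjm_apply, Matrix.conjTranspose_mul, Matrix.conjTranspose_mul,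
    ← Pool.Agent.E8helper56.TX.tpow_star, ← Pool.Agent.E8helper56.TX.tpow_star, e1, e2,
    ← Pool.Agent.E8helper56.TX.tpow_mul, ← Pool.Agent.E8helper56.TX.tpow_mul]
  simp only [Matrix.mul_assoc]

include rat hT in
/-- **The theorem on the level of matrices.** -/
theorem hodge_mat (hTRF : S_TRF) [Nonempty n] {w : ℕ} (hw : 1 ≤ w)
    (hint : ∀ (μ : ℂ) (u : n → ℂ), u ≠ 0 → hm *ᵥ u = μ • u → ∃ z : ℤ, μ = z ∧ |z| ≤ w)
    (P0 : PSys0 n) (hP0 : ∀ m, P0.S m = bcM K (S m)) (Q : Matrix n n ℂ) (hQ : Q.PosDef)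
    (hstar : ∀ m, ∀ A ∈ P0.S m, tpow Q⁻¹ m * Aᴴ * tpow Q m ∈ P0.S m)
    (hstarT : ∀ m, ∀ A ∈ bcM K (T m), tpow Q⁻¹ m * Aᴴ * tpow Q m ∈ bcM K (T m))
    (hST : ∀ m, S m ≤ T m) (M0 : ℕ)
    (hM0 : M0 = (Fintype.card n).factorial * w ^ (Fintype.card n - 1)) (m : ℕ)
    (hmm : (Fintype.card n : ℝ) ^ 3 * (M0 : ℝ) ^ 2 * Real.log (2 * Fintype.card n * M0 + 1) ≤ m)
    (hle : T m ≤ S m) (k : ℕ) : bcM K (T k) = bcM K (S k) := by
  obtain ⟨P, Tt, hP, hPQP, hTS⟩ := hTRF n P0 Q hQ hstar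
  have hQu : IsUnit Q.det := by
    rw [isUnit_iff_ne_zero]
    exact hQ.det_pos.ne'
  have hTL := TL_LP rat hm T hT hP
  have h1 := uni4 w hw Tt (LP hm P) (fun x hx => isInt_conj hm hint hP hx)
    (fun x hx m A hA => by
      have h2 : A ∈ TL (LP hm P) m := by
        rw [hTL]
        rw [hTS m, hP0 m] at hA
        exact Submodule.map_mono (bcM_mono (hST m)) hA
      exact h2 x hx)
    (fun m A hA => by
      rw [hTL] at hA ⊢
      obtain ⟨B, hB, rfl⟩ := hA
      rw [cjm_star hP hQu hPQP]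
      exact Submodule.mem_map_of_mem (hstarT m B hB)) M0 hM0 m hmm
    (by
      rw [hTL, hTS m, hP0 m]
      exact Submodule.map_mono (bcM_mono hle)) k
  rw [hTL, hTS k, hP0 k] at h1
  exact Submodule.map_injective_of_injective (cjm_inj hP) h1

end main

end Pool.Agent.E8helper1.TX
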