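import Pool.Agent.E8helper1.TX.Hod5
import Pool.Agent.E8helper56.TX.Hod3
import Pool.Agent.E8helper89.TX.Hop3

/-!
# The index of the absolutely Hodge classes in the Hodge classes
-/

open CategoryTheory AlgebraicGeometry

universe u

namespace Pool.Agent.E8helper1.TX

open Module Matrix
open Pool.Agent.H914 Pool.Agent.H914.VarClass Pool.Agent.H914.VarClass.Obj
  Pool.Agent.H914.WeilCohomology
open Pool.Agent.Y133.Half (Sys PH xp xp_def)
open Pool.Agent.Y133.Half.Sys (mem_Op)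
open Pool.Agent.Y121 (AH.HodgeTheory AH.hodgeSys AH.IsHodge)
open Pool.Agent.Y121.AHS (HL emL smL mulL Types IsType)
open Pool.Agent.Y129 (pw pj)
open scoped ComplexOrder

set_option linter.unusedSectionVars false

variable {k : Type u} [Field k] {𝒱 : VarClass k} {ops : CycleOps 𝒱}

/-- There is no part of type IV: a skew element of the centre of the algebra of the operators given
by the classes of the system on `X × X` is zero. -/
def SkewFree {W : WeilCohomology.{u, 0} ops} (S : Sys W) (X : 𝒱.Obj) : Prop :=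
  ∀ a ∈ S.Op X X, (∀ b ∈ S.Op X X, a * b = b * a) →
    (∀ x y, W.tr X (a x * y) = -W.tr X (x * a y)) → a = 0

variable {T : AH.HodgeTheory ops} {X : 𝒱.Obj}

section data

variable {ι : Type} [Fintype ι] [DecidableEq ι] {v : Basis ι T.W.K (T.W.H X)} {dg : ι → ℕ}
  (E : HD T X v dg) (hv : ∀ i, v i ∈ T.W.gr X (dg i))

theorem HD.mem_iff (a : Module.End T.W.K (T.W.H X)) :
    a ∈ (AH.hodgeSys T).Op X X ↔ m1 v a * E.hm = E.hm * m1 v a := by
  refine ⟨fun h => ?_, mem_Op_of_comm v E.hop⟩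
  have h2 : mc v 0 (show Module.End T.W.K (T.W.H (pw X 0)) from a) * dpow E.hm 1 =
    dpow E.hm 1 * mc v 0 (show Module.End T.W.K (T.W.H (pw X 0)) from a) := (E.hop 0 a).1 h
  rw [mc_zero', dpow_one_eq, ← tpow_mul, ← tpow_mul] at h2
  ext i j
  have h3 := congrFun (congrFun h2 fun _ => i) fun _ => j
  rw [tpow, tpow, Fin.prod_univ_one, Fin.prod_univ_one] at h3
  exact h3

theorem m1_toLin (z : Matrix ι ι T.W.K) :
    m1 v (Matrix.toLin v v z) = z.map (algebraMap T.W.K ℂ) := by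
  rw [m1, LinearMap.toMatrix_toLin]

/-- No skew central elements. -/
theorem HD.noSkew (hIV : SkewFree (AH.hodgeSys T) X) (z : Matrix ι ι T.W.K)
    (hz : z.map (algebraMap T.W.K ℂ) * E.hm = E.hm * z.map (algebraMap T.W.K ℂ))
    (hc : ∀ a : Matrix ι ι T.W.K,
      a.map (algebraMap T.W.K ℂ) * E.hm = E.hm * a.map (algebraMap T.W.K ℂ) → z * a = a * z)
    (hs : zᵀ * Bm v = -(Bm v * z)) : z = 0 := by
  obtain ⟨a, rfl⟩ : ∃ a, LinearMap.toMatrix v v a = z := ⟨Matrix.toLin v v z,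
    LinearMap.toMatrix_toLin v v z⟩
  have h1 : ∀ b ∈ (AH.hodgeSys T).Op X X, a * b = b * a := by
    intro b hb
    have h2 := hc (LinearMap.toMatrix v v b) ((E.mem_iff b).1 hb)
    rw [← LinearMap.toMatrix_mul, ← LinearMap.toMatrix_mul] at h2
    exact (LinearMap.toMatrix v v).injective h2
  have h3 : ∀ i j, T.W.tr X (a (v i) * v j) = -T.W.tr X (v i * a (v j)) := by
    intro i j
    have e2 := form_mul v a 1 i j
    have e3 := form_mul v 1 a i j
    rw [LinearMap.toMatrix_one, Matrix.mul_one, hs] at e2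
    rw [LinearMap.toMatrix_one, Matrix.transpose_one, Matrix.one_mul] at e3
    rw [Matrix.neg_apply, e3] at e2
    simp only [Module.End.one_apply] at e2
    rw [← e2]
  have h4 : a = 0 := by
    refine hIV a ((E.mem_iff a).2 hz) h1 fun x y => ?_
    have e2 : ∀ x y, T.W.tr X (a x * y) + T.W.tr X (x * a y) = 0 := by
      intro x y
      rw [← v.sum_repr x, ← v.sum_repr y]
      simp only [map_sum, map_smul, Finset.sum_mul, Finset.mul_sum, smul_mul_smul_comm]
      rw [← Finset.sum_add_distrib]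
      refine Finset.sum_eq_zero fun i _ => ?_
      rw [← Finset.sum_add_distrib]
      refine Finset.sum_eq_zero fun j _ => ?_
      rw [← smul_add, h3, neg_add_cancel, smul_zero]
    exact eq_neg_of_add_eq_zero_left (e2 x y)
  rw [h4, map_zero]

end data

theorem basis_nonempty {W : WeilCohomology.{u, 0} ops} [Nontrivial (W.H X)] {ι : Type}
    (v : Basis ι W.K (W.H X)) [Fintype ι] : Nonempty ι := by
  by_contra hne
  rw [not_nonempty_iff] at hne
  have h3 : Subsingleton (W.H X) := by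
    have h4 := (v.repr.toEquiv.trans Finsupp.equivFunOnFinite).injective
    exact h4.subsingleton
  exact not_subsingleton (W.H X) h3

/-- **The index from one power.** -/
theorem hodge_index {H : HodgeDec T.W} (hC : Compat T H) {D : X.Cycles}
    (hD : Polarizes H X D) [Nontrivial (T.W.H X)] (S : Sys T.W)
    (hS : ∀ Z, S.C Z ≤ (AH.hodgeSys T).C Z) (M0 : ℕ)
    (hM0 : M0 = (finrank T.W.K (T.W.H X)).factorial *
      (max 1 X.dim) ^ (finrank T.W.K (T.W.H X) - 1)) (m : ℕ) (hm : M0 ≤ m + 1)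
    (hle : (AH.hodgeSys T).C (pw X (m + m + 1)) ≤ S.C (pw X (m + m + 1))) (n : ℕ) :
    finrank T.W.K ((AH.hodgeSys T).C (pw X (n + n + 1))) ≤
      (2 * finrank T.W.K (T.W.H X) * M0) ^ (2 * finrank T.W.K (T.W.H X) ^ 2) *
        finrank T.W.K (S.C (pw X (n + n + 1))) := by
  obtain ⟨ι, _, _, v, hv⟩ := Pool.Agent.Y129.exists_homogeneous_basis T.W X
  choose dg hv using hv
  obtain ⟨E⟩ := exists_HD Pool.Agent.E8helper89.TX.t_HOP2 hC hD v dg hv
  have hb : Fintype.card ι = finrank T.W.K (T.W.H X) := (Module.finrank_eq_card_basis v).symm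
  rw [← hb] at hM0 ⊢
  have hne : Nonempty ι := basis_nonempty v
  have hle1 : (AH.hodgeSys T).C (X.prod X) ≤ S.C (X.prod X) :=
    sys_down (X := X) S (AH.hodgeSys T) (m := 1) (by omega) hle
  have hOp : (AH.hodgeSys T).Op X X ≤ S.Op X X := Submodule.map_mono hle1
  have hp := hOp (E.par_mem hv)
  have hs := hOp E.s_mem
  have hM1 : 1 ≤ M0 := by
    rw [hM0]
    exact Nat.succ_le_of_lt (Nat.mul_pos (Nat.factorial_pos _)
      (Nat.pow_pos (lt_of_lt_of_le Nat.one_pos (le_max_left _ _))))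
  obtain ⟨M1, rfl⟩ : ∃ M1, M0 = M1 + 1 := ⟨M0 - 1, by omega⟩
  have key := Pool.Agent.E8helper56.TX.hodge_mat3 T.rat E.hm (SK v S) (SK v (AH.hodgeSys T)) E.mem_SK
    Pool.Agent.E8helper26.TX.t_TRF (w := max 1 X.dim) (le_max_left _ _)
    (fun μ u hu h => by
      obtain ⟨z, hz1, hz2⟩ := E.int μ u hu h
      refine ⟨z, hz1, hz2.trans ?_⟩
      exact_mod_cast le_max_right _ _)
    (psys0 v S hv hp) (SB_eq_bcM v S) (Qm v E.s (jmat v E.TJ)) E.posDef
    (E.star hv S hS hp hs)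
    (fun m A hA => by
      rw [← SB_eq_bcM] at hA ⊢
      exact E.star hv (AH.hodgeSys T) (fun Z => le_rfl) (E.par_mem hv) E.s_mem m A hA)
    (M1 + 1) hM0 ((SK_le_iff v S (AH.hodgeSys T) M1).2
      (sys_down S (AH.hodgeSys T) (by omega) hle)) (n + 1)
  rw [finrank_SK', finrank_SK'] at key
  exact key

/-- **No part of type IV.** -/
theorem hodge_noIV {H : HodgeDec T.W} (hC : Compat T H) {D : X.Cycles}
    (hD : Polarizes H X D) [Nontrivial (T.W.H X)] (S : Sys T.W)
    (hS : ∀ Z, S.C Z ≤ (AH.hodgeSys T).C Z) (hIV : SkewFree (AH.hodgeSys T) X)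
    (hle : (AH.hodgeSys T).C (pw X 3) ≤ S.C (pw X 3)) :
    (∀ n, finrank T.W.K ((AH.hodgeSys T).C (pw X (n + n + 1))) ≤
      (2 * finrank T.W.K (T.W.H X) + 1) ^ (2 * finrank T.W.K (T.W.H X) ^ 2) *
        finrank T.W.K (S.C (pw X (n + n + 1)))) ∧
    ∀ m : ℕ, 2 * (finrank T.W.K (T.W.H X) : ℝ) ^ 3 * Real.log (3 * finrank T.W.K (T.W.H X)) ≤
      (m + 1 : ℕ) → (AH.hodgeSys T).C (pw X (m + m + 1)) ≤ S.C (pw X (m + m + 1)) →
      ∀ n, (AH.hodgeSys T).C (pw X n) ≤ S.C (pw X n) := by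
  obtain ⟨ι, _, _, v, hv⟩ := Pool.Agent.Y129.exists_homogeneous_basis T.W X
  choose dg hv using hv
  obtain ⟨E⟩ := exists_HD Pool.Agent.E8helper89.TX.t_HOP2 hC hD v dg hv
  have hb : Fintype.card ι = finrank T.W.K (T.W.H X) := (Module.finrank_eq_card_basis v).symm
  rw [← hb]
  have hne : Nonempty ι := basis_nonempty v
  have hle1 : (AH.hodgeSys T).C (X.prod X) ≤ S.C (X.prod X) :=
    sys_down (X := X) S (AH.hodgeSys T) (m := 1) (by omega) hle
  have hOp : (AH.hodgeSys T).Op X X ≤ S.Op X X := Submodule.map_mono hle1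
  have hp := hOp (E.par_mem hv)
  have hs := hOp E.s_mem
  have key := Pool.Agent.E8helper56.TX.hodge_mat2 T.rat E.hm (SK v S) (SK v (AH.hodgeSys T)) E.mem_SK
    (Bm v) E.skew (E.noSkew hIV)
    Pool.Agent.E8helper26.TX.t_TRF
    (psys0 v S hv hp) (SB_eq_bcM v S) (Qm v E.s (jmat v E.TJ)) E.posDef
    (E.star hv S hS hp hs)
    (fun m A hA => by
      rw [← SB_eq_bcM] at hA ⊢
      exact E.star hv (AH.hodgeSys T) (fun Z => le_rfl) (E.par_mem hv) E.s_mem m A hA)
    (SK_mono v hS) (Bm_isUnit v) ((SK_le_iff v S (AH.hodgeSys T) 1).2 hle)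
  obtain ⟨k1, k2⟩ := key
  refine ⟨fun n => ?_, fun m hm h n => ?_⟩
  · have h3 := k1 (n + 1)
    rw [finrank_SK', finrank_SK'] at h3
    exact h3
  · have h3 := k2 (m + 1) hm ((SK_le_iff v S (AH.hodgeSys T) m).2 h) (n + 1)
    exact sys_down S (AH.hodgeSys T) (by omega : n ≤ n + n + 1) ((SK_le_iff v S _ n).1 h3.le)

end Pool.Agent.E8helper1.TX
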