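import Pool.Agent.E8helper1.TX.Wd
import Pool.Agent.E8helper1.TX.Asm

/-!
# The system of spaces of operators given by a system of classes
-/

open CategoryTheory AlgebraicGeometry

universe u v

namespace Pool.Agent.E8helper1.TX

open Module
open Pool.Agent.H914 Pool.Agent.H914.VarClass Pool.Agent.H914.VarClass.Obj
  Pool.Agent.H914.WeilCohomology
open Pool.Agent.Y133.Half (Sys PH xp xp_def Ev Adj)
open Pool.Agent.Y133.Half.Sys (mem_Op)
open Pool.Agent.Y129 (pw pj word exists_word_basis permRep permHom word_succ liftN liftN_pj)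

set_option linter.unusedSectionVars false

variable {k : Type u} [Field k] {𝒱 : VarClass k} {ops : CycleOps 𝒱}
  {W : WeilCohomology.{u, v} ops} {X Y Z P Q : 𝒱.Obj}

section signs

variable {ι : Type} [Fintype ι] [DecidableEq ι] (v : Basis ι W.K (W.H X)) {dg : ι → ℕ}
  (hv : ∀ i, v i ∈ W.gr X (dg i))

/-- The parity operator of the power. -/
noncomputable def PN (W : WeilCohomology.{u, v} ops) (X : 𝒱.Obj) :
    ∀ n : ℕ, Module.End W.K (W.H (pw X n))
  | 0 => H914.par (W.isInternal X)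
  | n + 1 => extN n (H914.par (W.isInternal X)) (PN W X n)

theorem PN_mem (S : Sys W) (hp : H914.par (W.isInternal X) ∈ S.Op X X) :
    ∀ n, PN W X n ∈ S.Op (pw X n) (pw X n)
  | 0 => hp
  | n + 1 => Sys.Op.ext hp (PN_mem S hp n)

theorem wb_zero (x : Fin 1 → ι) : wb v 0 x = v (x 0) := by
  rw [wb_apply]
  have h1 : word v 0 x = (List.ofFn fun i : Fin 1 => W.map (𝟙 X) (v (x i))).prod := rfl
  rw [h1]
  have h3 : (List.ofFn fun i : Fin 1 => W.map (𝟙 X) (v (x i))) = [v (x 0)] := by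
    simp only [List.ofFn_succ, List.ofFn_zero]
    rw [W.map_id]
  rw [h3]
  exact List.prod_singleton (α := W.H X)

/-- External products act diagonally on words. -/
theorem extN_diag (n : ℕ) (a : Module.End W.K (W.H X)) (b : Module.End W.K (W.H (pw X n)))
    (x : Fin (n + 2) → ι) {r s : W.K} (ha : a (v (x 0)) = r • v (x 0))
    (hb : b (wb v n fun i => x i.succ) = s • wb v n fun i => x i.succ) :
    extN n a b (wb v (n + 1) x) = (r * s) • wb v (n + 1) x := by
  rw [extN_wb, ha, hb, Pool.Agent.Y133.Half.xp_smul_left,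
    Pool.Agent.Y133.Half.xp_smul_right, smul_smul, wb_succ]
  rfl

include hv in
theorem PN_wb (n : ℕ) (x : Fin (n + 1) → ι) :
    PN W X n (wb v n x) = (-1 : W.K) ^ (∑ i, dg (x i)) • wb v n x := by
  induction n with
  | zero =>
    have h2 : ∑ i : Fin (0 + 1), dg (x i) = dg (x 0) := Fin.sum_univ_one _
    rw [h2]
    change H914.par (W.isInternal X) (wb v 0 x) = (-1 : W.K) ^ dg (x 0) • wb v 0 x
    have h1 : wb v 0 x = v (x 0) := wb_zero v x
    rw [h1]
    exact PH.par (PH.of (hv _))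
  | succ n ih =>
    change extN n (H914.par (W.isInternal X)) (PN W X n) (wb v (n + 1) x) = _
    rw [extN_diag v n _ _ x (PH.par (PH.of (hv _))) (ih _), ← pow_add,
      Fin.sum_univ_succ (fun i => dg (x i))]

/-- The total parity operator of the last factors. -/
noncomputable def E2 (W : WeilCohomology.{u, v} ops) (X : 𝒱.Obj) (n : ℕ) :
    Module.End W.K (W.H (pw X (n + 1))) := extN n 1 (PN W X n)

include hv in
theorem E2_wb (n : ℕ) (x : Fin (n + 2) → ι) :
    E2 W X n (wb v (n + 1) x) = (-1 : W.K) ^ (∑ i : Fin (n + 1), dg (x i.succ)) •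
      wb v (n + 1) x := by
  rw [E2, extN_diag v n _ _ x (r := 1) (by rw [Module.End.one_apply, one_smul]) (PN_wb v hv n _),
    one_mul]

/-- The sign operator of one factor and the others. -/
noncomputable def FN (W : WeilCohomology.{u, v} ops) (X : 𝒱.Obj) (n : ℕ) :
    Module.End W.K (W.H (pw X (n + 1))) :=
  (2⁻¹ : W.K) • (1 + E0 W X n + E2 W X n - E0 W X n * E2 W X n)

include hv in
theorem FN_wb (n : ℕ) (x : Fin (n + 2) → ι) :
    FN W X n (wb v (n + 1) x) = (-1 : W.K) ^ (dg (x 0) * ∑ i : Fin (n + 1), dg (x i.succ)) •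
      wb v (n + 1) x := by
  rw [FN, LinearMap.smul_apply, LinearMap.sub_apply, LinearMap.add_apply, LinearMap.add_apply,
    Module.End.mul_apply, E2_wb v hv, map_smul, E0_wb v hv, Module.End.one_apply]
  obtain ⟨a, ha⟩ : ∃ a, a = dg (x 0) := ⟨_, rfl⟩
  obtain ⟨b, hb⟩ : ∃ b, b = ∑ i : Fin (n + 1), dg (x i.succ) := ⟨_, rfl⟩
  rw [← ha, ← hb]
  have h : (2⁻¹ : W.K) • (wb v (n + 1) x + (-1 : W.K) ^ a • wb v (n + 1) x +
      (-1 : W.K) ^ b • wb v (n + 1) x - (-1 : W.K) ^ b • (-1 : W.K) ^ a • wb v (n + 1) x) =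
      ((2⁻¹ : W.K) * (1 + (-1) ^ a + (-1) ^ b - (-1) ^ b * (-1) ^ a)) • wb v (n + 1) x := by
    module
  rw [h]
  congr 1
  rcases Nat.even_or_odd a with h1 | h1 <;> rcases Nat.even_or_odd b with h2 | h2
  · rw [h1.neg_one_pow, h2.neg_one_pow, (h1.mul_right b).neg_one_pow]
    norm_num
  · rw [h1.neg_one_pow, h2.neg_one_pow, (h1.mul_right b).neg_one_pow]
    norm_num
  · rw [h1.neg_one_pow, h2.neg_one_pow, (h2.mul_left a).neg_one_pow]
    norm_num
  · rw [h1.neg_one_pow, h2.neg_one_pow, (h1.mul h2).neg_one_pow]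
    norm_num

theorem FN_mem (S : Sys W) (hp : H914.par (W.isInternal X) ∈ S.Op X X) (n : ℕ) :
    FN W X n ∈ S.Op (pw X (n + 1)) (pw X (n + 1)) := by
  have h1 : (1 : Module.End W.K (W.H (pw X (n + 1)))) ∈ S.Op (pw X (n + 1)) (pw X (n + 1)) :=
    Sys.Op.id
  have h2 : E0 W X n ∈ S.Op (pw X (n + 1)) (pw X (n + 1)) := Sys.Op.ext hp Sys.Op.id
  have h3 : E2 W X n ∈ S.Op (pw X (n + 1)) (pw X (n + 1)) := Sys.Op.ext Sys.Op.id (PN_mem S hp n)
  exact Submodule.smul_mem _ _ (sub_mem (add_mem (add_mem h1 h2) h3) (Sys.Op.comp h2 h3))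

/-- The exponent of the sign. -/
def sgE (dg : ι → ℕ) : ∀ n : ℕ, (Fin (n + 1) → ι) → ℕ
  | 0, _ => 0
  | n + 1, x => dg (x 0) * (∑ i : Fin (n + 1), dg (x i.succ)) + sgE dg n fun i => x i.succ

/-- The sign operator of all factors. -/
noncomputable def DN (W : WeilCohomology.{u, v} ops) (X : 𝒱.Obj) :
    ∀ n : ℕ, Module.End W.K (W.H (pw X n))
  | 0 => 1
  | n + 1 => FN W X n * extN n 1 (DN W X n)

theorem DN_mem (S : Sys W) (hp : H914.par (W.isInternal X) ∈ S.Op X X) :
    ∀ n, DN W X n ∈ S.Op (pw X n) (pw X n)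
  | 0 => Sys.Op.id
  | n + 1 => Sys.Op.comp (FN_mem S hp n) (Sys.Op.ext Sys.Op.id (DN_mem S hp n))

include hv in
theorem DN_wb (n : ℕ) (x : Fin (n + 1) → ι) :
    DN W X n (wb v n x) = (-1 : W.K) ^ sgE dg n x • wb v n x := by
  induction n with
  | zero =>
    change (1 : Module.End W.K (W.H (pw X 0))) (wb v 0 x) = _
    rw [Module.End.one_apply, sgE, pow_zero, one_smul]
  | succ n ih =>
    change FN W X n (extN n 1 (DN W X n) (wb v (n + 1) x)) = _
    rw [extN_diag v n _ _ x (r := 1) (by rw [Module.End.one_apply, one_smul]) (ih _),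
      one_mul, map_smul, FN_wb v hv, smul_smul, sgE, pow_add, mul_comm]

end signs

end Pool.Agent.E8helper1.TX
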