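import Pool.Agent.E8helper1.TX.Dict

/-!
# The transposition of the first two factors; the system of spaces of operators
-/

open CategoryTheory AlgebraicGeometry

universe u v

namespace Pool.Agent.E8helper1.TX

open Module
open Pool.Agent.H914 Pool.Agent.H914.VarClass Pool.Agent.H914.VarClass.Obj
  Pool.Agent.H914.WeilCohomology
open Pool.Agent.Y133.Half (Sys PH xp xp_def Ev Adj)
open Pool.Agent.Y133.Half.Sys (mem_Op)
open Pool.Agent.Y129 (pw pj word exists_word_basis permRep permHom word_succ liftN liftN_pj)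

set_option linter.unusedSectionVars false

variable {k : Type u} [Field k] {𝒱 : VarClass k} {ops : CycleOps 𝒱}
  {W : WeilCohomology.{u, v} ops} {X Y Z P Q : 𝒱.Obj}

section swap

variable {ι : Type} [Fintype ι] [DecidableEq ι] (v : Basis ι W.K (W.H X)) {dg : ι → ℕ}
  (hv : ∀ i, v i ∈ W.gr X (dg i))

/-- The transposition of the first two factors. -/
abbrev s01 (n : ℕ) : Equiv.Perm (Fin (n + 2)) := Equiv.swap 0 1

theorem s01_zero (n : ℕ) : s01 n 0 = 1 := Equiv.swap_apply_left _ _

theorem s01_one (n : ℕ) : s01 n 1 = 0 := Equiv.swap_apply_right _ _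

theorem s01_succ (n : ℕ) (i : Fin n) : s01 n i.succ.succ = i.succ.succ := by
  refine Equiv.swap_apply_of_ne_of_ne ?_ ?_
  · exact Fin.succ_ne_zero _
  · intro h
    rw [← Fin.succ_zero_eq_one] at h
    exact Fin.succ_ne_zero _ (Fin.succ_injective _ h)

include hv in
theorem permRep_swap (n : ℕ) (x : Fin (n + 2) → ι) :
    permRep W X (n + 1) (s01 n) (wb v (n + 1) x) =
      (-1 : W.K) ^ (dg (x 0) * dg (x 1)) • wb v (n + 1) (x ∘ s01 n) := by
  rw [wb_apply, wb_apply]
  have h1 : permRep W X (n + 1) (s01 n) (word v (n + 1) x) =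
      (List.ofFn (fun i => W.map (pj X (n + 1) (s01 n i)) (v (x i)))).prod := by
    change W.map (permHom X (n + 1) (s01 n)) (word v (n + 1) x) = _
    rw [word, map_list_prod, List.map_ofFn]
    congr 2
    funext i
    simp only [Function.comp_apply]
    rw [← W.map_comp, permHom, liftN_pj]
  rw [h1, word]
  simp only [List.ofFn_succ, List.prod_cons, Function.comp_apply]
  have e0 : (Fin.succ 0 : Fin (n + 2)) = 1 := rfl
  rw [e0, s01_zero, s01_one]
  have h2 : (fun i : Fin n => W.map (pj X (n + 1) (s01 n i.succ.succ)) (v (x i.succ.succ))) =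
      fun i : Fin n => W.map (pj X (n + 1) i.succ.succ) (v (x (s01 n i.succ.succ))) := by
    funext i
    rw [s01_succ]
  rw [h2, ← mul_assoc, ← mul_assoc, W.comm (W.map_mem _ (hv _)) (W.map_mem _ (hv _)),
    smul_mul_assoc]

/-- The parity operator of the second factor. -/
noncomputable def E1 (W : WeilCohomology.{u, v} ops) (X : 𝒱.Obj) (n : ℕ) :
    Module.End W.K (W.H (pw X (n + 1))) :=
  permRep W X (n + 1) (s01 n) * E0 W X n * permRep W X (n + 1) (s01 n)

theorem comp_s01 (n : ℕ) (x : Fin (n + 2) → ι) : (x ∘ s01 n) ∘ s01 n = x := by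
  funext i
  simp only [Function.comp_apply]
  rw [Equiv.swap_apply_self]

include hv in
theorem E1_wb (n : ℕ) (x : Fin (n + 2) → ι) :
    E1 W X n (wb v (n + 1) x) = (-1 : W.K) ^ dg (x 1) • wb v (n + 1) x := by
  have h0 : (x ∘ s01 n) 0 = x 1 := by rw [Function.comp_apply, s01_zero]
  have h1 : (x ∘ s01 n) 1 = x 0 := by rw [Function.comp_apply, s01_one]
  rw [E1, Module.End.mul_apply, Module.End.mul_apply, permRep_swap v hv, map_smul, E0_wb v hv,
    map_smul, map_smul, permRep_swap v hv, comp_s01, h0, h1, smul_smul, smul_smul]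
  congr 1
  rw [mul_comm (dg (x 1)) (dg (x 0)), mul_comm ((-1 : W.K) ^ (dg (x 0) * dg (x 1)))
    ((-1) ^ dg (x 1)), mul_assoc, ← pow_add, ← two_mul, pow_mul, neg_one_sq, one_pow, mul_one]

/-- The sign operator of the first two factors. -/
noncomputable def D01 (W : WeilCohomology.{u, v} ops) (X : 𝒱.Obj) (n : ℕ) :
    Module.End W.K (W.H (pw X (n + 1))) :=
  (2⁻¹ : W.K) • (1 + E0 W X n + E1 W X n - E0 W X n * E1 W X n)

include hv in
theorem D01_wb (n : ℕ) (x : Fin (n + 2) → ι) :
    D01 W X n (wb v (n + 1) x) = (-1 : W.K) ^ (dg (x 0) * dg (x 1)) • wb v (n + 1) x := by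
  rw [D01, LinearMap.smul_apply, LinearMap.sub_apply, LinearMap.add_apply, LinearMap.add_apply,
    Module.End.mul_apply, E1_wb v hv, map_smul, E0_wb v hv, Module.End.one_apply]
  obtain ⟨a, ha⟩ : ∃ a, a = dg (x 0) := ⟨_, rfl⟩
  obtain ⟨b, hb⟩ : ∃ b, b = dg (x 1) := ⟨_, rfl⟩
  rw [← ha, ← hb]
  have h : (2⁻¹ : W.K) • (wb v (n + 1) x + (-1 : W.K) ^ a • wb v (n + 1) x +
      (-1 : W.K) ^ b • wb v (n + 1) x - (-1 : W.K) ^ b • (-1 : W.K) ^ a • wb v (n + 1) x) =
      ((2⁻¹ : W.K) * (1 + (-1) ^ a + (-1) ^ b - (-1) ^ b * (-1) ^ a)) • wb v (n + 1) x := by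
    module
  rw [h]
  congr 1
  rcases Nat.even_or_odd a with h1 | h1 <;> rcases Nat.even_or_odd b with h2 | h2
  · rw [h1.neg_one_pow, h2.neg_one_pow, (h1.mul_right b).neg_one_pow]
    norm_num
  · rw [h1.neg_one_pow, h2.neg_one_pow, (h1.mul_right b).neg_one_pow]
    norm_num
  · rw [h1.neg_one_pow, h2.neg_one_pow, (h2.mul_left a).neg_one_pow]
    norm_num
  · rw [h1.neg_one_pow, h2.neg_one_pow, (h1.mul h2).neg_one_pow]
    norm_num

/-- The transposition of the first two factors, without signs. -/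
noncomputable def SW01 (W : WeilCohomology.{u, v} ops) (X : 𝒱.Obj) (n : ℕ) :
    Module.End W.K (W.H (pw X (n + 1))) := permRep W X (n + 1) (s01 n) * D01 W X n

include hv in
theorem SW01_wb (n : ℕ) (x : Fin (n + 2) → ι) :
    SW01 W X n (wb v (n + 1) x) = wb v (n + 1) (x ∘ s01 n) := by
  rw [SW01, Module.End.mul_apply, D01_wb v hv, map_smul, permRep_swap v hv, smul_smul,
    ← pow_add, ← two_mul, pow_mul, neg_one_sq, one_pow, one_smul]

theorem permRep_mem (S : Sys W) (n : ℕ) (σ : Equiv.Perm (Fin (n + 1))) :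
    permRep W X n σ ∈ S.Op (pw X n) (pw X n) := map_mem_Op S (permHom X n σ)

theorem SW01_mem (S : Sys W) (hp : H914.par (W.isInternal X) ∈ S.Op X X) (n : ℕ) :
    SW01 W X n ∈ S.Op (pw X (n + 1)) (pw X (n + 1)) := by
  have h1 : (1 : Module.End W.K (W.H (pw X (n + 1)))) ∈ S.Op (pw X (n + 1)) (pw X (n + 1)) :=
    Sys.Op.id
  have h2 : E0 W X n ∈ S.Op (pw X (n + 1)) (pw X (n + 1)) := Sys.Op.ext hp Sys.Op.id
  have h3 := permRep_mem (X := X) S (n + 1) (s01 n)
  have h4 : E1 W X n ∈ S.Op (pw X (n + 1)) (pw X (n + 1)) :=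
    Sys.Op.comp (Sys.Op.comp h3 h2) h3
  exact Sys.Op.comp h3 (Submodule.smul_mem _ _ (sub_mem (add_mem (add_mem h1 h2) h4)
    (Sys.Op.comp h2 h4)))

include hv in
theorem mc_SW01 [Algebra W.K ℂ] (n : ℕ) : mc v (n + 1) (SW01 W X n) = perm (s01 n) := by
  ext I J
  rw [mc_apply, SW01_wb v hv, Basis.repr_self, Finsupp.single_apply, perm]
  by_cases h : J ∘ s01 n = I
  · rw [if_pos h, if_pos h.symm, map_one]
  · rw [if_neg h, if_neg (Ne.symm h), map_zero]

end swap

section system

variable [Algebra W.K ℂ] {ι : Type} [Fintype ι] [DecidableEq ι] (v : Basis ι W.K (W.H X))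
  {dg : ι → ℕ} (hv : ∀ i, v i ∈ W.gr X (dg i))

/-- The complex spans of the matrices of the operators of a system. -/
noncomputable def SB (S : Sys W) : ∀ m, Submodule ℂ (Op ι m)
  | 0 => ⊤
  | n + 1 => Submodule.span ℂ (mc v n '' {a | a ∈ S.Op (pw X n) (pw X n)})

theorem mem_SB (S : Sys W) {n : ℕ} {a : Module.End W.K (W.H (pw X n))}
    (ha : a ∈ S.Op (pw X n) (pw X n)) : mc v n a ∈ SB v S (n + 1) :=
  Submodule.subset_span ⟨a, ha, rfl⟩

theorem SB_induction (S : Sys W) {n : ℕ} {p : Op ι (n + 1) → Prop} (h0 : p 0)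
    (hadd : ∀ A B, p A → p B → p (A + B)) (hsmul : ∀ (c : ℂ) A, p A → p (c • A))
    (hmc : ∀ a ∈ S.Op (pw X n) (pw X n), p (mc v n a)) {A : Op ι (n + 1)}
    (hA : A ∈ SB v S (n + 1)) : p A := by
  refine Submodule.span_induction (p := fun A _ => p A) ?_ h0 (fun A B _ _ => hadd A B)
    (fun c A _ => hsmul c A) hA
  rintro _ ⟨a, ha, rfl⟩
  exact hmc a ha

theorem oneT_add {n : Type} [Fintype n] [DecidableEq n] {m : ℕ} (A B : Op n m) :
    oneT (A + B) = oneT A + oneT B := by
  ext I J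
  simp only [oneT, Matrix.add_apply]
  split_ifs
  · rfl
  · rw [add_zero]

theorem oneT_smul {n : Type} [Fintype n] [DecidableEq n] {m : ℕ} (c : ℂ) (A : Op n m) :
    oneT (c • A) = c • oneT A := by
  ext I J
  simp only [oneT, Matrix.smul_apply]
  split_ifs
  · rfl
  · rw [smul_zero]

theorem oneT_zero {n : Type} [Fintype n] [DecidableEq n] {m : ℕ} :
    oneT (0 : Op n m) = 0 := by
  have h := oneT_smul (0 : ℂ) (0 : Op n m)
  rwa [zero_smul, zero_smul] at h

theorem trL_add {n : Type} [Fintype n] [DecidableEq n] {m : ℕ} (A B : Op n (m + 1)) :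
    trL (A + B) = trL A + trL B := by
  ext I J
  simp only [trL, Matrix.add_apply, Finset.sum_add_distrib]

theorem trL_smul {n : Type} [Fintype n] [DecidableEq n] {m : ℕ} (c : ℂ) (A : Op n (m + 1)) :
    trL (c • A) = c • trL A := by
  ext I J
  simp only [trL, Matrix.smul_apply, Finset.smul_sum]

theorem trL_zero {n : Type} [Fintype n] [DecidableEq n] {m : ℕ} :
    trL (0 : Op n (m + 1)) = 0 := by
  have h := trL_smul (0 : ℂ) (0 : Op n (m + 1))
  rwa [zero_smul, zero_smul] at h

theorem SB_one (S : Sys W) (m : ℕ) : (1 : Op ι m) ∈ SB v S m := by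
  cases m with
  | zero => exact Submodule.mem_top
  | succ n =>
    rw [← mc_one v n]
    exact mem_SB v S Sys.Op.id

theorem SB_mul (S : Sys W) {m : ℕ} {A B : Op ι m} (hA : A ∈ SB v S m) (hB : B ∈ SB v S m) :
    A * B ∈ SB v S m := by
  cases m with
  | zero => exact Submodule.mem_top
  | succ n =>
    refine SB_induction v S (p := fun A => A * B ∈ SB v S (n + 1)) ?_ ?_ ?_ ?_ hA
    · rw [zero_mul]; exact zero_mem _
    · intro A A' h h'; rw [add_mul]; exact add_mem h h'
    · intro c A h; rw [Matrix.smul_mul]; exact Submodule.smul_mem _ _ h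
    · intro a ha
      refine SB_induction v S (p := fun B => mc v n a * B ∈ SB v S (n + 1)) ?_ ?_ ?_ ?_ hB
      · rw [mul_zero]; exact zero_mem _
      · intro A A' h h'; rw [mul_add]; exact add_mem h h'
      · intro c A h; rw [Matrix.mul_smul]; exact Submodule.smul_mem _ _ h
      · intro b hb
        rw [← mc_mul]
        exact mem_SB v S (Sys.Op.comp ha hb)

theorem oneT_one {n : Type} [Fintype n] [DecidableEq n] {m : ℕ} : oneT (1 : Op n m) = 1 := by
  ext I J
  rw [oneT, Matrix.one_apply, Matrix.one_apply]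
  by_cases h0 : I 0 = J 0
  · rw [if_pos h0]
    by_cases h1 : (fun i : Fin m => I i.succ) = fun i => J i.succ
    · have h2 : I = J := by
        funext i
        refine Fin.cases h0 (fun j => ?_) i
        exact congrFun h1 j
      rw [if_pos h1, if_pos h2]
    · have h2 : I ≠ J := fun h => h1 (by rw [h])
      rw [if_neg h1, if_neg h2]
  · have h2 : I ≠ J := fun h => h0 (by rw [h])
    rw [if_neg h0, if_neg h2]

theorem SB_oneT (S : Sys W) {m : ℕ} {B : Op ι m} (hB : B ∈ SB v S m) :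
    oneT B ∈ SB v S (m + 1) := by
  cases m with
  | zero =>
    have h1 : B = B (fun i => i.elim0) (fun i => i.elim0) • (1 : Op ι 0) := by
      ext I J
      have hI : I = fun i => i.elim0 := funext fun i => i.elim0
      have hJ : J = fun i => i.elim0 := funext fun i => i.elim0
      rw [hI, hJ, Matrix.smul_apply, Matrix.one_apply_eq, smul_eq_mul, mul_one]
    rw [h1, oneT_smul, oneT_one]
    exact Submodule.smul_mem _ _ (SB_one v S 1)
  | succ n =>
    refine SB_induction v S (p := fun B => oneT B ∈ SB v S (n + 2)) ?_ ?_ ?_ ?_ hB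
    · rw [oneT_zero]; exact zero_mem _
    · intro A A' h h'; rw [oneT_add]; exact add_mem h h'
    · intro c A h; rw [oneT_smul]; exact Submodule.smul_mem _ _ h
    · intro a ha
      rw [← mc_one_ext]
      exact mem_SB v S (Sys.Op.ext Sys.Op.id ha)

include hv in
theorem SB_sw (S : Sys W) (hp : H914.par (W.isInternal X) ∈ S.Op X X) (m : ℕ) :
    perm (Equiv.swap (0 : Fin (m + 2)) 1) ∈ SB v S (m + 2) := by
  rw [← mc_SW01 v hv]
  exact mem_SB v S (SW01_mem S hp m)

include hv in
theorem SB_trL (S : Sys W) (hp : H914.par (W.isInternal X) ∈ S.Op X X) {m : ℕ}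
    {A : Op ι (m + 1)} (hA : A ∈ SB v S (m + 1)) : trL A ∈ SB v S m := by
  cases m with
  | zero => exact Submodule.mem_top
  | succ n =>
    refine SB_induction v S (p := fun A => trL A ∈ SB v S (n + 1)) ?_ ?_ ?_ ?_ hA
    · rw [trL_zero]; exact zero_mem _
    · intro A A' h h'; rw [trL_add]; exact add_mem h h'
    · intro c A h; rw [trL_smul]; exact Submodule.smul_mem _ _ h
    · intro a ha
      rw [← mc_strNL v hv]
      refine mem_SB v S ?_
      have h2 : E0 W X n ∈ S.Op (pw X (n + 1)) (pw X (n + 1)) := Sys.Op.ext hp Sys.Op.id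
      exact strL_mem S (Sys.Op.comp ha h2)

/-- **The system.** -/
noncomputable def psys0 (S : Sys W) (hv : ∀ i, v i ∈ W.gr X (dg i))
    (hp : H914.par (W.isInternal X) ∈ S.Op X X) : PSys0 ι where
  S := SB v S
  one_mem := SB_one v S
  mul_mem := SB_mul v S
  oneT_mem := SB_oneT v S
  sw_mem := SB_sw v hv S hp
  trL_mem := SB_trL v hv S hp

end system

end Pool.Agent.E8helper1.TX
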