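import Pool.Agent.E8helper1.TX.Dict2

/-!
# Adjoints
-/

open CategoryTheory AlgebraicGeometry

universe u

namespace Pool.Agent.E8helper1.TX

open Module Matrix
open Pool.Agent.H914 Pool.Agent.H914.VarClass Pool.Agent.H914.VarClass.Obj
  Pool.Agent.H914.WeilCohomology
open Pool.Agent.Y133.Half (Sys PH xp xp_def Ev Adj)
open Pool.Agent.Y133.Half.Sys (mem_Op)
open Pool.Agent.Y129 (pw pj word exists_word_basis permRep permHom word_succ liftN liftN_pj)
open Pool.Agent.E8helper56.TX (tp_mul tp_one)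

set_option linter.unusedSectionVars false

variable {k : Type u} [Field k] {𝒱 : VarClass k} {ops : CycleOps 𝒱}
  {W : WeilCohomology.{u, 0} ops} {X Y Z P Q : 𝒱.Obj}

section tr

variable {ι : Type} [Fintype ι] [DecidableEq ι] (v : Basis ι W.K (W.H X)) {dg : ι → ℕ}
  (hv : ∀ i, v i ∈ W.gr X (dg i))

/-- The matrix of the pairing. -/
noncomputable def Bm : Matrix ι ι W.K := fun i j => W.tr X (v i * v j)

include hv in
theorem Bm_par {i j : ι} (h : Bm v i j ≠ 0) : dg i % 2 = dg j % 2 := by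
  have h1 : dg i + dg j = 2 * X.dim := by
    by_contra h2
    exact h (W.tr_eq_zero (W.mul_mem (hv i) (hv j)) h2)
  omega

include hv in
theorem Bm_symm (i j : ι) : Bm v j i = (-1 : W.K) ^ dg j * Bm v i j := by
  have h1 : Bm v j i = (-1 : W.K) ^ (dg j * dg i) * Bm v i j := by
    unfold Bm
    rw [W.comm (hv j) (hv i), map_smul, smul_eq_mul]
  rw [h1]
  by_cases h : Bm v i j = 0
  · rw [h, mul_zero, mul_zero]
  · have h2 := Bm_par v hv h
    congr 1
    refine Pool.Agent.Y133.Half.neg_pow_congr ?_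
    rw [Nat.mul_mod]
    rcases Nat.mod_two_eq_zero_or_one (dg j) with h3 | h3
    · rw [h3, h2.trans h3]
    · rw [h3, h2.trans h3]

include hv in
theorem wb_PH (n : ℕ) (x : Fin (n + 1) → ι) : wb v n x ∈ PH W (pw X n) (∑ i, dg (x i)) := by
  induction n with
  | zero =>
    have h1 : wb v 0 x = v (x 0) := wb_zero v x
    have h2 : ∑ i : Fin (0 + 1), dg (x i) = dg (x 0) := Fin.sum_univ_one _
    rw [h1, h2]
    exact PH.of (hv _)
  | succ n ih =>
    rw [wb_succ, Fin.sum_univ_succ (fun i => dg (x i))]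
    exact Pool.Agent.Y133.Half.xp_mem (PH.of (hv _)) (ih _)

include hv in
/-- The trace pairing on words. -/
theorem tr_wb (n : ℕ) (x y : Fin (n + 1) → ι) : W.tr (pw X n) (wb v n x * wb v n y) =
    (-1 : W.K) ^ sgE dg n x * ∏ i, Bm v (x i) (y i) := by
  induction n with
  | zero =>
    have h1 : wb v 0 x = v (x 0) := wb_zero v x
    have h1' : wb v 0 y = v (y 0) := wb_zero v y
    have h2 : ∏ i : Fin (0 + 1), Bm v (x i) (y i) = Bm v (x 0) (y 0) := Fin.prod_univ_one _
    rw [h1, h1', h2, sgE, pow_zero, one_mul]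
    rfl
  | succ n ih =>
    have h3 : W.tr (pw X (n + 1)) (wb v (n + 1) x * wb v (n + 1) y) =
        (-1 : W.K) ^ ((∑ i : Fin (n + 1), dg (x i.succ)) * dg (y 0)) *
          (Bm v (x 0) (y 0) * W.tr (pw X n) ((wb v n fun i => x i.succ) *
            wb v n fun i => y i.succ)) := by
      rw [wb_succ, wb_succ]
      have h4 := Pool.Agent.Y133.Half.xp_mul (v (x 0)) (v (y 0)) (wb v n fun i => x i.succ)
        (wb v n fun i => y i.succ) (wb_PH v hv n _) (PH.of (hv (y 0)))
      refine (congrArg (W.tr (X.prod (pw X n))) h4).trans ?_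
      rw [map_smul, Pool.Agent.Y133.Half.tr_xp, smul_eq_mul]
      rfl
    rw [h3, ih, Fin.prod_univ_succ (fun i => Bm v (x i) (y i))]
    by_cases h : Bm v (x 0) (y 0) = 0
    · rw [h]; ring
    · have h2 := Bm_par v hv h
      have h5 : (-1 : W.K) ^ ((∑ i : Fin (n + 1), dg (x i.succ)) * dg (y 0)) =
          (-1 : W.K) ^ (dg (x 0) * ∑ i : Fin (n + 1), dg (x i.succ)) := by
        refine Pool.Agent.Y133.Half.neg_pow_congr ?_
        rw [Nat.mul_mod, Nat.mul_mod (dg (x 0)), h2, mul_comm]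
      rw [h5, sgE, pow_add]
      ring

/-- The matrix of an operator. -/
noncomputable def mt (n : ℕ) (a : Module.End W.K (W.H (pw X n))) :
    Matrix (Fin (n + 1) → ι) (Fin (n + 1) → ι) W.K := LinearMap.toMatrix (wb v n) (wb v n) a

theorem mt_sum (n : ℕ) (a : Module.End W.K (W.H (pw X n))) (J : Fin (n + 1) → ι) :
    a (wb v n J) = ∑ I, mt v n a I J • wb v n I := by
  conv_lhs => rw [← (wb v n).sum_repr (a (wb v n J))]
  refine Finset.sum_congr rfl fun I _ => ?_
  rw [mt, LinearMap.toMatrix_apply]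

include hv in
theorem mt_DN (n : ℕ) (a : Module.End W.K (W.H (pw X n))) (I J : Fin (n + 1) → ι) :
    mt v n (DN W X n * a * DN W X n) I J =
      (-1 : W.K) ^ sgE dg n I * mt v n a I J * (-1 : W.K) ^ sgE dg n J := by
  have h1 : ∀ x, (wb v n).repr (DN W X n x) I = (-1 : W.K) ^ sgE dg n I * (wb v n).repr x I := by
    intro x
    conv_lhs => rw [← (wb v n).sum_repr x, map_sum, map_sum, Finsupp.finset_sum_apply]
    rw [Finset.sum_eq_single I]
    · rw [map_smul, DN_wb v hv, map_smul, map_smul, Finsupp.smul_apply, Finsupp.smul_apply,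
        Basis.repr_self, Finsupp.single_eq_same, smul_eq_mul, smul_eq_mul, mul_one, mul_comm]
    · intro J _ hJ
      rw [map_smul, DN_wb v hv, map_smul, map_smul, Finsupp.smul_apply, Finsupp.smul_apply,
        Basis.repr_self, Finsupp.single_eq_of_ne (Ne.symm hJ), smul_zero, smul_zero]
    · intro h
      exact absurd (Finset.mem_univ _) h
  rw [mt, LinearMap.toMatrix_apply, Module.End.mul_apply, Module.End.mul_apply, h1,
    DN_wb v hv, map_smul, map_smul, Finsupp.smul_apply, smul_eq_mul, mt, LinearMap.toMatrix_apply]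
  ring

include hv in
/-- **Transposition.** -/
theorem exists_transpose (S : Sys W) (hp : H914.par (W.isInternal X) ∈ S.Op X X) (n : ℕ)
    {a : Module.End W.K (W.H (pw X n))} (ha : a ∈ S.Op (pw X n) (pw X n)) :
    ∃ a' ∈ S.Op (pw X n) (pw X n), (mt v n a)ᵀ * tpowK W.K (Bm v) (n + 1) =
      tpowK W.K (Bm v) (n + 1) * mt v n a' := by
  obtain ⟨a', ha', hadj⟩ := Sys.Op.exists_adj (S := S) (u := DN W X n * a * DN W X n)
    (Sys.Op.comp (Sys.Op.comp (DN_mem S hp n) ha) (DN_mem S hp n))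
  refine ⟨a', ha', ?_⟩
  ext I J
  have h1 := hadj (wb v n I) (wb v n J)
  rw [mt_sum, mt_sum v n a' J, Finset.sum_mul, Finset.mul_sum, map_sum, map_sum] at h1
  simp only [smul_mul_assoc, mul_smul_comm, map_smul, smul_eq_mul, tr_wb v hv,
    mt_DN v hv] at h1
  rw [Matrix.mul_apply, Matrix.mul_apply]
  have hs : ∀ L : Fin (n + 1) → ι, (-1 : W.K) ^ sgE dg n L * (-1 : W.K) ^ sgE dg n L = 1 := by
    intro L
    rw [← pow_add, ← two_mul, pow_mul, neg_one_sq, one_pow]
  have h2 : ∑ L, (mt v n a)ᵀ I L * tpowK W.K (Bm v) (n + 1) L J =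
      (-1 : W.K) ^ sgE dg n I * ∑ L, (-1 : W.K) ^ sgE dg n L * mt v n a L I *
        (-1 : W.K) ^ sgE dg n I * ((-1 : W.K) ^ sgE dg n L * ∏ i, Bm v (L i) (J i)) := by
    rw [Finset.mul_sum]
    refine Finset.sum_congr rfl fun L _ => ?_
    rw [Matrix.transpose_apply, tpowK]
    linear_combination (-(mt v n a L I * ∏ i, Bm v (L i) (J i)) *
      ((-1 : W.K) ^ sgE dg n L * (-1 : W.K) ^ sgE dg n L)) * hs I -
      (mt v n a L I * ∏ i, Bm v (L i) (J i)) * hs L
  have h3 : ∑ L, tpowK W.K (Bm v) (n + 1) I L * mt v n a' L J =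
      (-1 : W.K) ^ sgE dg n I * ∑ L, mt v n a' L J *
        ((-1 : W.K) ^ sgE dg n I * ∏ i, Bm v (I i) (L i)) := by
    rw [Finset.mul_sum]
    refine Finset.sum_congr rfl fun L _ => ?_
    rw [tpowK]
    linear_combination (-(mt v n a' L J * ∏ i, Bm v (I i) (L i))) * hs I
  rw [h2, h3, h1]

end tr

end Pool.Agent.E8helper1.TX
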