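import Pool.Agent.E8helper1.TX.Dict3

/-!
# Adjoints with respect to the hermitian form
-/

open CategoryTheory AlgebraicGeometry

universe u v

namespace Pool.Agent.E8helper1.TX

open Module Matrix
open Pool.Agent.H914 Pool.Agent.H914.VarClass Pool.Agent.H914.VarClass.Obj
  Pool.Agent.H914.WeilCohomology
open Pool.Agent.Y133.Half (Sys PH xp xp_def Ev Adj)
open Pool.Agent.Y133.Half.Sys (mem_Op)
open Pool.Agent.Y129 (pw pj word exists_word_basis permRep permHom word_succ liftN liftN_pj)
open Pool.Agent.E8helper56.TX (tp_mul tp_one)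

set_option linter.unusedSectionVars false

section tpow

variable {n : Type} [Fintype n] [DecidableEq n]

theorem tpow_mul (g h : Matrix n n ℂ) (m : ℕ) : tpow (g * h) m = tpow g m * tpow h m :=
  tp_mul (M := Fin m) g h

theorem tpow_one (m : ℕ) : tpow (1 : Matrix n n ℂ) m = 1 := tp_one (M := Fin m)

theorem tpow_transpose (g : Matrix n n ℂ) (m : ℕ) : tpow gᵀ m = (tpow g m)ᵀ := rfl

theorem tpow_map (K : Type) [Field K] [Algebra K ℂ] (g : Matrix n n K) (m : ℕ) :
    (tpowK K g m).map (algebraMap K ℂ) = tpow (g.map (algebraMap K ℂ)) m := by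
  ext I J
  rw [Matrix.map_apply, tpowK, map_prod]
  rfl

end tpow

variable {k : Type u} [Field k] {𝒱 : VarClass k} {ops : CycleOps 𝒱}
  {W : WeilCohomology.{u, v} ops} {X Y Z P Q : 𝒱.Obj}

/-- The power of an operator. -/
noncomputable def extP (s : Module.End W.K (W.H X)) : ∀ n : ℕ, Module.End W.K (W.H (pw X n))
  | 0 => s
  | n + 1 => extN n s (extP s n)

theorem extP_mem (S : Sys W) {s : Module.End W.K (W.H X)} (hs : s ∈ S.Op X X) :
    ∀ n, extP s n ∈ S.Op (pw X n) (pw X n)
  | 0 => hs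
  | n + 1 => Sys.Op.ext hs (extP_mem S hs n)

theorem extP_par : ∀ n, extP (H914.par (W.isInternal X)) n = PN W X n
  | 0 => rfl
  | n + 1 => by
    change extN n _ (extP _ n) = extN n _ _
    rw [extP_par n]

section star

variable {ι : Type} [Fintype ι] [DecidableEq ι] (v : Basis ι W.K (W.H X))

theorem wb_repr_zero (y : W.H X) (I : Fin 1 → ι) : (wb v 0).repr y I = v.repr y (I 0) := by
  have h1 : y = ∑ i, v.repr y i • wb v 0 (fun _ => i) := by
    conv_lhs => rw [← v.sum_repr y]
    refine Finset.sum_congr rfl fun i _ => ?_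
    have h2 : wb v 0 (fun _ : Fin 1 => i) = v i := wb_zero v _
    rw [h2]
    rfl
  have h3 : (wb v 0).repr y = ∑ i, v.repr y i • Finsupp.single (fun _ : Fin 1 => i) (1 : W.K) := by
    conv_lhs => rw [h1]
    rw [map_sum]
    refine Finset.sum_congr rfl fun i _ => ?_
    rw [map_smul, Basis.repr_self]
  rw [h3, Finsupp.finset_sum_apply, Finset.sum_eq_single (I 0)]
  · have h4 : (fun _ : Fin 1 => I 0) = I := by
      funext j
      rw [Subsingleton.elim j 0]
    rw [h4, Finsupp.smul_apply, Finsupp.single_eq_same, smul_eq_mul, mul_one]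
  · intro i _ hi
    have h4 : (fun _ : Fin 1 => i) ≠ I := by
      rintro rfl
      exact hi rfl
    rw [Finsupp.smul_apply, Finsupp.single_eq_of_ne (Ne.symm h4), smul_zero]
  · intro h
    exact absurd (Finset.mem_univ _) h

variable [Algebra W.K ℂ]

/-- The matrix of an operator on the cohomology of `X`. -/
noncomputable def m1 (s : Module.End W.K (W.H X)) : Matrix ι ι ℂ :=
  (LinearMap.toMatrix v v s).map (algebraMap W.K ℂ)

theorem m1_apply (s : Module.End W.K (W.H X)) (i j : ι) :
    m1 v s i j = algebraMap W.K ℂ (v.repr (s (v j)) i) := by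
  rw [m1, Matrix.map_apply, LinearMap.toMatrix_apply]

theorem m1_mul (s t : Module.End W.K (W.H X)) : m1 v (s * t) = m1 v s * m1 v t := by
  rw [m1, LinearMap.toMatrix_mul, Matrix.map_mul]
  rfl

theorem m1_one : m1 v 1 = 1 := by
  rw [m1, LinearMap.toMatrix_one, Matrix.map_one _ (map_zero _) (map_one _)]

/-- The matrix of the power of an operator. -/
theorem mc_extP (s : Module.End W.K (W.H X)) (n : ℕ) :
    mc v n (extP s n) = tpow (m1 v s) (n + 1) := by
  induction n with
  | zero =>
    ext I J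
    rw [mc_apply]
    have h1 : wb v 0 J = v (J 0) := wb_zero v J
    have h2 : tpow (m1 v s) (0 + 1) I J = m1 v s (I 0) (J 0) := by
      rw [tpow]
      exact Fin.prod_univ_one _
    rw [h2, m1_apply]
    congr 1
    change (wb v 0).repr (s (wb v 0 J)) I = _
    rw [h1]
    exact wb_repr_zero v _ _
  | succ n ih =>
    ext I J
    change mc v (n + 1) (extN n s (extP s n)) I J = _
    rw [mc_ext, ih]
    have h1 : tpow (m1 v s) (n + 1 + 1) I J = m1 v s (I 0) (J 0) *
        tpow (m1 v s) (n + 1) (fun i => I i.succ) fun i => J i.succ := Fin.prod_univ_succ _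
    rw [h1, m1_apply]

end star

end Pool.Agent.E8helper1.TX

namespace Pool.Agent.E8helper1.TX

open Module Matrix
open Pool.Agent.H914 Pool.Agent.H914.VarClass Pool.Agent.H914.VarClass.Obj
  Pool.Agent.H914.WeilCohomology
open Pool.Agent.Y133.Half (Sys PH xp xp_def Ev Adj)
open Pool.Agent.Y133.Half.Sys (mem_Op)
open Pool.Agent.Y129 (pw pj word exists_word_basis permRep permHom word_succ liftN liftN_pj)

set_option linter.unusedSectionVars false

variable {k : Type u} [Field k] {𝒱 : VarClass k} {ops : CycleOps 𝒱}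
  {W : WeilCohomology.{u, 0} ops} {X Y Z P Q : 𝒱.Obj} [Algebra W.K ℂ]
  {ι : Type} [Fintype ι] [DecidableEq ι] (v : Basis ι W.K (W.H X)) {dg : ι → ℕ}
  (hv : ∀ i, v i ∈ W.gr X (dg i))

/-- The operator commutes with the twisted conjugation. -/
def JComm (jm : Matrix ι ι ℂ) (n : ℕ) (a : Module.End W.K (W.H (pw X n))) : Prop :=
  mc v n a * tpow jm (n + 1) = tpow jm (n + 1) * (mc v n a).map (starRingEnd ℂ)

/-- The complex matrix of the pairing. -/
noncomputable def BC : Matrix ι ι ℂ := (Bm v).map (algebraMap W.K ℂ)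

include hv in
theorem BC_transpose : (BC v)ᵀ = BC v * m1 v (H914.par (W.isInternal X)) := by
  ext i j
  rw [Matrix.transpose_apply, Matrix.mul_apply, Finset.sum_eq_single j]
  · rw [m1_apply, PH.par (PH.of (hv j)), map_smul, Basis.repr_self, Finsupp.smul_apply,
      Finsupp.single_eq_same, smul_eq_mul, mul_one, BC, Matrix.map_apply, Matrix.map_apply,
      Bm_symm v hv, ← map_mul, mul_comm]
  · intro l _ hl
    rw [m1_apply, PH.par (PH.of (hv j)), map_smul, Basis.repr_self, Finsupp.smul_apply,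
      Finsupp.single_eq_of_ne hl, smul_zero, map_zero, mul_zero]
  · intro h
    exact absurd (Finset.mem_univ _) h

/-- The matrix of the hermitian form. -/
noncomputable def Qm (s : Module.End W.K (W.H X)) (jm : Matrix ι ι ℂ) : Matrix ι ι ℂ :=
  (BC v * m1 v s * jm)ᵀ

include hv in
/-- **The adjoint of an operator.** -/
theorem adjoint_mem (S : Sys W) (hp : H914.par (W.isInternal X) ∈ S.Op X X)
    {s : Module.End W.K (W.H X)} (hs : s ∈ S.Op X X) (hss : s * s = 1) {jm : Matrix ι ι ℂ}
    (n : ℕ) {a : Module.End W.K (W.H (pw X n))} (ha : a ∈ S.Op (pw X n) (pw X n))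
    (hJ : JComm v jm n a) : ∃ a' ∈ S.Op (pw X n) (pw X n),
      (mc v n a)ᴴ * tpow (Qm v s jm) (n + 1) = tpow (Qm v s jm) (n + 1) * mc v n a' := by
  set N : Module.End W.K (W.H (pw X n)) := extP s n * a * extP s n with hN
  obtain ⟨a', ha', h1⟩ := exists_transpose v hv S hp n (a := N)
    (Sys.Op.comp (Sys.Op.comp (extP_mem S hs n) ha) (extP_mem S hs n))
  refine ⟨a', ha', ?_⟩
  set A := mc v n a with hA
  set B := tpow (BC v) (n + 1) with hB
  set T := tpow (m1 v s) (n + 1) with hT
  set j := tpow jm (n + 1) with hj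
  set p := tpow (m1 v (H914.par (W.isInternal X))) (n + 1) with hpp
  have hTT : T * T = 1 := by
    rw [hT, ← tpow_mul, ← m1_mul, hss, m1_one, tpow_one]
  have hQ : tpow (Qm v s jm) (n + 1) = jᵀ * Tᵀ * (B * p) := by
    rw [Qm, Matrix.transpose_mul, Matrix.transpose_mul, BC_transpose v hv, tpow_mul, tpow_mul,
      tpow_mul, tpow_transpose, tpow_transpose, ← Matrix.mul_assoc]
  have hAJ : A * j = j * A.map (starRingEnd ℂ) := hJ
  have hAH : Aᴴ * jᵀ = jᵀ * Aᵀ := by
    have h2 : Aᴴ = (A.map (starRingEnd ℂ))ᵀ := rfl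
    rw [h2, ← Matrix.transpose_mul, ← hAJ, Matrix.transpose_mul]
  have hN1 : mc v n N = T * A * T := by
    rw [hN, mc_mul, mc_mul, mc_extP]
  have hAN : Aᵀ * Tᵀ = Tᵀ * (mc v n N)ᵀ := by
    rw [← Matrix.transpose_mul, ← Matrix.transpose_mul, hN1, Matrix.mul_assoc (T * A), hTT,
      Matrix.mul_one]
  have h3 : (mc v n N)ᵀ * B = B * mc v n a' := by
    have h4 := congrArg (fun M : Matrix _ _ W.K => M.map (algebraMap W.K ℂ)) h1
    simp only [Matrix.map_mul] at h4
    rw [tpow_map] at h4
    exact h4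
  have h5 : mc v n a' * p = p * mc v n a' := by
    have h6 : a' * PN W X n = PN W X n * a' := by
      have h7 := (Sys.Op.ev ha').par_comm
      have h8 : PN W X n = H914.par (W.isInternal (pw X n)) := by
        refine (wb v n).ext fun x => ?_
        rw [PN_wb v hv, PH.par (wb_PH v hv n x)]
      rw [h8]
      exact h7.symm
    rw [hpp, ← mc_extP, extP_par, ← mc_mul, ← mc_mul, h6]
  calc Aᴴ * tpow (Qm v s jm) (n + 1) = (Aᴴ * jᵀ) * Tᵀ * (B * p) := by
        rw [hQ]; simp only [Matrix.mul_assoc]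
    _ = jᵀ * (Aᵀ * Tᵀ) * (B * p) := by rw [hAH]; simp only [Matrix.mul_assoc]
    _ = jᵀ * Tᵀ * ((mc v n N)ᵀ * B) * p := by rw [hAN]; simp only [Matrix.mul_assoc]
    _ = jᵀ * Tᵀ * B * (mc v n a' * p) := by rw [h3]; simp only [Matrix.mul_assoc]
    _ = tpow (Qm v s jm) (n + 1) * mc v n a' := by
        rw [h5, hQ]; simp only [Matrix.mul_assoc]

include hv in
/-- **The system is closed under adjoints.** -/
theorem SB_star (S : Sys W) (hp : H914.par (W.isInternal X) ∈ S.Op X X)
    {s : Module.End W.K (W.H X)} (hs : s ∈ S.Op X X) (hss : s * s = 1) {jm : Matrix ι ι ℂ}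
    (hJ : ∀ n, ∀ a ∈ S.Op (pw X n) (pw X n), a ∈ Submodule.span W.K
      {b | b ∈ S.Op (pw X n) (pw X n) ∧ JComm v jm n b})
    (hQ : IsUnit (Qm v s jm).det) (m : ℕ) (A : Op ι m) (hA : A ∈ SB v S m) :
    tpow (Qm v s jm)⁻¹ m * Aᴴ * tpow (Qm v s jm) m ∈ SB v S m := by
  cases m with
  | zero => exact Submodule.mem_top
  | succ n =>
    have hinv : tpow (Qm v s jm)⁻¹ (n + 1) * tpow (Qm v s jm) (n + 1) = 1 := by
      rw [← tpow_mul, Matrix.nonsing_inv_mul _ hQ, tpow_one]
    refine SB_induction v S (p := fun A => tpow (Qm v s jm)⁻¹ (n + 1) * Aᴴ *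
      tpow (Qm v s jm) (n + 1) ∈ SB v S (n + 1)) ?_ ?_ ?_ ?_ hA
    · rw [Matrix.conjTranspose_zero, mul_zero, zero_mul]
      exact zero_mem _
    · intro A A' h h'
      rw [Matrix.conjTranspose_add, mul_add, add_mul]
      exact add_mem h h'
    · intro c A h
      rw [Matrix.conjTranspose_smul, Matrix.mul_smul, Matrix.smul_mul]
      exact Submodule.smul_mem _ _ h
    · intro a ha
      refine Submodule.span_induction (p := fun a _ => tpow (Qm v s jm)⁻¹ (n + 1) * (mc v n a)ᴴ *
        tpow (Qm v s jm) (n + 1) ∈ SB v S (n + 1)) ?_ ?_ ?_ ?_ (hJ n a ha)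
      · rintro b ⟨hb, hbJ⟩
        obtain ⟨a', ha', h1⟩ := adjoint_mem v hv S hp hs hss n hb hbJ
        rw [Matrix.mul_assoc, h1, ← Matrix.mul_assoc, hinv, Matrix.one_mul]
        exact mem_SB v S ha'
      · have h0 : mc v n (0 : Module.End W.K (W.H (pw X n))) = 0 := by
          have := mc_smul v n (0 : W.K) (0 : Module.End W.K (W.H (pw X n)))
          rwa [zero_smul, map_zero, zero_smul] at this
        rw [h0, Matrix.conjTranspose_zero, mul_zero, zero_mul]
        exact zero_mem _
      · intro a b _ _ h h'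
        rw [mc_add, Matrix.conjTranspose_add, mul_add, add_mul]
        exact add_mem h h'
      · intro c a _ h
        rw [mc_smul, Matrix.conjTranspose_smul, Matrix.mul_smul, Matrix.smul_mul]
        exact Submodule.smul_mem _ _ h

end Pool.Agent.E8helper1.TX
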