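import Pool.Agent.E8helper1.TX.Gal5
import Pool.Agent.Y133.Half.TateSys

/-!
# The Tate conjecture for smaller powers; operators
-/

open CategoryTheory AlgebraicGeometry

universe u v

namespace Pool.Agent.E8helper1.TX

open Module Matrix
open Pool.Agent.H914 Pool.Agent.H914.VarClass Pool.Agent.H914.VarClass.Obj
  Pool.Agent.H914.WeilCohomology Pool.Agent.H281R3.HT
open Pool.Agent.Y133.Half (Sys PH xp xp_def Ev Adj algSys)
open Pool.Agent.Y133.Half.Sys (mem_Op)
open Pool.Agent.Y129 (pw pj PowerAction TG tateClasses liftN liftN_pj pw_ext tate_map)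
open Pool.Agent.TH125.Gal (IsGaloisAct Intertwines)
open Pool.Agent.Y126.Notions (PotentiallySemisimple)
open Pool.Agent.E8helper1.CT (HasLattice)

set_option linter.unusedSectionVars false

section down

variable {k : Type u} [Field k] {𝒱 : VarClass k} {ops : CycleOps 𝒱}
  {W : WeilCohomology.{u, v} ops} {X : 𝒱.Obj} {Γ : Type} [Group Γ] {χ : Γ →* W.Kˣ}
  {ρ : ∀ n, Γ →* (W.H (pw X n) ≃ₐ[W.K] W.H (pw X n))} (h : PowerAction W X χ ρ)

include h in
theorem TG_map {m n : ℕ} {p : pw X n ⟶ pw X m} (hp : Intertwines (W.map p) (ρ m) (ρ n))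
    {c : W.H (pw X m)} (hc : c ∈ TG W X χ ρ m) : W.map p c ∈ TG W X χ ρ n := by
  refine Submodule.iSup_induction (fun j => tateClasses χ (W.gr (pw X m)) (ρ m) j)
    (motive := fun c => W.map p c ∈ TG W X χ ρ n) hc ?_ ?_ ?_
  · intro j c hc
    exact le_iSup (fun j => tateClasses χ (W.gr (pw X n)) (ρ n) j) j (tate_map hp hc)
  · rw [map_zero]
    exact zero_mem _
  · intro a b ha hb
    rw [map_add]
    exact add_mem ha hb

include h in
/-- The Tate conjecture for smaller powers. -/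
theorem TG_down {m n : ℕ} (hmn : m ≤ n) (hT : TG W X χ ρ n ≤ algSpan W (pw X n)) :
    TG W X χ ρ m ≤ algSpan W (pw X m) := by
  intro c hc
  let p : pw X n ⟶ pw X m := liftN X m (fun i => pj X n (Fin.castLE (by omega) i))
  let σ : pw X m ⟶ pw X n := liftN X n (fun i =>
    if hi : (i : ℕ) < m + 1 then pj X m ⟨i, hi⟩ else pj X m 0)
  have h1 : σ ≫ p = 𝟙 _ := by
    apply pw_ext
    intro i
    rw [Category.assoc, liftN_pj, liftN_pj, Category.id_comp]
    have h2 : ((Fin.castLE (by omega : m + 1 ≤ n + 1) i : Fin (n + 1)) : ℕ) < m + 1 := i.2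
    rw [dif_pos h2]
    congr 1
  have h2 : W.map p c ∈ TG W X χ ρ n :=
    TG_map h (h.equiv p (fun i => Fin.castLE (by omega) i) fun i => liftN_pj _ _ _) hc
  have h3 : W.map σ (W.map p c) = c := by
    rw [← W.map_comp, h1, W.map_id]
  rw [← h3]
  exact (algSys W).map σ (hT h2)

end down

variable {k : Type u} [Field k] {𝒱 : VarClass k} {ops : CycleOps 𝒱}
  {W : WeilCohomology.{u, 0} ops} {X : 𝒱.Obj} {Γ : Type} [Group Γ] {χ : Γ →* W.Kˣ}
  {ρ : ∀ n, Γ →* (W.H (pw X n) ≃ₐ[W.K] W.H (pw X n))} {θ : Γ →* W.Kˣ}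
  {ι : Type} [Fintype ι] [DecidableEq ι] (v : Basis ι W.K (W.H X))
  (h : PowerAction W X χ ρ) (hθ : ∀ g, θ g ^ 2 = χ g)

include h hθ in
/-- Operators which commute with the normalized action and the parity are algebraic. -/
theorem op_of_pot (hT : TG W X χ ρ 1 ≤ algSpan W (pw X 1)) {a : Module.End W.K (W.H X)}
    (h1 : ∃ Δ : Subgroup Γ, Δ.FiniteIndex ∧ ∀ g ∈ Δ, a * nu0 ρ θ g = nu0 ρ θ g * a)
    (h2 : a * H914.par (W.isInternal X) = H914.par (W.isInternal X) * a) :
    a ∈ (algSys W).Op X X := by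
  obtain ⟨ι, _, _, v, -⟩ := Pool.Agent.Y129.exists_homogeneous_basis W X
  have h3 : IsPot (R0 v h θ) (p0 v) (LinearMap.toMatrix v v a) := by
    obtain ⟨Δ, hΔ, h1⟩ := h1
    refine ⟨⟨Δ, hΔ, fun g hg => ?_⟩, ?_⟩
    · change LinearMap.toMatrix v v a * LinearMap.toMatrix v v _ =
        LinearMap.toMatrix v v _ * LinearMap.toMatrix v v a
      rw [← LinearMap.toMatrix_mul, ← LinearMap.toMatrix_mul, h1 g hg]
    · change LinearMap.toMatrix v v a * LinearMap.toMatrix v v _ =
        LinearMap.toMatrix v v _ * LinearMap.toMatrix v v a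
      rw [← LinearMap.toMatrix_mul, ← LinearMap.toMatrix_mul, h2]
  obtain ⟨a', ⟨c, hc, rfl⟩, h4⟩ := (isPot_iff v h hθ _).1 h3
  have h5 := (LinearMap.toMatrix v v).injective h4
  rw [← h5]
  exact Sys.Op.corr (S := algSys W) (hT hc)

/-- The spaces of matrices of the operators of a system. -/
noncomputable def SK (S : Sys W) : ∀ m, Submodule W.K (Matrix (Fin m → ι) (Fin m → ι) W.K)
  | 0 => ⊤
  | n + 1 => (S.Op (pw X n) (pw X n)).map (LinearMap.toMatrix (wb v n) (wb v n)).toLinearMap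

theorem mem_SK_succ (S : Sys W) (n : ℕ) (M : Matrix (Fin (n + 1) → ι) (Fin (n + 1) → ι) W.K) :
    M ∈ SK v S (n + 1) ↔ ∃ a ∈ S.Op (pw X n) (pw X n), mt v n a = M := Submodule.mem_map

/-- The complex span. -/
theorem SB_eq_bcM [Algebra W.K ℂ] (S : Sys W) (m : ℕ) : SB v S m = bcM W.K (SK v S m) := by
  cases m with
  | zero =>
    refine le_antisymm ?_ le_top
    intro A _
    have h1 : A = A (fun i => i.elim0) (fun i => i.elim0) • (1 : Op ι 0) := by
      ext I J
      have hI : I = fun i => i.elim0 := funext fun i => i.elim0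
      have hJ : J = fun i => i.elim0 := funext fun i => i.elim0
      rw [hI, hJ, Matrix.smul_apply, Matrix.one_apply_eq, smul_eq_mul, mul_one]
    rw [h1]
    refine Submodule.smul_mem _ _ (Submodule.subset_span ⟨1, Submodule.mem_top, ?_⟩)
    exact Matrix.map_one _ (map_zero _) (map_one _)
  | succ n =>
    change Submodule.span ℂ _ = Submodule.span ℂ _
    congr 1
    ext M
    constructor
    · rintro ⟨a, ha, rfl⟩
      exact ⟨mt v n a, (mem_SK_succ v S n _).2 ⟨a, ha, rfl⟩, rfl⟩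
    · rintro ⟨M', hM', rfl⟩
      obtain ⟨a, ha, rfl⟩ := (mem_SK_succ v S n _).1 hM'
      exact ⟨a, ha, rfl⟩

include h hθ in
/-- Algebraic operators are potentially invariant. -/
theorem SK_le (m : ℕ) : SK v (algSys W) m ≤ PotOp (R0 v h θ) (p0 v) m := by
  cases m with
  | zero =>
    intro M _
    have hc : ∀ A B : Matrix (Fin 0 → ι) (Fin 0 → ι) W.K, A * B = B * A := by
      intro A B
      ext I J
      obtain rfl := Subsingleton.elim I J
      rw [Matrix.mul_apply, Matrix.mul_apply, Fintype.sum_subsingleton _ I,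
        Fintype.sum_subsingleton _ I, mul_comm]
    exact ⟨⟨⊤, inferInstance, fun g _ => hc _ _⟩, hc _ _⟩
  | succ n =>
    intro M hM
    obtain ⟨a, ha, rfl⟩ := (mem_SK_succ v _ n _).1 hM
    obtain ⟨c, hc, rfl⟩ := (mem_Op_iff _ n a).1 ha
    exact (mem_PotOp_iff v h hθ n _).2 ⟨c, h.algSpan_le _ hc, rfl⟩

include h hθ in
/-- The Tate conjecture for an even power in terms of operators. -/
theorem PotOp_le_iff (n : ℕ) : PotOp (R0 v h θ) (p0 v) (n + 1) ≤ SK v (algSys W) (n + 1) ↔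
    TG W X χ ρ (n + n + 1) ≤ algSpan W (pw X (n + n + 1)) := by
  constructor
  · intro h1 c hc
    have h2 := h1 ((mem_PotOp_iff v h hθ n _).2 ⟨c, hc, rfl⟩)
    obtain ⟨a, ha, h3⟩ := (mem_SK_succ v _ n _).1 h2
    obtain ⟨c', hc', rfl⟩ := (mem_Op_iff _ n a).1 ha
    have h4 := opc_injective n (mt_injective v n h3)
    rw [← h4]
    exact hc'
  · intro h1 M hM
    obtain ⟨c, hc, rfl⟩ := (mem_PotOp_iff v h hθ n _).1 hM
    exact (mem_SK_succ v _ n _).2 ⟨_, (mem_Op_iff _ n _).2 ⟨c, h1 hc, rfl⟩, rfl⟩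

/-- The map from classes to matrices. -/
noncomputable def clm (n : ℕ) : W.H (pw X (n + n + 1)) →ₗ[W.K]
    Matrix (Fin (n + 1) → ι) (Fin (n + 1) → ι) W.K :=
  (LinearMap.toMatrix (wb v n) (wb v n)).toLinearMap ∘ₗ opc W X n

theorem clm_injective (n : ℕ) : Function.Injective (clm (W := W) (X := X) v n) :=
  (mt_injective v n).comp (opc_injective n)

include h hθ in
theorem finrank_PotOp (n : ℕ) : finrank W.K (PotOp (R0 v h θ) (p0 v) (n + 1)) =
    finrank W.K (TG W X χ ρ (n + n + 1)) := by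
  have h1 : PotOp (R0 v h θ) (p0 v) (n + 1) = (TG W X χ ρ (n + n + 1)).map (clm v n) := by
    ext M
    rw [mem_PotOp_iff v h hθ, Submodule.mem_map]
    rfl
  rw [h1]
  exact (Submodule.equivMapOfInjective _ (clm_injective v n) _).finrank_eq.symm

theorem finrank_SK (n : ℕ) : finrank W.K (SK v (algSys W) (n + 1)) =
    finrank W.K (algSpan W (pw X (n + n + 1))) := by
  have h1 : SK v (algSys W) (n + 1) = (algSpan W (pw X (n + n + 1))).map (clm v n) := by
    ext M
    rw [mem_SK_succ, Submodule.mem_map]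
    constructor
    · rintro ⟨a, ha, rfl⟩
      obtain ⟨c, hc, rfl⟩ := (mem_Op_iff _ n a).1 ha
      exact ⟨c, hc, rfl⟩
    · rintro ⟨c, hc, rfl⟩
      exact ⟨_, (mem_Op_iff _ n _).2 ⟨c, hc, rfl⟩, rfl⟩
  rw [h1]
  exact (Submodule.equivMapOfInjective _ (clm_injective v n) _).finrank_eq.symm

end Pool.Agent.E8helper1.TX
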