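import Pool.Agent.E8helper1.TX.Geo
import Pool.Agent.E8helper1.TX.Pre
import Pool.Agent.E8helper56.TX.Ten

/-!
# The matrices of operators on the cohomology of the powers
-/

open CategoryTheory AlgebraicGeometry

universe u v

namespace Pool.Agent.E8helper1.TX

open Module
open Pool.Agent.H914 Pool.Agent.H914.VarClass Pool.Agent.H914.VarClass.Obj
  Pool.Agent.H914.WeilCohomology
open Pool.Agent.Y133.Half (Sys PH xp xp_def Ev)
open Pool.Agent.Y133.Half.Sys (mem_Op)
open Pool.Agent.Y129 (pw pj word exists_word_basis permRep permHom word_succ)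

set_option linter.unusedSectionVars false

variable {k : Type u} [Field k] {𝒱 : VarClass k} {ops : CycleOps 𝒱}
  {W : WeilCohomology.{u, v} ops} {X Y Z P Q : 𝒱.Obj}

section tens

variable {V₁ V₂ : Type*}

/-- Linear maps on the endomorphisms of the cohomology of a product are determined by their values
on external products. -/
theorem ext_extOp {M : Type*} [AddCommGroup M] [Module W.K M]
    {Φ Ψ : Module.End W.K (W.H (X.prod P)) →ₗ[W.K] M}
    (h : ∀ a b, Φ (extOp W a b) = Ψ (extOp W a b)) : Φ = Ψ := by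
  let c : Module.End W.K (TensorProduct W.K (W.H X) (W.H P)) ≃ₗ[W.K]
      Module.End W.K (W.H (X.prod P)) := (kappa W X P).conj
  have key : Φ ∘ₗ c.toLinearMap ∘ₗ (homTensorHomEquiv W.K (W.H X) (W.H P) (W.H X)
      (W.H P)).toLinearMap = Ψ ∘ₗ c.toLinearMap ∘ₗ (homTensorHomEquiv W.K (W.H X) (W.H P) (W.H X)
      (W.H P)).toLinearMap := by
    refine TensorProduct.ext' fun a b => ?_
    have h1 : c ((homTensorHomEquiv W.K (W.H X) (W.H P) (W.H X) (W.H P)) (a ⊗ₜ b)) =
        extOp W a b := by
      rw [homTensorHomEquiv_apply]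
      rfl
    rw [LinearMap.comp_apply, LinearMap.comp_apply, LinearMap.comp_apply, LinearMap.comp_apply]
    change Φ (c ((homTensorHomEquiv W.K (W.H X) (W.H P) (W.H X) (W.H P)) (a ⊗ₜ b))) =
      Ψ (c ((homTensorHomEquiv W.K (W.H X) (W.H P) (W.H X) (W.H P)) (a ⊗ₜ b)))
    rw [h1, h]
  refine LinearMap.ext fun a => ?_
  obtain ⟨a', rfl⟩ := c.surjective a
  obtain ⟨t, rfl⟩ := (homTensorHomEquiv W.K (W.H X) (W.H P) (W.H X) (W.H P)).surjective a'
  exact LinearMap.congr_fun key t

end tens

section words

variable {ι : Type} [Fintype ι] [DecidableEq ι] (v : Basis ι W.K (W.H X)) {dg : ι → ℕ}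
  (hv : ∀ i, v i ∈ W.gr X (dg i))

/-- The basis of the words. -/
noncomputable def wb (n : ℕ) : Basis (Fin (n + 1) → ι) W.K (W.H (pw X n)) :=
  (exists_word_basis v n).choose

theorem wb_apply (n : ℕ) (x : Fin (n + 1) → ι) : wb v n x = word v n x :=
  (exists_word_basis v n).choose_spec x

theorem wb_succ (n : ℕ) (x : Fin (n + 2) → ι) :
    wb v (n + 1) x = xp W (v (x 0)) (wb v n fun i => x i.succ) := by
  rw [wb_apply, wb_apply, word_succ, xp_def]

theorem wb_cons (n : ℕ) (i : ι) (x : Fin (n + 1) → ι) :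
    xp W (v i) (wb v n x) = wb v (n + 1) (Fin.cons i x : Fin (n + 2) → ι) := by
  rw [wb_succ]
  rfl

theorem wb_repr_xp (n : ℕ) (a : W.H X) (y : W.H (pw X n)) (I : Fin (n + 2) → ι) :
    (wb v (n + 1)).repr (xp W a y) I = v.repr a (I 0) * (wb v n).repr y fun i => I i.succ := by
  have h1 : xp W a y = ∑ p : ι × (Fin (n + 1) → ι), (v.repr a p.1 * (wb v n).repr y p.2) •
      wb v (n + 1) (Fin.cons p.1 p.2 : Fin (n + 2) → ι) := by
    rw [Fintype.sum_prod_type]
    have h2 : xp W a y = ∑ i, ∑ J, (v.repr a i * (wb v n).repr y J) • xp W (v i) (wb v n J) := by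
      have h3 : ∀ i, xp W (v i) y = ∑ J, (wb v n).repr y J • xp W (v i) (wb v n J) := by
        intro i
        conv_lhs => rw [← (wb v n).sum_repr y]
        simp only [xp_def, map_sum, map_smul, Finset.mul_sum, mul_smul_comm]
      have h4 : xp W a y = ∑ i, v.repr a i • xp W (v i) y := by
        conv_lhs => rw [← v.sum_repr a]
        simp only [xp_def, map_sum, map_smul, Finset.sum_mul, smul_mul_assoc]
      rw [h4]
      refine Finset.sum_congr rfl fun i _ => ?_
      rw [h3, Finset.smul_sum]
      exact Finset.sum_congr rfl fun J _ => smul_smul _ _ _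
    rw [h2]
    refine Finset.sum_congr rfl fun i _ => Finset.sum_congr rfl fun J _ => ?_
    rw [wb_cons]
    rfl
  have h5 : xp W a y = ∑ J : Fin (n + 2) → ι,
      (v.repr a (J 0) * (wb v n).repr y fun i => J i.succ) • wb v (n + 1) J := by
    rw [h1]
    refine Fintype.sum_equiv (Fin.consEquiv fun _ => ι) _ _ fun p => ?_
    rfl
  rw [h5, Basis.repr_sum_self]

/-- The matrix of an operator, with complex entries. -/
noncomputable def mc [Algebra W.K ℂ] (n : ℕ) (a : Module.End W.K (W.H (pw X n))) :
    Op ι (n + 1) :=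
  (LinearMap.toMatrix (wb v n) (wb v n) a).map (algebraMap W.K ℂ)

variable [Algebra W.K ℂ]

theorem mc_apply (n : ℕ) (a : Module.End W.K (W.H (pw X n))) (I J : Fin (n + 1) → ι) :
    mc v n a I J = algebraMap W.K ℂ ((wb v n).repr (a (wb v n J)) I) := by
  rw [mc, Matrix.map_apply, LinearMap.toMatrix_apply]

theorem mc_one (n : ℕ) : mc v n 1 = 1 := by
  rw [mc, LinearMap.toMatrix_one, Matrix.map_one _ (map_zero _) (map_one _)]

theorem mc_mul (n : ℕ) (a b : Module.End W.K (W.H (pw X n))) :
    mc v n (a * b) = mc v n a * mc v n b := by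
  rw [mc, LinearMap.toMatrix_mul, Matrix.map_mul]
  rfl

theorem mc_add (n : ℕ) (a b : Module.End W.K (W.H (pw X n))) :
    mc v n (a + b) = mc v n a + mc v n b := by
  rw [mc, map_add, Matrix.map_add _ (map_add _)]
  rfl

theorem mc_smul (n : ℕ) (c : W.K) (b : Module.End W.K (W.H (pw X n))) :
    mc v n (c • b) = algebraMap W.K ℂ c • mc v n b := by
  ext I J
  rw [mc_apply, LinearMap.smul_apply, map_smul, Finsupp.smul_apply, smul_eq_mul, map_mul,
    Matrix.smul_apply, mc_apply, smul_eq_mul]

/-- The external product of operators. -/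
noncomputable def extN (n : ℕ) (a : Module.End W.K (W.H X)) (b : Module.End W.K (W.H (pw X n))) :
    Module.End W.K (W.H (pw X (n + 1))) :=
  (extOp W a b : Module.End W.K (W.H (X.prod (pw X n))))

omit [Algebra W.K ℂ] in
theorem extN_mul (n : ℕ) (a a' : Module.End W.K (W.H X)) (b b' : Module.End W.K (W.H (pw X n))) :
    extN n a b * extN n a' b' = extN n (a * a') (b * b') := extOp_mul a a' b b'

omit [Algebra W.K ℂ] in
theorem extN_wb (n : ℕ) (a : Module.End W.K (W.H X)) (b : Module.End W.K (W.H (pw X n)))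
    (x : Fin (n + 2) → ι) : extN n a b (wb v (n + 1) x) =
      xp W (a (v (x 0))) (b (wb v n fun i => x i.succ)) := by
  rw [wb_succ, xp_def]
  exact extOp_tmul _ _ _ _

omit [Algebra W.K ℂ] in
theorem extN_ext (n : ℕ) {M : Type*} [AddCommGroup M] [Module W.K M]
    {Φ Ψ : Module.End W.K (W.H (pw X (n + 1))) →ₗ[W.K] M}
    (h : ∀ a b, Φ (extN n a b) = Ψ (extN n a b)) : Φ = Ψ :=
  ext_extOp (X := X) (P := pw X n) h

/-- The matrix of an external product. -/
theorem mc_ext (n : ℕ) (a : Module.End W.K (W.H X)) (b : Module.End W.K (W.H (pw X n)))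
    (I J : Fin (n + 2) → ι) : mc v (n + 1) (extN n a b) I J =
      algebraMap W.K ℂ (v.repr (a (v (J 0))) (I 0)) * mc v n b (fun i => I i.succ)
        (fun i => J i.succ) := by
  rw [mc_apply, mc_apply, ← map_mul, extN_wb, wb_repr_xp]

theorem mc_one_ext (n : ℕ) (b : Module.End W.K (W.H (pw X n))) :
    mc v (n + 1) (extN n 1 b) = oneT (mc v n b) := by
  ext I J
  rw [mc_ext, oneT, Module.End.one_apply, Basis.repr_self, Finsupp.single_apply]
  by_cases h : J 0 = I 0
  · rw [if_pos h, if_pos h.symm, map_one, one_mul]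
  · rw [if_neg h, if_neg (Ne.symm h), map_zero, zero_mul]

/-- The parity operator on the first factor. -/
noncomputable def E0 (W : WeilCohomology.{u, v} ops) (X : 𝒱.Obj) (n : ℕ) :
    Module.End W.K (W.H (pw X (n + 1))) := extN n (H914.par (W.isInternal X)) 1

include hv in
omit [Algebra W.K ℂ] in
theorem E0_wb (n : ℕ) (x : Fin (n + 2) → ι) :
    E0 W X n (wb v (n + 1) x) = (-1 : W.K) ^ dg (x 0) • wb v (n + 1) x := by
  rw [E0, extN_wb, PH.par (PH.of (hv _)), Pool.Agent.Y133.Half.xp_smul_left, wb_succ,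
    Module.End.one_apply]
  rfl

/-- The partial trace with signs over the first factor. -/
noncomputable def strN (n : ℕ) (a : Module.End W.K (W.H (pw X (n + 1)))) :
    Module.End W.K (W.H (pw X n)) := strL W X (pw X n) a

/-- The partial trace over the first factor, as a linear map. -/
noncomputable def strNL (W : WeilCohomology.{u, v} ops) (X : 𝒱.Obj) (n : ℕ) :
    Module.End W.K (W.H (pw X (n + 1))) →ₗ[W.K] Module.End W.K (W.H (pw X n)) where
  toFun a := strN n (a * E0 W X n)
  map_add' := by
    intro a b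
    have h : strN n ((a + b) * E0 W X n) = strL W X (pw X n)
        ((a * E0 W X n : Module.End W.K (W.H (pw X (n + 1)))) +
          (b * E0 W X n : Module.End W.K (W.H (pw X (n + 1)))) : Module.End W.K _) := by
      rw [← add_mul]
      rfl
    rw [h]
    refine (?_ : strL W X (pw X n) (_ + _) = _)
    rw [strL, extOp_add_right, LinearMap.add_comp, LinearMap.comp_add]
    rfl
  map_smul' := by
    intro c a
    have h : strN n ((c • a) * E0 W X n) = strL W X (pw X n)
        (c • (a * E0 W X n : Module.End W.K (W.H (pw X (n + 1)))) : Module.End W.K _) := by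
      rw [← smul_mul_assoc]
      rfl
    rw [h]
    refine (?_ : strL W X (pw X n) (c • _) = _)
    rw [strL, extOp_smul_right, LinearMap.smul_comp, LinearMap.comp_smul]
    rfl

include hv in
omit [Algebra W.K ℂ] in
theorem strNL_ext (n : ℕ) (a : Module.End W.K (W.H X)) (b : Module.End W.K (W.H (pw X n))) :
    strNL W X n (extN n a b) = LinearMap.trace W.K (W.H X) a • b := by
  change strN n (extN n a b * extN n (H914.par (W.isInternal X)) 1) = _
  rw [extN_mul, mul_one]
  have h2 : a * H914.par (W.isInternal X) * H914.par (W.isInternal X) = a := by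
    rw [mul_assoc, par_mul_par, mul_one]
  have h3 := strL_ext (P := pw X n) v hv (a * H914.par (W.isInternal X)) b
  rw [h2] at h3
  exact h3

include hv in
/-- **The partial trace.** -/
theorem mc_strNL (n : ℕ) (a : Module.End W.K (W.H (pw X (n + 1)))) :
    mc v n (strNL W X n a) = trL (mc v (n + 1) a) := by
  -- both sides are additive and semilinear; reduce to external products
  let M := Matrix (Fin (n + 1) → ι) (Fin (n + 1) → ι) W.K
  let Φ : Module.End W.K (W.H (pw X (n + 1))) →ₗ[W.K] M :=
    (LinearMap.toMatrix (wb v n) (wb v n)).toLinearMap ∘ₗ strNL W X n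
  let Ψ : Module.End W.K (W.H (pw X (n + 1))) →ₗ[W.K] M :=
    { toFun := fun a I J => ∑ c : ι, LinearMap.toMatrix (wb v (n + 1)) (wb v (n + 1)) a
        (Fin.cons c I : Fin (n + 2) → ι) (Fin.cons c J : Fin (n + 2) → ι)
      map_add' := by
        intro a b
        ext I J
        rw [Matrix.add_apply, ← Finset.sum_add_distrib]
        refine Finset.sum_congr rfl fun c _ => ?_
        rw [map_add, Matrix.add_apply]
      map_smul' := by
        intro r a
        ext I J
        rw [Matrix.smul_apply, smul_eq_mul, Finset.mul_sum]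
        refine Finset.sum_congr rfl fun c _ => ?_
        rw [map_smul, Matrix.smul_apply, RingHom.id_apply, smul_eq_mul] }
  have key : Φ = Ψ := by
    refine extN_ext n fun a b => ?_
    ext I J
    have h4 : ∀ c, LinearMap.toMatrix (wb v (n + 1)) (wb v (n + 1)) (extN n a b)
        (Fin.cons c I : Fin (n + 2) → ι) (Fin.cons c J : Fin (n + 2) → ι) =
        v.repr (a (v c)) c * LinearMap.toMatrix (wb v n) (wb v n) b I J := by
      intro c
      rw [LinearMap.toMatrix_apply, LinearMap.toMatrix_apply, extN_wb, wb_repr_xp]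
      rfl
    have h3 : Φ (extN n a b) = LinearMap.trace W.K (W.H X) a •
        LinearMap.toMatrix (wb v n) (wb v n) b := by
      change LinearMap.toMatrix (wb v n) (wb v n) (strNL W X n (extN n a b)) = _
      rw [strNL_ext v hv, map_smul]
    rw [h3, Matrix.smul_apply, LinearMap.trace_eq_matrix_trace W.K v, Matrix.trace, smul_eq_mul,
      Finset.sum_mul]
    change _ = ∑ c : ι, LinearMap.toMatrix (wb v (n + 1)) (wb v (n + 1)) (extN n a b)
        (Fin.cons c I : Fin (n + 2) → ι) (Fin.cons c J : Fin (n + 2) → ι)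
    refine Finset.sum_congr rfl fun c _ => ?_
    rw [h4, Matrix.diag_apply, LinearMap.toMatrix_apply]
  ext I J
  have h7 : LinearMap.toMatrix (wb v n) (wb v n) (strNL W X n a) I J = ∑ c : ι,
        LinearMap.toMatrix (wb v (n + 1)) (wb v (n + 1)) a
        (Fin.cons c I : Fin (n + 2) → ι) (Fin.cons c J : Fin (n + 2) → ι) :=
    congrFun (congrFun (LinearMap.congr_fun key a) I) J
  rw [mc, Matrix.map_apply, h7, map_sum]
  rfl

end words

end Pool.Agent.E8helper1.TX
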