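import Pool.Agent.Y121.AHS.Defs
import Pool.Agent.Y121.AH.Defs
import Pool.Agent.E8helper1.TX.Wd

/-!
# Hodge theory with complex conjugation: definitions and statements
-/

open CategoryTheory AlgebraicGeometry

universe u

namespace Pool.Agent.E8helper1.TX

open Module
open Pool.Agent.H914 Pool.Agent.H914.VarClass Pool.Agent.H914.VarClass.Obj
  Pool.Agent.H914.WeilCohomology
open Pool.Agent.Y121.AHS (HL emL smL mulL mapL Types IsType SumsTo IsDirect RespMul RespMap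
  RespCyc)
open Pool.Agent.Y121.AH (em)
open Pool.Agent.Y129 (pw)

variable {k : Type u} [Field k] {𝒱 : VarClass k} {ops : CycleOps 𝒱}

/-- The complex conjugation. -/
noncomputable abbrev cc : ℂ →+* ℂ := starRingEnd ℂ

/-- The trace with complex coefficients. -/
noncomputable abbrev trC {W : WeilCohomology.{u, 0} ops} [Algebra W.K ℂ] {X : 𝒱.Obj}
    (x : HL W ℂ X) : ℂ := Pool.Agent.Y121.AHS.trL x

/-- A complex number as a coefficient. -/
abbrev cK (W : WeilCohomology.{u, 0} ops) [Algebra W.K ℂ] (c : ℂ) : (baseW W ℂ).K := c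

/-- The extension of an operator to complex coefficients. -/
noncomputable def bcO {W : WeilCohomology.{u, 0} ops} [Algebra W.K ℂ] {X Y : 𝒱.Obj}
    (s : W.H X →ₗ[W.K] W.H Y) : (baseW W ℂ).H X →ₗ[(baseW W ℂ).K] (baseW W ℂ).H Y :=
  (s.baseChange ℂ : TensorProduct W.K ℂ (W.H X) →ₗ[ℂ] TensorProduct W.K ℂ (W.H Y))

/-- The twisted complex conjugation `C⁻¹ o conj` (`C` is the Weil operator): an antilinear ring
automorphism of the cohomology with complex coefficients. -/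
structure TwConj (W : WeilCohomology.{u, 0} ops) [Algebra W.K ℂ] where
  /-- the conjugation -/
  J : ∀ Y : 𝒱.Obj, (baseW W ℂ).H Y → (baseW W ℂ).H Y
  map_add : ∀ (Y : 𝒱.Obj) (x y : (baseW W ℂ).H Y), J Y (x + y) = J Y x + J Y y
  map_smul : ∀ (Y : 𝒱.Obj) (c : (baseW W ℂ).K) (x : (baseW W ℂ).H Y),
    J Y (c • x) = cK W (cc c) • J Y x
  map_mul : ∀ (Y : 𝒱.Obj) (x y : (baseW W ℂ).H Y), J Y (x * y) = J Y x * J Y y
  map_pull : ∀ (Y Z : 𝒱.Obj) (f : Y ⟶ Z) (x : (baseW W ℂ).H Z),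
    J Y ((baseW W ℂ).map f x) = (baseW W ℂ).map f (J Z x)
  map_tr : ∀ (Y : 𝒱.Obj) (x : (baseW W ℂ).H Y),
    (baseW W ℂ).tr Y (J Y x) = cK W (cc ((baseW W ℂ).tr Y x))
  map_cyc : ∀ (Y : 𝒱.Obj) (z : Y.Cycles), J Y (em W ℂ (W.cl Y z)) = em W ℂ (W.cl Y z)
  map_gr : ∀ (Y : 𝒱.Obj) (i : ℕ) (x : (baseW W ℂ).H Y), x ∈ (baseW W ℂ).gr Y i →
    J Y x ∈ (baseW W ℂ).gr Y i

/-- **Piece STARJ**: the operators given by cycles commute with the twisted conjugation, in terms of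
matrices with respect to the basis of the words. -/
def S_STARJ : Prop := ∀ {k : Type u} [Field k] {𝒱 : VarClass k} {ops : CycleOps 𝒱}
  (W : WeilCohomology.{u, 0} ops) [Algebra W.K ℂ] (T : TwConj W) (X : 𝒱.Obj)
  {ι : Type} [Fintype ι] [DecidableEq ι] (v : Basis ι W.K (W.H X)) (jm : Matrix ι ι ℂ),
  (∀ i, T.J X (em W ℂ (v i)) = ∑ l, cK W (jm l i) • em W ℂ (v l)) →
  ∀ (n : ℕ) (z : ((pw X n).prod (pw X n)).Cycles),
    mc v n (W.corr (W.cl _ z)) * tpow jm (n + 1) =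
      tpow jm (n + 1) * (mc v n (W.corr (W.cl _ z))).map cc

section hodge

variable {W : WeilCohomology.{u, 0} ops} [Algebra W.K ℂ]

/-- The properties of the complex conjugation `cj`. -/
structure IsConjugation (pq : Types W) (cj : ∀ X : 𝒱.Obj, HL W ℂ X → HL W ℂ X) : Prop where
  add : ∀ (X : 𝒱.Obj) (x y : HL W ℂ X), cj X (x + y) = cj X x + cj X y
  smul : ∀ (X : 𝒱.Obj) (l : ℂ) (x : HL W ℂ X), cj X (smL l x) = smL (starRingEnd ℂ l) (cj X x)
  mul : ∀ (X : 𝒱.Obj) (x y : HL W ℂ X), cj X (mulL x y) = mulL (cj X x) (cj X y)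
  map : ∀ (X Y : 𝒱.Obj) (f : X ⟶ Y) (y : HL W ℂ Y), cj X (mapL f y) = mapL f (cj Y y)
  cyc : ∀ (X : 𝒱.Obj) (z : X.Cycles), cj X (emL W ℂ (W.cl X z)) = emL W ℂ (W.cl X z)
  tr : ∀ (X : 𝒱.Obj) (x : HL W ℂ X), trC (cj X x) = starRingEnd ℂ (trC x)
  type : ∀ (X : 𝒱.Obj) (p q : ℤ) (x : HL W ℂ X), IsType pq p q x → IsType pq q p (cj X x)

variable (W)

/-- The Hodge decomposition of the cohomology with complex coefficients: the spaces `pq X p q` of the
classes of type `(p, q)` and the complex conjugation `cj`. -/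
structure HodgeDec where
  /-- the spaces `H^(p,q)(X)` -/
  pq : Types W
  /-- the complex conjugation -/
  cj : ∀ X : 𝒱.Obj, HL W ℂ X → HL W ℂ X
  span : SumsTo pq
  indep : IsDirect pq
  mul : RespMul pq
  map : RespMap pq
  cyc : RespCyc pq
  top : ∀ (X : 𝒱.Obj) (p q : ℤ) (x : HL W ℂ X), IsType pq p q x → trC x ≠ 0 → p = q
  eff : ∀ (X : 𝒱.Obj) (p q : ℤ) (x : HL W ℂ X), IsType pq p q x → x ≠ 0 → 0 ≤ p ∧ 0 ≤ q
  conj : IsConjugation pq cj

variable {W}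

/-- The divisor `D` is a polarisation of `X`: its class satisfies the hard Lefschetz theorem and the
Hodge-Riemann relations. -/
def Polarizes (H : HodgeDec W) (X : 𝒱.Obj) (D : X.Cycles) : Prop :=
  X.IsCyc 1 D ∧ HardLefschetz W X D ∧
    ∀ (p q : ℕ) (x : HL W ℂ X), p + q ≤ X.dim → IsType H.pq p q x → x ≠ 0 →
      mulL (emL W ℂ (W.cl X D ^ (X.dim - (p + q) + 1))) x = 0 →
      ∃ r : ℝ, 0 < r ∧ (-1) ^ ((p + q) * (p + q - 1) / 2) * (Complex.I ^ p * (-Complex.I) ^ q) *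
        trC (mulL (emL W ℂ (W.cl X D ^ (X.dim - (p + q)))) (mulL x (H.cj X x))) = (r : ℂ)

end hodge

/-- **Piece HDG**: the twisted conjugation exists. -/
def S_HDG : Prop := ∀ {k : Type u} [Field k] {𝒱 : VarClass k} {ops : CycleOps 𝒱}
  (W : WeilCohomology.{u, 0} ops) [Algebra W.K ℂ] (H : HodgeDec W),
  ∃ T : TwConj W, ∀ (X : 𝒱.Obj) (p q : ℤ) (x : HL W ℂ X), IsType H.pq p q x →
    (T.J X x : HL W ℂ X) = smL (Complex.I ^ (p - q)) (H.cj X x)

/-- **Piece HRS**: the star operator. Here `T` is the twisted conjugation of piece HDG. -/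
def S_HRS : Prop := ∀ {k : Type u} [Field k] {𝒱 : VarClass k} {ops : CycleOps 𝒱}
  (W : WeilCohomology.{u, 0} ops) [Algebra W.K ℂ] (H : HodgeDec W) (T : TwConj W),
  (∀ (X : 𝒱.Obj) (p q : ℤ) (x : HL W ℂ X), IsType H.pq p q x →
    (T.J X x : HL W ℂ X) = smL (Complex.I ^ (p - q)) (H.cj X x)) →
  ∀ (X : 𝒱.Obj) (D : X.Cycles), Polarizes H X D →
  ∃ s : Module.End W.K (W.H X), s * s = 1 ∧
    (∀ f : Module.End W.K (W.H X), (∀ i, ∀ x ∈ W.gr X i, f x ∈ W.gr X i) →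
      (∀ x, f (W.cl X D * x) = W.cl X D * f x) → f * s = s * f) ∧
    ∀ x : (baseW W ℂ).H X, x ≠ 0 → ∃ r : ℝ, 0 < r ∧
      (baseW W ℂ).tr X (x * bcO s (T.J X x)) = cK W (r : ℂ)

end Pool.Agent.E8helper1.TX
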