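import Pool.Agent.E8helper1.TX.Fin1
import Pool.Agent.E8helper1.TX.JDefs
import Pool.Agent.Y121.AH.Fix

/-!
# The hermitian form in matrices
-/

open CategoryTheory AlgebraicGeometry

universe u v

namespace Pool.Agent.E8helper1.TX

open Module Matrix
open Pool.Agent.H914 Pool.Agent.H914.VarClass Pool.Agent.H914.VarClass.Obj
  Pool.Agent.H914.WeilCohomology Pool.Agent.H281R3.HT
open Pool.Agent.Y133.Half (Sys PH xp xp_def Ev Adj algSys)
open Pool.Agent.Y133.Half.Sys (mem_Op)
open Pool.Agent.Y121.AH (em)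
open Pool.Agent.Y129 (pw)
open scoped ComplexOrder

set_option linter.unusedSectionVars false

section herm

variable {n : Type} [Fintype n] [DecidableEq n]

/-- A complex matrix with positive quadratic form is positive definite. -/
theorem posDef_of_pos (M : Matrix n n ℂ) (h : ∀ x : n → ℂ, x ≠ 0 → 0 < star x ⬝ᵥ (M *ᵥ x)) :
    M.PosDef := by
  refine Matrix.PosDef.of_dotProduct_mulVec_pos ?_ (fun x hx => h x hx)
  have h1 : ∀ x : n → ℂ, (starRingEnd ℂ) (star x ⬝ᵥ (M *ᵥ x)) = star x ⬝ᵥ (M *ᵥ x) := by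
    intro x
    by_cases hx : x = 0
    · rw [hx, Matrix.mulVec_zero, dotProduct_zero, map_zero]
    · have h2 := h x hx
      rw [Complex.conj_eq_iff_im]
      have h3 := (Complex.lt_def.1 h2).2
      rw [← h3]
      rfl
  have h2 : ∀ x : n → ℂ, star x ⬝ᵥ ((Mᴴ - M) *ᵥ x) = 0 := by
    intro x
    have h3 : star x ⬝ᵥ (Mᴴ *ᵥ x) = (starRingEnd ℂ) (star x ⬝ᵥ (M *ᵥ x)) := by
      simp only [dotProduct, Matrix.mulVec, map_sum, map_mul, Finset.mul_sum, Pi.star_apply,
        Matrix.conjTranspose_apply, starRingEnd_apply, star_star]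
      rw [Finset.sum_comm]
      refine Finset.sum_congr rfl fun i _ => Finset.sum_congr rfl fun j _ => ?_
      ring
    rw [Matrix.sub_mulVec, dotProduct_sub, h3, h1, sub_self]
  have h4 : Mᴴ - M = 0 := by
    ext i j
    obtain ⟨N, hN⟩ : ∃ N, N = Mᴴ - M := ⟨_, rfl⟩
    rw [← hN] at h2 ⊢
    have hd : ∀ i, N i i = 0 := by
      intro i
      have h3 := h2 (Pi.single i 1)
      rw [Matrix.mulVec_single_one] at h3
      have h5 : star (Pi.single i (1 : ℂ) : n → ℂ) = Pi.single i 1 := by
        funext l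
        rw [Pi.star_apply]
        by_cases hl : l = i
        · subst hl; rw [Pi.single_eq_same, star_one]
        · rw [Pi.single_eq_of_ne hl, star_zero]
      rw [h5, single_one_dotProduct] at h3
      exact h3
    have hij : ∀ c : ℂ, (starRingEnd ℂ c) * N j i + c * N i j = 0 := by
      intro c
      have h3 := h2 (Pi.single i 1 + c • Pi.single j 1)
      have h5 : ∀ i, star (Pi.single i (1 : ℂ) : n → ℂ) = Pi.single i 1 := by
        intro i
        funext l
        rw [Pi.star_apply]
        by_cases hl : l = i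
        · subst hl; rw [Pi.single_eq_same, star_one]
        · rw [Pi.single_eq_of_ne hl, star_zero]
      rw [star_add, star_smul, h5, h5, Matrix.mulVec_add, Matrix.mulVec_smul,
        Matrix.mulVec_single_one, Matrix.mulVec_single_one, dotProduct_add, add_dotProduct,
        add_dotProduct, smul_dotProduct, dotProduct_smul, dotProduct_smul, smul_dotProduct,
        single_one_dotProduct, single_one_dotProduct, single_one_dotProduct,
        single_one_dotProduct] at h3
      simp only [Matrix.col_apply, smul_eq_mul, hd, mul_zero, zero_add, add_zero] at h3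
      rw [starRingEnd_apply]
      exact h3
    have e1 := hij 1
    have e2 := hij Complex.I
    rw [map_one, one_mul, one_mul] at e1
    rw [Complex.conj_I] at e2
    have e3 : N j i = -N i j := by linear_combination e1
    rw [e3] at e2
    have e4 : (2 * Complex.I) * N i j = 0 := by linear_combination e2
    exact (mul_eq_zero.1 e4).resolve_left (mul_ne_zero two_ne_zero Complex.I_ne_zero)
  exact sub_eq_zero.1 h4

end herm

variable {k : Type u} [Field k] {𝒱 : VarClass k} {ops : CycleOps 𝒱}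
  {W : WeilCohomology.{u, 0} ops} [Algebra W.K ℂ] {X : 𝒱.Obj}
  {ι : Type} [Fintype ι] [DecidableEq ι] (v : Basis ι W.K (W.H X))

/-- The basis of the cohomology with complex coefficients. -/
noncomputable def vC : Basis ι (baseW W ℂ).K ((baseW W ℂ).H X) := (v.baseChange ℂ : Basis ι ℂ _)

theorem vC_apply (i : ι) : vC v i = em W ℂ (v i) := Basis.baseChange_apply _ _ _

/-- The matrix of the twisted conjugation. -/
noncomputable def jmat (T : TwConj W) : Matrix ι ι ℂ := fun l i =>
  (vC v).repr (T.J X (em W ℂ (v i))) l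

theorem jmat_spec (T : TwConj W) (i : ι) :
    T.J X (em W ℂ (v i)) = ∑ l, cK W (jmat v T l i) • em W ℂ (v l) := by
  conv_lhs => rw [← (vC v).sum_repr (T.J X (em W ℂ (v i)))]
  refine Finset.sum_congr rfl fun l _ => ?_
  rw [vC_apply]
  rfl

theorem J_zero (T : TwConj W) : T.J X (0 : (baseW W ℂ).H X) = 0 := by
  have h1 := T.map_add X 0 0
  rw [add_zero] at h1
  exact (left_eq_add.1 h1)

theorem J_sum (T : TwConj W) {α : Type} (s : Finset α) (f : α → (baseW W ℂ).H X) :
    T.J X (∑ i ∈ s, f i) = ∑ i ∈ s, T.J X (f i) := by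
  classical
  induction s using Finset.induction_on with
  | empty => rw [Finset.sum_empty, Finset.sum_empty, J_zero]
  | insert a s ha ih => rw [Finset.sum_insert ha, Finset.sum_insert ha, T.map_add, ih]

/-- The trace pairing with complex coefficients. -/
theorem tr_em_mul (i j : ι) : (baseW W ℂ).tr X (em W ℂ (v i) * em W ℂ (v j)) =
    cK W (BC v i j) := by
  rw [← Pool.Agent.Y121.AH.em_mul, Pool.Agent.Y121.AH.em_tr]
  rfl

theorem bcO_em (s : Module.End W.K (W.H X)) (j : ι) :
    bcO s (em W ℂ (v j)) = ∑ l, cK W (m1 v s l j) • em W ℂ (v l) := by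
  have h1 : bcO s (em W ℂ (v j)) = em W ℂ (s (v j)) := LinearMap.baseChange_tmul _ _ _
  rw [h1]
  conv_lhs => rw [← v.sum_repr (s (v j))]
  have h2 : ∀ (t : Finset ι) (c : ι → W.K), em W ℂ (∑ l ∈ t, c l • v l) =
      ∑ l ∈ t, cK W (algebraMap W.K ℂ (c l)) • em W ℂ (v l) := by
    intro t c
    induction t using Finset.induction_on with
    | empty => rw [Finset.sum_empty, Finset.sum_empty, Pool.Agent.Y121.AH.em_zero]
    | insert a t ha ih =>
      rw [Finset.sum_insert ha, Finset.sum_insert ha, Pool.Agent.Y121.AH.em_add, ih,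
        Pool.Agent.Y121.AH.em_smul]
      rfl
  rw [h2]
  refine Finset.sum_congr rfl fun l _ => ?_
  rw [m1_apply]

/-- The hermitian form in coordinates. -/
theorem herm_coord (T : TwConj W) (s : Module.End W.K (W.H X)) (x : ι → ℂ) :
    (baseW W ℂ).tr X ((∑ i, cK W (x i) • em W ℂ (v i)) *
      bcO s (T.J X (∑ i, cK W (x i) • em W ℂ (v i)))) =
        cK W (star x ⬝ᵥ (Qm v s (jmat v T) *ᵥ x)) := by
  have h1 : bcO s (T.J X (∑ i, cK W (x i) • em W ℂ (v i))) =
      ∑ i, ∑ l, ∑ m, cK W (cc (x i) * jmat v T l i * m1 v s m l) • em W ℂ (v m) := by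
    rw [J_sum, map_sum]
    refine Finset.sum_congr rfl fun i _ => ?_
    rw [T.map_smul, jmat_spec, map_smul, map_sum, Finset.smul_sum]
    refine Finset.sum_congr rfl fun l _ => ?_
    rw [map_smul, bcO_em, Finset.smul_sum, Finset.smul_sum]
    refine Finset.sum_congr rfl fun m _ => ?_
    rw [smul_smul, smul_smul]
    rfl
  rw [h1, Finset.sum_mul, map_sum]
  have h2 : ∀ a, (baseW W ℂ).tr X (cK W (x a) • em W ℂ (v a) *
      ∑ i, ∑ l, ∑ m, cK W (cc (x i) * jmat v T l i * m1 v s m l) • em W ℂ (v m)) =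
      ∑ i, ∑ l, ∑ m, cK W (x a * (cc (x i) * jmat v T l i * m1 v s m l) * BC v a m) := by
    intro a
    simp only [Finset.mul_sum, map_sum, smul_mul_smul_comm, map_smul, tr_em_mul, smul_eq_mul]
    rfl
  rw [Finset.sum_congr rfl fun a _ => h2 a]
  change ∑ a, ∑ i, ∑ l, ∑ m, (x a * (cc (x i) * jmat v T l i * m1 v s m l) * BC v a m : ℂ) = _
  change _ = star x ⬝ᵥ (Qm v s (jmat v T) *ᵥ x)
  simp only [dotProduct, Matrix.mulVec, Qm, Matrix.transpose_apply, Matrix.mul_apply,
    Finset.mul_sum, Finset.sum_mul, Pi.star_apply]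
  rw [Finset.sum_comm]
  refine Finset.sum_congr rfl fun i _ => Finset.sum_congr rfl fun a _ => ?_
  refine Finset.sum_congr rfl fun l _ => Finset.sum_congr rfl fun m _ => ?_
  rw [cc, starRingEnd_apply]
  ring

/-- **The hermitian form is positive definite.** -/
theorem Qm_posDef (T : TwConj W) (s : Module.End W.K (W.H X))
    (hs : ∀ x : (baseW W ℂ).H X, x ≠ 0 → ∃ r : ℝ, 0 < r ∧
      (baseW W ℂ).tr X (x * bcO s (T.J X x)) = cK W (r : ℂ)) : (Qm v s (jmat v T)).PosDef := by
  refine posDef_of_pos _ fun x hx => ?_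
  have h0 : (∑ i, cK W (x i) • em W ℂ (v i) : (baseW W ℂ).H X) ≠ 0 := by
    intro h1
    apply hx
    have h2 : (∑ i, cK W (x i) • vC v i) = 0 := by
      rw [← h1]
      exact Finset.sum_congr rfl fun i _ => by rw [vC_apply]
    funext i
    have h3 := DFunLike.congr_fun (congrArg (vC v).repr h2) i
    rw [map_zero] at h3
    have h4 := congrFun ((vC v).repr_sum_self fun i => cK W (x i)) i
    exact h4.symm.trans h3
  obtain ⟨r, hr, h1⟩ := hs _ h0
  rw [herm_coord] at h1
  have h2 : star x ⬝ᵥ (Qm v s (jmat v T) *ᵥ x) = (r : ℂ) := h1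
  rw [h2]
  exact_mod_cast hr

end Pool.Agent.E8helper1.TX
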