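import Pool.Agent.E8helper1.TX.Fin2

/-!
# The theorem for Tate classes, if the normalized action exists
-/

open CategoryTheory AlgebraicGeometry

universe u v

namespace Pool.Agent.E8helper1.TX

open Module Matrix
open Pool.Agent.H914 Pool.Agent.H914.VarClass Pool.Agent.H914.VarClass.Obj
  Pool.Agent.H914.WeilCohomology Pool.Agent.H281R3.HT
open Pool.Agent.Y133.Half (Sys PH xp xp_def Ev Adj algSys)
open Pool.Agent.Y133.Half.Sys (mem_Op)
open Pool.Agent.Y121.AH (em)
open Pool.Agent.Y129 (pw pj PowerAction TG tateClasses)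
open scoped ComplexOrder

set_option linter.unusedSectionVars false

section parity

variable {k : Type u} [Field k] {𝒱 : VarClass k} {ops : CycleOps 𝒱}
  {W : WeilCohomology.{u, 0} ops} [Algebra W.K ℂ] {X : 𝒱.Obj}
  {ι : Type} [Fintype ι] [DecidableEq ι] (v : Basis ι W.K (W.H X)) {dg : ι → ℕ}
  (hv : ∀ i, v i ∈ W.gr X (dg i))

include hv in
theorem m1_par : m1 v (H914.par (W.isInternal X)) = diagonal fun i => (-1 : ℂ) ^ dg i := by
  ext i j
  rw [m1_apply, PH.par (PH.of (hv j)), map_smul, Basis.repr_self, Finsupp.smul_apply,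
    Matrix.diagonal_apply, Finsupp.single_apply, smul_eq_mul]
  by_cases hij : j = i
  · subst hij
    rw [if_pos rfl, if_pos rfl, mul_one, map_pow, map_neg, map_one]
  · rw [if_neg hij, if_neg (Ne.symm hij), mul_zero, map_zero]

include hv in
theorem jmat_par (T : TwConj W) {l i : ι} (hl : jmat v T l i ≠ 0) :
    (-1 : ℂ) ^ dg l = (-1) ^ dg i := by
  have h1 : em W ℂ (v i) ∈ (baseW W ℂ).gr X (dg i) := Pool.Agent.Y121.AH.em_gr (hv i)
  have h2 := PH.par (PH.of (T.map_gr X _ _ h1))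
  have h3 : ∀ l, H914.par ((baseW W ℂ).isInternal X) (vC v l) =
      (-1 : (baseW W ℂ).K) ^ dg l • vC v l := by
    intro l
    rw [vC_apply]
    exact PH.par (PH.of (Pool.Agent.Y121.AH.em_gr (hv l)))
  have h4 : T.J X (em W ℂ (v i)) = ∑ l, cK W (jmat v T l i) • vC v l := by
    rw [jmat_spec v T i]
    exact Finset.sum_congr rfl fun l _ => by rw [vC_apply]
  rw [h4, map_sum, Finset.smul_sum] at h2
  simp only [map_smul, h3, smul_smul] at h2
  have h5 := DFunLike.congr_fun (congrArg (vC v).repr h2) l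
  have h6 := congrFun ((vC v).repr_sum_self fun l => cK W (jmat v T l i) *
    (-1 : (baseW W ℂ).K) ^ dg l) l
  have h7 := congrFun ((vC v).repr_sum_self fun l => (-1 : (baseW W ℂ).K) ^ dg i *
    cK W (jmat v T l i)) l
  have h8 : (jmat v T l i * (-1 : ℂ) ^ dg l : ℂ) = (-1 : ℂ) ^ dg i * jmat v T l i :=
    h6.symm.trans (h5.trans h7)
  rw [mul_comm] at h8
  exact mul_right_cancel₀ hl h8

include hv in
/-- The hermitian form and the parity. -/
theorem par_Qm (T : TwConj W) {s : Module.End W.K (W.H X)}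
    (hs : s * H914.par (W.isInternal X) = H914.par (W.isInternal X) * s) :
    (m1 v (H914.par (W.isInternal X)))ᴴ * Qm v s (jmat v T) =
      Qm v s (jmat v T) * m1 v (H914.par (W.isInternal X)) := by
  set P := m1 v (H914.par (W.isInternal X)) with hP
  have hPd : P = diagonal fun i => (-1 : ℂ) ^ dg i := m1_par v hv
  have hPT : Pᵀ = P := by rw [hPd, Matrix.diagonal_transpose]
  have hPH : Pᴴ = P := by
    rw [hPd, Matrix.diagonal_conjTranspose]
    congr 1
    funext i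
    rw [Pi.star_apply, star_pow, star_neg, star_one]
  have h1 : BC v * P = P * BC v := by
    ext i j
    rw [hPd, Matrix.mul_diagonal, Matrix.diagonal_mul]
    by_cases h : Bm v i j = 0
    · have h2 : BC v i j = 0 := by rw [BC, Matrix.map_apply, h, map_zero]
      rw [h2, zero_mul, mul_zero]
    · have h2 := Bm_par v hv h
      have h3 : (-1 : ℂ) ^ dg i = (-1) ^ dg j := by
        rw [neg_one_pow_eq_pow_mod_two, h2, ← neg_one_pow_eq_pow_mod_two]
      rw [h3, mul_comm]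
  have h2 : m1 v s * P = P * m1 v s := by
    rw [hP, ← m1_mul, ← m1_mul, hs]
  have h3 : jmat v T * P = P * jmat v T := by
    ext l i
    rw [hPd, Matrix.mul_diagonal, Matrix.diagonal_mul]
    by_cases h : jmat v T l i = 0
    · rw [h, zero_mul, mul_zero]
    · rw [jmat_par v hv T h, mul_comm]
  rw [hPH]
  have h4 : P * (BC v * m1 v s * jmat v T) = BC v * m1 v s * jmat v T * P := by
    calc P * (BC v * m1 v s * jmat v T) = (P * BC v) * m1 v s * jmat v T := by
          simp only [Matrix.mul_assoc]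
      _ = BC v * (P * m1 v s) * jmat v T := by rw [← h1]; simp only [Matrix.mul_assoc]
      _ = BC v * m1 v s * (P * jmat v T) := by rw [← h2]; simp only [Matrix.mul_assoc]
      _ = BC v * m1 v s * jmat v T * P := by rw [← h3]; simp only [Matrix.mul_assoc]
  have h5 := congrArg Matrix.transpose h4
  rw [Matrix.transpose_mul, Matrix.transpose_mul _ P, hPT] at h5
  exact h5.symm

end parity

section cyc

variable {k : Type u} [Field k] {𝒱 : VarClass k} {ops : CycleOps 𝒱}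
  {W : WeilCohomology.{u, 0} ops} [Algebra W.K ℂ] {X : 𝒱.Obj}
  {ι : Type} [Fintype ι] [DecidableEq ι] (v : Basis ι W.K (W.H X))

/-- The algebraic operators are combinations of operators which commute with the twisted
conjugation. -/
theorem jcomm_span (hSJ : S_STARJ.{u}) (T : TwConj W) (n : ℕ)
    {a : Module.End W.K (W.H (pw X n))} (ha : a ∈ (algSys W).Op (pw X n) (pw X n)) :
    a ∈ Submodule.span W.K {b | b ∈ (algSys W).Op (pw X n) (pw X n) ∧ JComm v (jmat v T) n b} := by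
  obtain ⟨c, hc, rfl⟩ := mem_Op.1 ha
  refine Submodule.span_induction (p := fun c _ => W.corr (X := pw X n) (Y := pw X n) c ∈
    Submodule.span W.K {b | b ∈ (algSys W).Op (pw X n) (pw X n) ∧ JComm v (jmat v T) n b})
    ?_ ?_ ?_ ?_ hc
  · intro c hc
    obtain ⟨j, hj⟩ := Set.mem_iUnion.1 hc
    obtain ⟨z, hz, rfl⟩ := hj
    refine Submodule.subset_span ⟨?_, ?_⟩
    · exact Sys.Op.corr (S := algSys W) (Submodule.subset_span hc)
    · exact hSJ W T X v (jmat v T) (jmat_spec v T) n z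
  · have h0 : W.corr (X := pw X n) (Y := pw X n) 0 = 0 := corr_zero W
    rw [h0]
    exact zero_mem _
  · intro c d _ _ h1 h2
    rw [W.corr_add]
    exact add_mem h1 h2
  · intro r c _ h1
    rw [W.corr_smul]
    exact Submodule.smul_mem _ _ h1

end cyc

section main

variable {k : Type u} [Field k] {𝒱 : VarClass k} {ops : CycleOps 𝒱}
  {W : WeilCohomology.{u, 0} ops} {X : 𝒱.Obj} {Γ : Type} [Group Γ] {χ : Γ →* W.Kˣ}
  {ρ : ∀ n, Γ →* (W.H (pw X n) ≃ₐ[W.K] W.H (pw X n))} {θ : Γ →* W.Kˣ}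

/-- There is no part of type IV: a skew element of the centre of the algebra of the Tate classes on
`X × X` is zero. -/
def NoTypeIV (χ : Γ →* W.Kˣ) (ρ : ∀ n, Γ →* (W.H (pw X n) ≃ₐ[W.K] W.H (pw X n))) : Prop :=
  ∀ a : Module.End W.K (W.H X), IsTateOp χ ρ a → (∀ b, IsTateOp χ ρ b → a * b = b * a) →
    (∀ x y, W.tr X (a x * y) = -W.tr X (x * a y)) → a = 0

variable {ℓ : ℕ} [Fact ℓ.Prime] (φ : W.K ≃+* ℚ_[ℓ]) (h : PowerAction W X χ ρ)
  (hθ : ∀ g, θ g ^ 2 = χ g) [Nontrivial (W.H X)]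
  {ι : Type} [Fintype ι] [DecidableEq ι] (v : Basis ι W.K (W.H X)) {dg : ι → ℕ}
  (hv : ∀ i, v i ∈ W.gr X (dg i))

theorem noSkew (hIV : NoTypeIV χ ρ)
    (hlat : ∀ g i j, ‖φ (v.repr (ρ 0 g (v j)) i)‖ ≤ 1)
    (hθ1 : ∀ g, ‖φ ((θ g : W.Kˣ) : W.K)‖ = 1) (hSSG : S_SSG) (hss : SemisimpleH ρ) :
    (galData v φ hv h hθ hlat hθ1 hSSG hss).NoSkew := by
  intro z hz1 hz2 hz3
  obtain ⟨z, rfl⟩ : ∃ z', mapφ φ z' = z := ⟨_, mapφ_symm φ z⟩
  have e1 : ∀ z, IsPot (Rq v φ h θ) (mapφ φ (p0 v)) (mapφ φ z) ↔ IsPot (R0 v h θ) (p0 v) z :=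
    fun z => IsPot_trφ φ (R0 v h θ) (p0 v) (Rq v φ h θ) (fun g => rfl) z
  obtain ⟨a, ha, rfl⟩ := (isPot_iff v h hθ z).1 ((e1 z).1 hz1)
  have h1 : ∀ b, IsTateOp χ ρ b → a * b = b * a := by
    intro b hb
    have h2 := hz2 (mapφ φ (LinearMap.toMatrix v v b))
      ((e1 _).2 ((isPot_iff v h hθ _).2 ⟨b, hb, rfl⟩))
    rw [← mapφ_mul, ← mapφ_mul] at h2
    have h3 := mapφ_injective φ h2
    rw [← LinearMap.toMatrix_mul, ← LinearMap.toMatrix_mul] at h3
    exact (LinearMap.toMatrix v v).injective h3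
  have h2 : (LinearMap.toMatrix v v a)ᵀ * Bm v = -(Bm v * LinearMap.toMatrix v v a) := by
    apply mapφ_injective φ
    have h3 : mapφ φ (-(Bm v * LinearMap.toMatrix v v a)) =
        -(mapφ φ (Bm v) * mapφ φ (LinearMap.toMatrix v v a)) := by
      rw [← mapφ_mul]
      ext i j
      exact map_neg φ _
    rw [mapφ_mul, h3]
    exact hz3
  have h3 : ∀ i j, W.tr X (a (v i) * v j) = -W.tr X (v i * a (v j)) := by
    intro i j
    have e2 := form_mul v a 1 i j
    have e3 := form_mul v 1 a i j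
    rw [LinearMap.toMatrix_one, Matrix.mul_one, h2] at e2
    rw [LinearMap.toMatrix_one, Matrix.transpose_one, Matrix.one_mul] at e3
    rw [Matrix.neg_apply, e3] at e2
    simp only [Module.End.one_apply] at e2
    rw [← e2]
  have h4 : a = 0 := by
    refine hIV a ha h1 fun x y => ?_
    have e2 : ∀ x y, W.tr X (a x * y) + W.tr X (x * a y) = 0 := by
      intro x y
      rw [← v.sum_repr x, ← v.sum_repr y]
      simp only [map_sum, map_smul, Finset.sum_mul, Finset.mul_sum, smul_mul_smul_comm]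
      rw [← Finset.sum_add_distrib]
      refine Finset.sum_eq_zero fun i _ => ?_
      rw [← Finset.sum_add_distrib]
      refine Finset.sum_eq_zero fun j _ => ?_
      rw [← smul_add, h3, neg_add_cancel, smul_zero]
    exact eq_neg_of_add_eq_zero_left (e2 x y)
  rw [h4, map_zero]
  ext i j
  exact map_zero φ

/-- **The theorem, if the normalized action exists.** -/
theorem core_tate [Algebra W.K ℂ] (hSJ : S_STARJ.{u}) (hSSG : S_SSG) (hASM : S_ASM)
    (h : PowerAction W X χ ρ) (hθ : ∀ g, θ g ^ 2 = χ g)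
    (hv : ∀ i, v i ∈ W.gr X (dg i)) (hIV : NoTypeIV χ ρ)
    (hlat : ∀ g i j, ‖φ (v.repr (ρ 0 g (v j)) i)‖ ≤ 1)
    (hθ1 : ∀ g, ‖φ ((θ g : W.Kˣ) : W.K)‖ = 1) (hss : SemisimpleH ρ) (T : TwConj W)
    {s : Module.End W.K (W.H X)} (hs2 : s * s = 1)
    (hsc : ∃ Δ : Subgroup Γ, Δ.FiniteIndex ∧ ∀ g ∈ Δ, s * nu0 ρ θ g = nu0 ρ θ g * s)
    (hsp : s * H914.par (W.isInternal X) = H914.par (W.isInternal X) * s)
    (hpos : ∀ x : (baseW W ℂ).H X, x ≠ 0 → ∃ r : ℝ, 0 < r ∧
      (baseW W ℂ).tr X (x * bcO s (T.J X x)) = cK W (r : ℂ)) :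
    (TG W X χ ρ 3 ≤ algSpan W (pw X 3) → ∀ n, finrank W.K (TG W X χ ρ (n + n + 1)) ≤
      (2 * finrank W.K (W.H X) + 1) ^ (2 * finrank W.K (W.H X) ^ 2) *
        finrank W.K (algSpan W (pw X (n + n + 1)))) ∧
    ∀ m : ℕ, 1 ≤ m → 2 * (finrank W.K (W.H X) : ℝ) ^ 3 * Real.log (3 * finrank W.K (W.H X)) ≤
      (m + 1 : ℕ) → TG W X χ ρ (m + m + 1) ≤ algSpan W (pw X (m + m + 1)) →
      ∀ n, TG W X χ ρ n ≤ algSpan W (pw X n) := by
  have hb : Fintype.card ι = finrank W.K (W.H X) := (Module.finrank_eq_card_basis v).symm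
  rw [← hb]
  -- the general situation
  have key : TG W X χ ρ 1 ≤ algSpan W (pw X 1) →
      (PotOp (galData v φ hv h hθ hlat hθ1 hSSG hss).R (galData v φ hv h hθ hlat hθ1 hSSG hss).p 2 ≤
        trφ φ (SK v (algSys W) 2) → ∀ m, finrank ℚ_[ℓ] (trφ φ (PotOp (R0 v h θ) (p0 v) m)) ≤
        (2 * Fintype.card ι + 1) ^ (2 * Fintype.card ι ^ 2) *
          finrank ℚ_[ℓ] (trφ φ (SK v (algSys W) m))) ∧
      (Nonempty ι → ∀ m : ℕ, 2 ≤ m →
        2 * (Fintype.card ι : ℝ) ^ 3 * Real.log (3 * Fintype.card ι) ≤ m →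
        trφ φ (PotOp (R0 v h θ) (p0 v) m) ≤ trφ φ (SK v (algSys W) m) →
        ∀ j, trφ φ (PotOp (R0 v h θ) (p0 v) j) = trφ φ (SK v (algSys W) j)) := by
    intro hT1
    have hp : H914.par (W.isInternal X) ∈ (algSys W).Op X X :=
      op_of_pot h hθ hT1 ⟨⊤, inferInstance, fun g _ => par_nu0 h g⟩ rfl
    have hs : s ∈ (algSys W).Op X X := op_of_pot h hθ hT1 hsc hsp
    letI : Algebra ℚ_[ℓ] ℂ := ((algebraMap W.K ℂ).comp (φ.symm : ℚ_[ℓ] →+* W.K)).toAlgebra
    have halg : ∀ x : W.K, algebraMap ℚ_[ℓ] ℂ (φ x) = algebraMap W.K ℂ x := by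
      intro x
      change algebraMap W.K ℂ (φ.symm (φ x)) = _
      rw [RingEquiv.symm_apply_apply]
    have hQ : (Qm v s (jmat v T)).PosDef := Qm_posDef v T s hpos
    have hQu : IsUnit (Qm v s (jmat v T)).det := by
      rw [isUnit_iff_ne_zero]
      exact hQ.det_pos.ne'
    have hPO : ∀ m, PotOp (Rq v φ h θ) (mapφ φ (p0 v)) m = trφ φ (PotOp (R0 v h θ) (p0 v) m) :=
      fun m => PotOp_trφ φ (R0 v h θ) (p0 v) (Rq v φ h θ) (fun g => rfl) m
    have hpm : (mapφ φ (p0 v)).map (algebraMap ℚ_[ℓ] ℂ) = m1 v (H914.par (W.isInternal X)) := by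
      ext i j
      exact halg _
    have hA := hASM ℓ ι Γ (galData v φ hv h hθ hlat hθ1 hSSG hss)
      (noSkew φ h hθ v hv hIV hlat hθ1 hSSG hss)
      (fun m => trφ φ (SK v (algSys W) m)) (psys0 v (algSys W) hv hp)
      (fun m => by
        rw [bcM_trφ φ halg]
        exact SB_eq_bcM v (algSys W) m)
      (Qm v s (jmat v T)) hQ
      (fun m A hA => SB_star v hv (algSys W) hp hs hs2 (fun n a ha => jcomm_span v hSJ T n ha)
        hQu m A hA)
      (by
        have h1 : (galData v φ hv h hθ hlat hθ1 hSSG hss).p = mapφ φ (p0 v) := rfl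
        rw [h1, hpm]
        exact par_Qm v hv T hsp)
      (fun m => by
        have h1 : PotOp (galData v φ hv h hθ hlat hθ1 hSSG hss).R
          (galData v φ hv h hθ hlat hθ1 hSSG hss).p m = trφ φ (PotOp (R0 v h θ) (p0 v) m) := hPO m
        rw [h1]
        exact trφ_le φ (SK_le v h hθ m))
    have h2 : ∀ m, PotOp (galData v φ hv h hθ hlat hθ1 hSSG hss).R
      (galData v φ hv h hθ hlat hθ1 hSSG hss).p m = trφ φ (PotOp (R0 v h θ) (p0 v) m) := hPO
    obtain ⟨hA1, hA2⟩ := hA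
    constructor
    · intro h3 m
      have h4 := hA1 h3 m
      rw [h2] at h4
      exact h4
    · intro hne m hm1 hm hle j
      have h4 := hA2 hne m hm1 hm (by rw [h2]; exact hle) j
      rw [h2] at h4
      exact h4
  have h2 : ∀ m, PotOp (galData v φ hv h hθ hlat hθ1 hSSG hss).R
      (galData v φ hv h hθ hlat hθ1 hSSG hss).p m = trφ φ (PotOp (R0 v h θ) (p0 v) m) :=
    fun m => PotOp_trφ φ (R0 v h θ) (p0 v) (Rq v φ h θ) (fun g => rfl) m
  constructor
  · intro hT n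
    have h3 := (key (TG_down h (by omega) hT)).1 (by
      rw [h2]
      exact trφ_le φ ((PotOp_le_iff v h hθ 1).2 hT)) (n + 1)
    rw [finrank_trφ, finrank_trφ, finrank_PotOp v h hθ, finrank_SK] at h3
    exact h3
  · intro m hm1 hm hT n
    have hne : Nonempty ι := by
      by_contra hne
      rw [not_nonempty_iff] at hne
      have h3 : Subsingleton (W.H X) := by
        have h4 := (v.repr.toEquiv.trans Finsupp.equivFunOnFinite).injective
        exact h4.subsingleton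
      exact not_subsingleton (W.H X) h3
    have h3 := (key (TG_down h (by omega) hT)).2 hne (m + 1) (by omega) hm
      (trφ_le φ ((PotOp_le_iff v h hθ m).2 hT)) (n + 1)
    have h4 := le_of_trφ φ h3.le
    exact TG_down h (by omega) ((PotOp_le_iff v h hθ n).1 h4)

end main

end Pool.Agent.E8helper1.TX
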