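import Pool.Agent.E8helper1.TX.Fin3

/-!
# Restriction to a subgroup of finite index
-/

open CategoryTheory AlgebraicGeometry

universe u v

namespace Pool.Agent.E8helper1.TX

open Module Matrix
open Pool.Agent.H914 Pool.Agent.H914.VarClass Pool.Agent.H914.VarClass.Obj
  Pool.Agent.H914.WeilCohomology Pool.Agent.H281R3.HT
open Pool.Agent.Y133.Half (Sys PH xp xp_def Ev Adj algSys)
open Pool.Agent.Y129 (pw pj PowerAction TG tateClasses)
open Pool.Agent.TH125.Gal (IsGaloisAct Intertwines)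

set_option linter.unusedSectionVars false

theorem finiteIndex_map {G : Type} [Group G] (H : Subgroup G) (hH : H.FiniteIndex)
    (K : Subgroup H) (hK : K.FiniteIndex) : (K.map H.subtype).FiniteIndex := by
  constructor
  rw [Subgroup.index_map_subtype]
  exact mul_ne_zero hK.index_ne_zero hH.index_ne_zero

section tate

variable {K : Type*} [Field K] {A : Type*} [Ring A] [Algebra K A] {Γ : Type} [Group Γ]

theorem tateClasses_restrict (Δ : Subgroup Γ) (hΔ : Δ.FiniteIndex) (χ : Γ →* Kˣ)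
    (gr : ℕ → Submodule K A) (ρ : Γ →* (A ≃ₐ[K] A)) (j : ℕ) :
    tateClasses (χ.comp Δ.subtype) gr (ρ.comp Δ.subtype) j = tateClasses χ gr ρ j := by
  ext c
  constructor
  · rintro ⟨hc, Δ', hΔ', h⟩
    refine ⟨hc, Δ'.map Δ.subtype, finiteIndex_map Δ hΔ Δ' hΔ', ?_⟩
    rintro _ ⟨g, hg, rfl⟩
    exact h g hg
  · rintro ⟨hc, Δ', hΔ', h⟩
    refine ⟨hc, Δ'.subgroupOf Δ, inferInstance, fun g hg => ?_⟩
    exact h g (Subgroup.mem_subgroupOf.1 hg)

end tate

variable {k : Type u} [Field k] {𝒱 : VarClass k} {ops : CycleOps 𝒱}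
  {W : WeilCohomology.{u, 0} ops} {X : 𝒱.Obj} {Γ : Type} [Group Γ] {χ : Γ →* W.Kˣ}
  {ρ : ∀ n, Γ →* (W.H (pw X n) ≃ₐ[W.K] W.H (pw X n))}

/-- The restricted action. -/
noncomputable def rres (ρ : ∀ n, Γ →* (W.H (pw X n) ≃ₐ[W.K] W.H (pw X n))) (Δ : Subgroup Γ) :
    ∀ n, Δ →* (W.H (pw X n) ≃ₐ[W.K] W.H (pw X n)) := fun n => (ρ n).comp Δ.subtype

theorem power_restrict (h : PowerAction W X χ ρ) (Δ : Subgroup Γ) :
    PowerAction W X (χ.comp Δ.subtype) (rres ρ Δ) where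
  galois n :=
    { gr_mem := fun g => (h.galois n).gr_mem g
      tr_act := fun g => (h.galois n).tr_act g
      cl_act := fun g => (h.galois n).cl_act g
      cl_fix := fun j c hc => by
        obtain ⟨Δ', hΔ', h1⟩ := (h.galois n).cl_fix j c hc
        exact ⟨Δ'.subgroupOf Δ, inferInstance, fun g hg =>
          h1 g (Subgroup.mem_subgroupOf.1 hg)⟩ }
  proj n i := fun g => h.proj n i g

theorem TG_restrict (Δ : Subgroup Γ) (hΔ : Δ.FiniteIndex) (n : ℕ) :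
    TG W X (χ.comp Δ.subtype) (rres ρ Δ) n = TG W X χ ρ n := by
  unfold TG
  congr 1
  funext j
  exact tateClasses_restrict Δ hΔ χ _ (ρ n) j

theorem isTateOp_restrict (Δ : Subgroup Γ) (hΔ : Δ.FiniteIndex) (a : Module.End W.K (W.H X)) :
    IsTateOp (χ.comp Δ.subtype) (rres ρ Δ) a ↔ IsTateOp χ ρ a := by
  unfold IsTateOp
  have h1 : (⨆ j, tateClasses (χ.comp Δ.subtype) (W.gr (pw X 1)) (rres ρ Δ 1) j) =
      ⨆ j, tateClasses χ (W.gr (pw X 1)) (ρ 1) j := TG_restrict Δ hΔ 1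
  rw [h1]

theorem noTypeIV_restrict (Δ : Subgroup Γ) (hΔ : Δ.FiniteIndex) (h : NoTypeIV χ ρ) :
    NoTypeIV (χ.comp Δ.subtype) (rres ρ Δ) := by
  intro a ha hc
  refine h a ((isTateOp_restrict Δ hΔ a).1 ha) fun b hb => ?_
  exact hc b ((isTateOp_restrict Δ hΔ b).2 hb)

theorem semisimple_restrict (Δ : Subgroup Γ) (hΔ : Δ.FiniteIndex) (h : SemisimpleH ρ) :
    SemisimpleH (rres ρ Δ) := by
  intro Δ' hΔ' i U hU hst
  obtain ⟨U', h1, h2, h3, h4⟩ := h (Δ'.map Δ.subtype) (finiteIndex_map Δ hΔ Δ' hΔ') i U hU (by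
    rintro _ ⟨g, hg, rfl⟩ u hu
    exact hst g hg u hu)
  refine ⟨U', h1, fun g hg u hu => ?_, h3, h4⟩
  exact h2 g ⟨g, hg, rfl⟩ u hu

end Pool.Agent.E8helper1.TX
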