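import Pool.Agent.E8helper1.TX.Hen

/-!
# The theorem for Tate classes
-/

open CategoryTheory AlgebraicGeometry Filter Topology

open scoped ENNReal

universe u v

namespace Pool.Agent.E8helper1.TX

open Module Matrix
open Pool.Agent.H914 Pool.Agent.H914.VarClass Pool.Agent.H914.VarClass.Obj
  Pool.Agent.H914.WeilCohomology Pool.Agent.H281R3.HT
open Pool.Agent.Y133.Half (Sys PH xp xp_def Ev Adj algSys)
open Pool.Agent.Y133.Half.Sys (mem_Op)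
open Pool.Agent.Y129 (pw pj PowerAction TG tateClasses tateDim cycRank tate_index finrank_TG
  TG_eq_iff)
open Pool.Agent.TH125.Gal (IsGaloisAct Intertwines TateAct)
open scoped ComplexOrder

set_option linter.unusedSectionVars false

variable {k : Type u} [Field k] {𝒱 : VarClass k} {ops : CycleOps 𝒱}
  {W : WeilCohomology.{u, 0} ops} {X : 𝒱.Obj} {Γ : Type} [Group Γ] {χ : Γ →* W.Kˣ}
  {ρ : ∀ n, Γ →* (W.H (pw X n) ≃ₐ[W.K] W.H (pw X n))} {θ : Γ →* W.Kˣ}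

/-- **Homological and numerical equivalence**, if the normalized action exists. -/
theorem core_hen [Algebra W.K ℂ] (hSJ : S_STARJ.{u}) (hTRF : S_TRF)
    {ι : Type} [Fintype ι] [DecidableEq ι] (v : Basis ι W.K (W.H X)) {dg : ι → ℕ}
    (hv : ∀ i, v i ∈ W.gr X (dg i)) (h : PowerAction W X χ ρ) (hθ : ∀ g, θ g ^ 2 = χ g)
    (T : TwConj W) {s : Module.End W.K (W.H X)} (hs2 : s * s = 1)
    (hsc : ∃ Δ : Subgroup Γ, Δ.FiniteIndex ∧ ∀ g ∈ Δ, s * nu0 ρ θ g = nu0 ρ θ g * s)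
    (hsp : s * H914.par (W.isInternal X) = H914.par (W.isInternal X) * s)
    (hpos : ∀ x : (baseW W ℂ).H X, x ≠ 0 → ∃ r : ℝ, 0 < r ∧
      (baseW W ℂ).tr X (x * bcO s (T.J X x)) = cK W (r : ℂ))
    (hT : TG W X χ ρ 1 ≤ algSpan W (pw X 1)) (n : ℕ) : HomEqNum W (pw X n) := by
  have hp : H914.par (W.isInternal X) ∈ (algSys W).Op X X :=
    op_of_pot h hθ hT ⟨⊤, inferInstance, fun g _ => par_nu0 h g⟩ rfl
  have hs : s ∈ (algSys W).Op X X := op_of_pot h hθ hT hsc hsp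
  have hQ : (Qm v s (jmat v T)).PosDef := Qm_posDef v T s hpos
  have hQu : IsUnit (Qm v s (jmat v T)).det := by
    rw [isUnit_iff_ne_zero]
    exact hQ.det_pos.ne'
  have hst := fun (m : ℕ) (A : Op ι m) (hA : A ∈ SB v (algSys W) m) =>
    SB_star v hv (algSys W) hp hs hs2 (fun n a ha => jcomm_span v hSJ T n ha) hQu m A hA
  obtain ⟨P, -, hP, hPQ, -⟩ := hTRF ι (psys0 v (algSys W) hv hp) (Qm v s (jmat v T)) hQ hst
  exact homEqNum_all v hp hP hPQ hst n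

/-- The integral structure of the cohomology: a homogeneous basis in which the Galois group acts by
matrices with coefficients in `ℤ_ℓ`. -/
def HasLatticeH {ℓ : ℕ} [Fact ℓ.Prime] (φ : W.K ≃+* ℚ_[ℓ])
    (ρ : ∀ n, Γ →* (W.H (pw X n) ≃ₐ[W.K] W.H (pw X n))) : Prop :=
  ∃ (d : ℕ) (v : Basis (Fin d) W.K (W.H X)), (∀ i, ∃ j, v i ∈ W.gr X j) ∧
    ∀ g i j, ‖φ (v.repr (ρ 0 g (v j)) i)‖ ≤ 1

/-- The bound. -/
abbrev Cb (b : ℕ) : ℕ := (2 * b + 1) ^ (2 * b ^ 2)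

variable {ℓ : ℕ} [Fact ℓ.Prime]

/-- The theorem in terms of spaces. -/
theorem main_TG (hSJ : S_STARJ.{u}) (hSSG : S_SSG) (hASM : S_ASM) (hTRF : S_TRF) (hSQ : S_SQRT)
    (hHDG : S_HDG.{u}) (hHRS : S_HRS.{u}) [Algebra W.K ℂ] (φ : W.K ≃+* ℚ_[ℓ])
    [Nontrivial (W.H X)] (h : PowerAction W X χ ρ) (hχ : ∀ g, ‖φ (χ g : W.K)‖ = 1)
    (hlat : HasLatticeH φ ρ) (hss : SemisimpleH ρ) (hIV : NoTypeIV χ ρ)
    (H : HodgeDec W) (D : X.Cycles) (hD : Polarizes H X D) :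
    (TG W X χ ρ 1 ≤ algSpan W (pw X 1) → ∀ n, HomEqNum W (pw X n)) ∧
    (TG W X χ ρ 3 ≤ algSpan W (pw X 3) → ∀ n, finrank W.K (TG W X χ ρ (n + n + 1)) ≤
      Cb (finrank W.K (W.H X)) * finrank W.K (algSpan W (pw X (n + n + 1)))) ∧
    ∀ m : ℕ, 1 ≤ m → 2 * (finrank W.K (W.H X) : ℝ) ^ 3 * Real.log (3 * finrank W.K (W.H X)) ≤
      (m + 1 : ℕ) → TG W X χ ρ (m + m + 1) ≤ algSpan W (pw X (m + m + 1)) →
      ∀ n, TG W X χ ρ n ≤ algSpan W (pw X n) := by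
  obtain ⟨Δ, hΔ, θ', hθ1, hθ2⟩ := hSQ ℓ Γ ((Units.map (φ : W.K →* ℚ_[ℓ])).comp χ) hχ
  let θ : Δ →* W.Kˣ := (Units.map (φ.symm : ℚ_[ℓ] →* W.K)).comp θ'
  have hθ : ∀ g, θ g ^ 2 = (χ.comp Δ.subtype) g := by
    intro g
    apply Units.ext
    have h1 := congrArg (fun u : ℚ_[ℓ]ˣ => φ.symm (u : ℚ_[ℓ])) (hθ1 g)
    simp only [Units.val_pow_eq_pow_val, map_pow] at h1
    change (φ.symm (θ' g : ℚ_[ℓ])) ^ 2 = (χ g : W.K)
    rw [h1]
    exact φ.symm_apply_apply _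
  have hθn : ∀ g, ‖φ ((θ g : W.Kˣ) : W.K)‖ = 1 := by
    intro g
    have h1 : φ ((θ g : W.Kˣ) : W.K) = (θ' g : ℚ_[ℓ]) := φ.apply_symm_apply _
    rw [h1]
    exact hθ2 g
  have h' := power_restrict h Δ
  obtain ⟨d, v, hv, hl⟩ := hlat
  choose dg hv using hv
  obtain ⟨T, hT⟩ := hHDG W H
  obtain ⟨s, hs1, hs2, hs3⟩ := hHRS W H T hT X D hD
  -- the class of the divisor
  obtain ⟨Δ', hΔ', hcl⟩ := (h'.galois 0).cl_fix 1 (W.cl X D) ⟨D, hD.1, rfl⟩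
  have hLc : W.cl X D ∈ W.gr X (2 * 1) := W.cl_mem hD.1
  have hcl2 : ∀ g ∈ Δ', nu0 (rres ρ Δ) θ g (W.cl X D) = W.cl X D := by
    intro g hg
    have h1 : nu0 (rres ρ Δ) θ g (W.cl X D) = ((θ g⁻¹ : W.Kˣ) : W.K) ^ (2 * 1) •
        (show W.H X from rres ρ Δ 0 g (W.cl X D)) := nu_gr (n := 0) g hLc
    have h2 : (show W.H X from rres ρ Δ 0 g (W.cl X D)) =
        (((χ.comp Δ.subtype) g : W.Kˣ) : W.K) ^ 1 • W.cl X D := hcl g hg
    rw [h1, h2, smul_smul, ← hθ g]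
    have h3 : ((θ g⁻¹ : W.Kˣ) : W.K) ^ (2 * 1) * ((θ g ^ 2 : W.Kˣ) : W.K) ^ 1 = 1 := by
      rw [mul_one, pow_one, Units.val_pow_eq_pow_val, ← mul_pow, ← Units.val_mul, ← map_mul θ,
        inv_mul_cancel, map_one, Units.val_one, one_pow]
    rw [h3, one_smul]
  have hsc : ∃ Δ' : Subgroup Δ, Δ'.FiniteIndex ∧ ∀ g ∈ Δ', s * nu0 (rres ρ Δ) θ g =
      nu0 (rres ρ Δ) θ g * s := by
    refine ⟨Δ', hΔ', fun g hg => ?_⟩
    refine (hs2 (nu0 (rres ρ Δ) θ g) (fun i x hx => nu_mem (n := 0) h' g hx) fun x => ?_).symm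
    rw [nu0_mulH h', hcl2 g hg]
  have hsp : s * H914.par (W.isInternal X) = H914.par (W.isInternal X) * s := by
    refine (hs2 (H914.par (W.isInternal X)) (fun i x hx => ?_) fun x => ?_).symm
    · rw [PH.par (PH.of hx)]
      exact Submodule.smul_mem _ _ hx
    · rw [par_mulH, PH.par (PH.of hLc), pow_mul, neg_one_sq, one_pow, one_smul]
  have hA := core_tate (θ := θ) φ v hSJ hSSG hASM h' hθ hv (noTypeIV_restrict Δ hΔ hIV)
    (fun g => hl g) hθn (semisimple_restrict Δ hΔ hss) T hs1 hsc hsp hs3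
  have hB := core_hen (θ := θ) hSJ hTRF v hv h' hθ T hs1 hsc hsp hs3
  obtain ⟨hA1, hA2⟩ := hA
  refine ⟨fun hT n => ?_, fun hT n => ?_, fun m hm1 hm hT n => ?_⟩
  · exact hB (by rw [TG_restrict Δ hΔ]; exact hT) n
  · have h1 := hA1 (by rw [TG_restrict Δ hΔ]; exact hT) n
    rw [TG_restrict Δ hΔ] at h1
    exact h1
  · have h1 := hA2 m hm1 hm (by rw [TG_restrict Δ hΔ]; exact hT) n
    rw [TG_restrict Δ hΔ] at h1
    exact h1

/-- **The theorem for Tate classes.** -/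
theorem main_tate (hSJ : S_STARJ.{u}) (hSSG : S_SSG) (hASM : S_ASM) (hTRF : S_TRF) (hSQ : S_SQRT)
    (hHDG : S_HDG.{u}) (hHRS : S_HRS.{u}) [Algebra W.K ℂ] (φ : W.K ≃+* ℚ_[ℓ])
    [Nontrivial (W.H X)] (h : PowerAction W X χ ρ) (hχ : ∀ g, ‖φ (χ g : W.K)‖ = 1)
    (hlat : HasLatticeH φ ρ) (hss : SemisimpleH ρ) (hIV : NoTypeIV χ ρ)
    (H : HodgeDec W) (D : X.Cycles) (hD : Polarizes H X D) :
    (TateAct χ (W.gr (pw X 3)) (algClasses W (pw X 3)) (ρ 3) →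
      (∀ n, HomEqNum W (pw X n)) ∧
      (∀ n, tateDim W X χ ρ (2 * n + 1) ≤
        Cb (finrank W.K (W.H X)) * cycRank ops (pw X (2 * n + 1))) ∧
      ∃ N : ℕ, 1 ≤ N ∧ N ≤ Cb (finrank W.K (W.H X)) ∧
        Tendsto (fun n => (tateDim W X χ ρ n : ℝ≥0∞) / cycRank ops (pw X n)) atTop
          (𝓝 (N : ℝ≥0∞)) ∧
        (N = 1 ↔ ∀ n, TateAct χ (W.gr (pw X n)) (algClasses W (pw X n)) (ρ n))) ∧
    ∀ m : ℕ, 2 * (finrank W.K (W.H X) : ℝ) ^ 3 * Real.log (3 * finrank W.K (W.H X)) ≤ m →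
      TateAct χ (W.gr (pw X (2 * m - 1))) (algClasses W (pw X (2 * m - 1))) (ρ (2 * m - 1)) →
      ∀ n, TateAct χ (W.gr (pw X n)) (algClasses W (pw X n)) (ρ n) := by
  obtain ⟨h1, h2, h3⟩ := main_TG hSJ hSSG hASM hTRF hSQ hHDG hHRS φ h hχ hlat hss hIV H D hD
  have hiff : ∀ n, TG W X χ ρ n ≤ algSpan W (pw X n) ↔
      TateAct χ (W.gr (pw X n)) (algClasses W (pw X n)) (ρ n) := by
    intro n
    rw [← TG_eq_iff h]
    exact ⟨fun h4 => le_antisymm h4 (h.algSpan_le n), fun h4 => h4.le⟩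
  constructor
  · intro hT
    have hT3 := (hiff 3).2 hT
    have hN := h1 (TG_down h (by omega) hT3)
    have hle : ∀ n, tateDim W X χ ρ (2 * n + 1) ≤
        Cb (finrank W.K (W.H X)) * cycRank ops (pw X (2 * n + 1)) := by
      intro n
      have h4 := h2 hT3 n
      have e : n + n + 1 = 2 * n + 1 := by omega
      rw [e] at h4
      have h5 : cycRank ops (pw X (2 * n + 1)) = finrank W.K (algSpan W (pw X (2 * n + 1))) :=
        (Pool.Agent.Y133.Half.homEqNum_iff' (pw X (2 * n + 1))).1 (hN _)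
      rw [h5, ← finrank_TG]
      exact h4
    refine ⟨hN, hle, ?_⟩
    obtain ⟨N, e1, e2, e3, e4⟩ := tate_index h
    have hNle : (N : ℝ≥0∞) ≤ (Cb (finrank W.K (W.H X)) : ℝ≥0∞) := by
      have hsub : Tendsto (fun n : ℕ => 2 * n + 1) atTop atTop := by
        refine tendsto_atTop_mono (fun n => ?_) tendsto_id
        change n ≤ 2 * n + 1
        omega
      refine le_of_tendsto (e2.comp hsub) (Eventually.of_forall fun n => ?_)
      change (tateDim W X χ ρ (2 * n + 1) : ℝ≥0∞) / cycRank ops (pw X (2 * n + 1)) ≤ _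
      refine ENNReal.div_le_of_le_mul ?_
      exact_mod_cast hle n
    have hNle' : N ≤ (Cb (finrank W.K (W.H X)) : ℕ∞) := by
      have : ((N : ℕ∞) : ℝ≥0∞) ≤ (((Cb (finrank W.K (W.H X)) : ℕ) : ℕ∞) : ℝ≥0∞) := by
        simpa using hNle
      exact ENat.toENNReal_le.1 this
    obtain ⟨N', rfl⟩ := ENat.ne_top_iff_exists.1 (ne_top_of_le_ne_top (ENat.coe_ne_top _) hNle')
    refine ⟨N', by exact_mod_cast e1, by exact_mod_cast hNle', by simpa using e2, ?_⟩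
    have e5 : N' = 1 ↔ (N' : ℕ∞) = 1 := by exact_mod_cast Iff.rfl
    rw [e5, e4]
    exact ⟨fun h4 n => (h4 n).1, fun h4 n => ⟨h4 n, hN n⟩⟩
  · intro m hm hT n
    have hb : 1 ≤ finrank W.K (W.H X) := Module.finrank_pos
    have hm3 : 2 < m := by
      have hb' : (1 : ℝ) ≤ finrank W.K (W.H X) := by exact_mod_cast hb
      have h4 : (1 : ℝ) < Real.log (3 * finrank W.K (W.H X)) := by
        rw [Real.lt_log_iff_exp_lt (by positivity)]
        have := Real.exp_one_lt_d9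
        nlinarith
      have h5 : (1 : ℝ) ≤ (finrank W.K (W.H X) : ℝ) ^ 3 := one_le_pow₀ hb'
      have h6 : (2 : ℝ) < m := by
        refine lt_of_lt_of_le ?_ hm
        nlinarith
      exact_mod_cast h6
    obtain ⟨m', rfl⟩ : ∃ m', m = m' + 1 := ⟨m - 1, by omega⟩
    have e : 2 * (m' + 1) - 1 = m' + m' + 1 := by omega
    rw [e] at hT
    exact (hiff n).1 (h3 m' (by omega) hm ((hiff _).2 hT) n)

end Pool.Agent.E8helper1.TX
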