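import Pool.Agent.E8helper1.TX.Fin4
import Pool.Agent.E8helper56.TY.Defs

/-!
# Frobenius elements: the data for the normalized action
-/

open CategoryTheory AlgebraicGeometry

universe u v

namespace Pool.Agent.E8helper1.TX

open Module Matrix
open Pool.Agent.H914 Pool.Agent.H914.VarClass Pool.Agent.H914.VarClass.Obj
  Pool.Agent.H914.WeilCohomology
open Pool.Agent.Y133.Half (Sys PH)
open Pool.Agent.Y129 (pw pj PowerAction TG tateClasses)

set_option linter.unusedSectionVars false

section near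

variable {ℓ : ℕ} [Fact ℓ.Prime]

/-- Two `ℓ`-adic integers are near to each other. -/
def Near (ε : ℝ) (x y : ℚ_[ℓ]) : Prop := ‖x‖ ≤ 1 ∧ ‖y‖ ≤ 1 ∧ ‖x - y‖ < ε

variable {ε : ℝ} {x y x' y' : ℚ_[ℓ]}

theorem Near.mul (h : Near ε x y) (h' : Near ε x' y') : Near ε (x * x') (y * y') := by
  obtain ⟨h1, h2, h3⟩ := h
  obtain ⟨k1, k2, k3⟩ := h'
  refine ⟨?_, ?_, ?_⟩
  · rw [norm_mul]
    exact mul_le_one₀ h1 (norm_nonneg _) k1
  · rw [norm_mul]
    exact mul_le_one₀ h2 (norm_nonneg _) k2
  · have e : x * x' - y * y' = (x - y) * x' + y * (x' - y') := by ring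
    rw [e]
    refine lt_of_le_of_lt (Padic.nonarchimedean _ _) (max_lt ?_ ?_)
    · rw [norm_mul]
      exact lt_of_le_of_lt (mul_le_of_le_one_right (norm_nonneg _) k1) h3
    · rw [norm_mul]
      exact lt_of_le_of_lt (mul_le_of_le_one_left (norm_nonneg _) h2) k3

theorem Near.add (h : Near ε x y) (h' : Near ε x' y') : Near ε (x + x') (y + y') := by
  obtain ⟨h1, h2, h3⟩ := h
  obtain ⟨k1, k2, k3⟩ := h'
  refine ⟨(Padic.nonarchimedean _ _).trans (max_le h1 k1),
    (Padic.nonarchimedean _ _).trans (max_le h2 k2), ?_⟩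
  have e : x + x' - (y + y') = (x - y) + (x' - y') := by ring
  rw [e]
  exact lt_of_le_of_lt (Padic.nonarchimedean _ _) (max_lt h3 k3)

theorem Near.refl (hε : 0 < ε) (hx : ‖x‖ ≤ 1) : Near ε x x :=
  ⟨hx, hx, by rw [sub_self, norm_zero]; exact hε⟩

theorem Near.sum (hε : 0 < ε) {κ : Type} (s : Finset κ) {f g : κ → ℚ_[ℓ]}
    (h : ∀ i ∈ s, Near ε (f i) (g i)) : Near ε (∑ i ∈ s, f i) (∑ i ∈ s, g i) := by
  classical
  induction s using Finset.induction_on with
  | empty =>
    rw [Finset.sum_empty, Finset.sum_empty]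
    exact Near.refl hε (by rw [norm_zero]; exact zero_le_one)
  | insert a s ha ih =>
    rw [Finset.sum_insert ha, Finset.sum_insert ha]
    exact (h a (Finset.mem_insert_self a s)).add
      (ih fun i hi => h i (Finset.mem_insert_of_mem hi))

theorem Near.pow (hε : 0 < ε) (h : Near ε x y) (n : ℕ) : Near ε (x ^ n) (y ^ n) := by
  induction n with
  | zero =>
    rw [pow_zero, pow_zero]
    exact Near.refl hε (by rw [norm_one])
  | succ n ih =>
    rw [pow_succ, pow_succ]
    exact ih.mul h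

theorem Near.inv (h : Near ε x y) (hx : ‖x‖ = 1) (hy : ‖y‖ = 1) : Near ε x⁻¹ y⁻¹ := by
  obtain ⟨h1, h2, h3⟩ := h
  have hx0 : x ≠ 0 := by
    rintro rfl
    rw [norm_zero] at hx
    exact zero_ne_one hx
  have hy0 : y ≠ 0 := by
    rintro rfl
    rw [norm_zero] at hy
    exact zero_ne_one hy
  refine ⟨by rw [norm_inv, hx, inv_one], by rw [norm_inv, hy, inv_one], ?_⟩
  have e : x⁻¹ - y⁻¹ = -((x - y) * (x⁻¹ * y⁻¹)) := by
    field_simp
    ring
  rw [e, norm_neg, norm_mul, norm_mul, norm_inv, norm_inv, hx, hy, inv_one, mul_one, mul_one]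
  exact h3

variable {ι : Type} [Fintype ι] [DecidableEq ι]

/-- Two integral matrices are near to each other. -/
def NearM (ε : ℝ) (A B : Matrix ι ι ℚ_[ℓ]) : Prop := ∀ i j, Near ε (A i j) (B i j)

theorem NearM.mul (hε : 0 < ε) {A B A' B' : Matrix ι ι ℚ_[ℓ]} (h : NearM ε A B)
    (h' : NearM ε A' B') : NearM ε (A * A') (B * B') := by
  intro i j
  rw [Matrix.mul_apply, Matrix.mul_apply]
  exact Near.sum hε _ fun l _ => (h i l).mul (h' l j)

theorem NearM.pow (hε : 0 < ε) {A B : Matrix ι ι ℚ_[ℓ]} (h : NearM ε A B) (n : ℕ) :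
    NearM ε (A ^ n) (B ^ n) := by
  induction n with
  | zero =>
    rw [pow_zero, pow_zero]
    intro i j
    refine Near.refl hε ?_
    by_cases hij : i = j
    · rw [hij, Matrix.one_apply_eq, norm_one]
    · rw [Matrix.one_apply_ne hij, norm_zero]
      exact zero_le_one
  | succ n ih =>
    rw [pow_succ, pow_succ]
    exact ih.mul hε h

end near

section poly

open Polynomial

variable {ι : Type} [Fintype ι] [DecidableEq ι]

/-- The roots of a polynomial which kills a vector. -/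
theorem exists_root {A : Matrix ι ι ℂ} {P : ℤ[X]} {y : ι → ℂ} (hy : y ≠ 0)
    (hP : (aeval A P) *ᵥ y = 0) {K : ℕ} {μ : ℂ} (hA : (A ^ K) *ᵥ y = μ • y) :
    ∃ α : ℂ, aeval α P = 0 ∧ α ^ K = μ := by
  by_contra hno
  push Not at hno
  have hc : IsCoprime (P.map (Int.castRingHom ℂ)) (X ^ K - C μ : ℂ[X]) := by
    rw [Polynomial.isCoprime_iff_aeval_ne_zero_of_isAlgClosed ℂ ℂ]
    intro a
    by_cases h : aeval a P = 0
    · right
      have h1 := hno a h
      simp only [map_sub, map_pow, aeval_X, aeval_C]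
      exact sub_ne_zero.2 h1
    · left
      have h1 : aeval a (P.map (Int.castRingHom ℂ)) = aeval a P := by
        have h2 := aeval_map_algebraMap ℂ a P
        exact h2
      rw [h1]
      exact h
  obtain ⟨U, V, hUV⟩ := hc
  have h1 := congrArg (fun Q : ℂ[X] => (aeval A Q) *ᵥ y) hUV
  simp only [map_add, map_mul, map_one, Matrix.add_mulVec, ← Matrix.mulVec_mulVec,
    Matrix.one_mulVec] at h1
  have h2 : aeval A (P.map (Int.castRingHom ℂ)) = aeval A P := aeval_map_algebraMap ℂ A P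
  have h3 : (aeval A (X ^ K - C μ : ℂ[X])) *ᵥ y = 0 := by
    have h4 : aeval A (X ^ K - C μ : ℂ[X]) = A ^ K - μ • (1 : Matrix ι ι ℂ) := by
      simp only [map_sub, map_pow, aeval_X, aeval_C, Algebra.algebraMap_eq_smul_one]
    rw [h4, Matrix.sub_mulVec, hA, Matrix.smul_mulVec, Matrix.one_mulVec, sub_self]
  rw [h2, hP, h3, Matrix.mulVec_zero, Matrix.mulVec_zero, add_zero] at h1
  exact hy h1.symm

/-- The eigenvalues of a twisted power of a graded matrix. -/
theorem eig_twist {A B : Matrix ι ι ℂ} {dg : ι → ℕ} (hA : ∀ a b, dg a ≠ dg b → A a b = 0)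
    {K : ℕ} {c : ℂ} (hB : ∀ a b, B a b = c ^ dg b * (A ^ K) a b) {lam : ℂ}
    (hlam : B.charpoly.IsRoot lam) : ∃ (b0 : ι) (y : ι → ℂ), y ≠ 0 ∧
      (∀ b, dg b ≠ dg b0 → y b = 0) ∧ c ^ dg b0 • ((A ^ K) *ᵥ y) = lam • y := by
  have hAK : ∀ n a b, dg a ≠ dg b → (A ^ n) a b = 0 := by
    intro n
    induction n with
    | zero =>
      intro a b hab
      rw [pow_zero, Matrix.one_apply_ne]
      rintro rfl
      exact hab rfl
    | succ n ih =>
      intro a b hab
      rw [pow_succ, Matrix.mul_apply]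
      refine Finset.sum_eq_zero fun l _ => ?_
      by_cases h : dg a = dg l
      · rw [hA l b (by rw [← h]; exact hab), mul_zero]
      · rw [ih a l h, zero_mul]
  have h1 : (Matrix.scalar ι lam - B).det = 0 := by
    rw [← Matrix.eval_charpoly]
    exact hlam
  obtain ⟨x, hx, hx'⟩ := Matrix.exists_mulVec_eq_zero_iff.2 h1
  have h2 : B *ᵥ x = lam • x := by
    rw [Matrix.sub_mulVec, sub_eq_zero] at hx'
    rw [← hx']
    ext i
    simp [Matrix.scalar_apply, Matrix.mulVec_diagonal]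
  obtain ⟨b0, hb0⟩ := Function.ne_iff.1 hx
  refine ⟨b0, fun b => if dg b = dg b0 then x b else 0, ?_, fun b hb => if_neg hb, ?_⟩
  · intro h0
    have h3 := congrFun h0 b0
    simp only [if_true, Pi.zero_apply] at h3
    exact hb0 h3
  · ext a
    rw [Pi.smul_apply, Pi.smul_apply, smul_eq_mul, smul_eq_mul, Matrix.mulVec, dotProduct,
      Finset.mul_sum]
    by_cases ha : dg a = dg b0
    · rw [if_pos ha]
      have h3 := congrFun h2 a
      rw [Matrix.mulVec, dotProduct, Pi.smul_apply, smul_eq_mul] at h3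
      rw [← h3]
      refine Finset.sum_congr rfl fun b _ => ?_
      by_cases hb : dg b = dg b0
      · rw [if_pos hb, hB, hb, mul_assoc]
      · rw [if_neg hb, hB, hAK K a b (by rw [ha]; exact fun h => hb h.symm), mul_zero, mul_zero,
          mul_zero, zero_mul]
    · rw [if_neg ha, mul_zero]
      refine Finset.sum_eq_zero fun b _ => ?_
      by_cases hb : dg b = dg b0
      · rw [hAK K a b (by rw [hb]; exact ha), zero_mul, mul_zero]
      · rw [if_neg hb, mul_zero, mul_zero]

end poly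

section grp

/-- Powers of all elements lie in a subgroup of finite index. -/
theorem exists_pow_mem {Γ : Type} [Group Γ] (Δ : Subgroup Γ) (hΔ : Δ.FiniteIndex) :
    ∃ M : ℕ, 0 < M ∧ ∀ g : Γ, g ^ M ∈ Δ := by
  refine ⟨Δ.normalCore.index, Nat.pos_of_ne_zero Subgroup.FiniteIndex.index_ne_zero, fun g => ?_⟩
  exact Subgroup.normalCore_le Δ (Subgroup.pow_index_mem Δ.normalCore g)

end grp

end Pool.Agent.E8helper1.TX
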