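import Pool.Agent.Y129.Gal
import Pool.Agent.E8helper1.TX.Dict4

/-!
# The normalized Galois action
-/

open CategoryTheory AlgebraicGeometry

universe u v

namespace Pool.Agent.E8helper1.TX

open Module
open Pool.Agent.H914 Pool.Agent.H914.VarClass Pool.Agent.H914.VarClass.Obj
  Pool.Agent.H914.WeilCohomology
open Pool.Agent.Y133.Half (Sys PH xp xp_def Ev Adj)
open Pool.Agent.Y133.Half.Sys (mem_Op)
open Pool.Agent.Y129 (pw pj word exists_word_basis permRep permHom word_succ liftN liftN_pj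
  PowerAction TG tateClasses exists_glue dim_pw)
open Pool.Agent.TH125.Gal (IsGaloisAct Intertwines)

set_option linter.unusedSectionVars false

variable {k : Type u} [Field k] {𝒱 : VarClass k} {ops : CycleOps 𝒱}
  {W : WeilCohomology.{u, v} ops} {X Y Z P Q : 𝒱.Obj} {Γ : Type} [Group Γ] {χ : Γ →* W.Kˣ}
  {ρ : ∀ n, Γ →* (W.H (pw X n) ≃ₐ[W.K] W.H (pw X n))} {θ : Γ →* W.Kˣ}

/-- The normalized action. -/
noncomputable def nu (ρ : ∀ n, Γ →* (W.H (pw X n) ≃ₐ[W.K] W.H (pw X n))) (θ : Γ →* W.Kˣ) (n : ℕ)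
    (g : Γ) : Module.End W.K (W.H (pw X n)) :=
  (ρ n g : W.H (pw X n) ≃ₐ[W.K] W.H (pw X n)).toLinearMap ∘ₗ
    scal (W.isInternal (pw X n)) (fun i => ((θ g⁻¹ : W.Kˣ) : W.K) ^ i)

theorem nu_gr {n : ℕ} (g : Γ) {i : ℕ} {x : W.H (pw X n)} (hx : x ∈ W.gr (pw X n) i) :
    nu ρ θ n g x = ((θ g⁻¹ : W.Kˣ) : W.K) ^ i • ρ n g x := by
  rw [nu, LinearMap.comp_apply, scal_apply _ _ hx, map_smul]
  rfl

variable (h : PowerAction W X χ ρ) (hθ : ∀ g, θ g ^ 2 = χ g)

include h in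
theorem nu_mem {n : ℕ} (g : Γ) {i : ℕ} {x : W.H (pw X n)} (hx : x ∈ W.gr (pw X n) i) :
    nu ρ θ n g x ∈ W.gr (pw X n) i := by
  rw [nu_gr g hx]
  exact Submodule.smul_mem _ _ ((h.galois n).gr_mem g i x hx)

include h in
theorem nu_mul (n : ℕ) (g g' : Γ) : nu ρ θ n (g * g') = nu ρ θ n g * nu ρ θ n g' := by
  refine gr_ext (W.isInternal (pw X n)) fun i x hx => ?_
  rw [Module.End.mul_apply, nu_gr g' hx, map_smul,
    nu_gr g ((h.galois n).gr_mem g' i x hx), nu_gr _ hx, map_mul (ρ n), mul_inv_rev, map_mul θ,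
    smul_smul, Units.val_mul, mul_pow]
  rfl

theorem nu_one (n : ℕ) : nu ρ θ n 1 = 1 := by
  refine gr_ext (W.isInternal (pw X n)) fun i x hx => ?_
  rw [nu_gr _ hx, inv_one, map_one θ, map_one (ρ n), Units.val_one, one_pow, one_smul]
  rfl

include h in
theorem nu_inv (n : ℕ) (g : Γ) (x : W.H (pw X n)) : nu ρ θ n g (nu ρ θ n g⁻¹ x) = x := by
  rw [← Module.End.mul_apply, ← nu_mul h, mul_inv_cancel, nu_one]
  rfl

/-- Additive in both variables: check on homogeneous elements. -/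
theorem gr_ind (n : ℕ) {p : W.H (pw X n) → Prop} (hadd : ∀ x y, p x → p y → p (x + y)) (h0 : p 0)
    (hgr : ∀ i, ∀ x ∈ W.gr (pw X n) i, p x) (x : W.H (pw X n)) : p x := by
  have h1 : x ∈ ⨆ i, W.gr (pw X n) i := by
    rw [(W.isInternal (pw X n)).submodule_iSup_eq_top]
    exact Submodule.mem_top
  exact Submodule.iSup_induction _ (motive := p) h1 hgr h0 hadd

include h in
theorem nu_mulH (n : ℕ) (g : Γ) (x y : W.H (pw X n)) :
    nu ρ θ n g (x * y) = nu ρ θ n g x * nu ρ θ n g y := by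
  refine gr_ind n (p := fun x => nu ρ θ n g (x * y) = nu ρ θ n g x * nu ρ θ n g y) ?_ ?_ ?_ x
  · intro a b ha hb
    rw [add_mul, map_add, ha, hb, map_add, add_mul]
  · rw [zero_mul, map_zero, zero_mul]
  · intro i x hx
    refine gr_ind n (p := fun y => nu ρ θ n g (x * y) = nu ρ θ n g x * nu ρ θ n g y) ?_ ?_ ?_ y
    · intro a b ha hb
      rw [mul_add, map_add, ha, hb, map_add, mul_add]
    · rw [mul_zero, map_zero, mul_zero]
    · intro j y hy
      rw [nu_gr g (W.mul_mem hx hy), nu_gr g hx, nu_gr g hy, map_mul, smul_mul_smul_comm, pow_add]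

theorem nu_oneH (n : ℕ) (g : Γ) : nu ρ θ n g 1 = 1 := by
  rw [nu_gr g (W.one_mem _), pow_zero, one_smul, map_one]

include h hθ in
theorem nu_tr (n : ℕ) (g : Γ) (x : W.H (pw X n)) :
    W.tr (pw X n) (nu ρ θ n g x) = W.tr (pw X n) x := by
  refine gr_ind n (p := fun x => W.tr (pw X n) (nu ρ θ n g x) = W.tr (pw X n) x) ?_ ?_ ?_ x
  · intro a b ha hb
    rw [map_add, map_add, ha, hb, map_add]
  · rw [map_zero]
  · intro i x hx
    rw [nu_gr g hx, map_smul, (h.galois n).tr_act, smul_eq_mul]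
    by_cases hi : i = 2 * (pw X n).dim
    · have h1 : ((θ g⁻¹ : W.Kˣ) : W.K) ^ i * (χ g : W.K) ^ (pw X n).dim = 1 := by
        rw [hi, pow_mul, ← mul_pow, ← hθ g, Units.val_pow_eq_pow_val, ← mul_pow, ← Units.val_mul,
          ← map_mul θ, inv_mul_cancel, map_one, Units.val_one, one_pow, one_pow]
      rw [← mul_assoc, h1, one_mul]
    · rw [W.tr_eq_zero hx hi, mul_zero, mul_zero]

theorem nu_map {m n : ℕ} {p : pw X n ⟶ pw X m} (hp : Intertwines (W.map p) (ρ m) (ρ n)) (g : Γ)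
    (x : W.H (pw X m)) : nu ρ θ n g (W.map p x) = W.map p (nu ρ θ m g x) := by
  refine gr_ind m (p := fun x => nu ρ θ n g (W.map p x) = W.map p (nu ρ θ m g x)) ?_ ?_ ?_ x
  · intro a b ha hb
    rw [map_add, map_add, ha, hb, map_add, map_add]
  · rw [map_zero, map_zero, map_zero, map_zero]
  · intro i x hx
    rw [nu_gr g (W.map_mem p hx), nu_gr g hx, map_smul, hp g x]

include h hθ in
theorem nu_push {m n : ℕ} {p : pw X n ⟶ pw X m} (hp : Intertwines (W.map p) (ρ m) (ρ n)) (g : Γ)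
    (c : W.H (pw X n)) : nu ρ θ m g (W.push p c) = W.push p (nu ρ θ n g c) := by
  apply W.tr_ext
  intro y'
  obtain ⟨y, rfl⟩ : ∃ y, y' = nu ρ θ m g y := ⟨nu ρ θ m g⁻¹ y', (nu_inv h m g y').symm⟩
  rw [← nu_mulH h, nu_tr h hθ, W.tr_push, W.tr_push, ← nu_map hp, ← nu_mulH h, nu_tr h hθ]

include h in
theorem nu_ext (n : ℕ) (g : Γ) : nu ρ θ (n + 1) g = extN n (nu ρ θ 0 g) (nu ρ θ n g) := by
  have hf : Intertwines (A := W.H (pw X 0)) (B := W.H (pw X (n + 1)))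
      (W.map (fst X (pw X n))) (ρ 0) (ρ (n + 1)) := h.proj (n + 1) 0
  have hs : Intertwines (A := W.H (pw X n)) (B := W.H (pw X (n + 1)))
      (W.map (snd X (pw X n))) (ρ n) (ρ (n + 1)) :=
    h.equiv (m := n) (n := n + 1) (snd X (pw X n)) (fun i => i.succ) fun i => rfl
  let F : W.H (X.prod (pw X n)) →ₗ[W.K] W.H (X.prod (pw X n)) := nu ρ θ (n + 1) g
  let G : W.H (X.prod (pw X n)) →ₗ[W.K] W.H (X.prod (pw X n)) := extN n (nu ρ θ 0 g) (nu ρ θ n g)
  suffices F = G from this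
  apply ext_kunneth_lin
  intro a b
  have e1 : G (W.map (fst X (pw X n)) a * W.map (snd X (pw X n)) b) =
      W.map (fst X (pw X n)) (nu ρ θ 0 g a) * W.map (snd X (pw X n)) (nu ρ θ n g b) :=
    extOp_tmul _ _ _ _
  rw [e1]
  have e2 : F (W.map (fst X (pw X n)) a * W.map (snd X (pw X n)) b) =
      nu ρ θ (n + 1) g (W.map (fst X (pw X n)) a) * nu ρ θ (n + 1) g (W.map (snd X (pw X n)) b) :=
    nu_mulH h (n + 1) g _ _
  rw [e2]
  have e3 : nu ρ θ (n + 1) g (W.map (fst X (pw X n)) a) = W.map (fst X (pw X n)) (nu ρ θ 0 g a) :=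
    nu_map (m := 0) (n := n + 1) (p := fst X (pw X n)) hf g a
  have e4 : nu ρ θ (n + 1) g (W.map (snd X (pw X n)) b) = W.map (snd X (pw X n)) (nu ρ θ n g b) :=
    nu_map (m := n) (n := n + 1) (p := snd X (pw X n)) hs g b
  rw [e3, e4]
  rfl

include h in
theorem nu_extP (g : Γ) : ∀ n, nu ρ θ n g = extP (X := X) (nu ρ θ 0 g) n
  | 0 => rfl
  | n + 1 => by
    rw [nu_ext h n g, nu_extP g n]
    rfl

end Pool.Agent.E8helper1.TX
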