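import Pool.Agent.E8helper1.TX.Gal1

/-!
# Tate classes and operators which commute with the normalized action
-/

open CategoryTheory AlgebraicGeometry

universe u v

namespace Pool.Agent.E8helper1.TX

open Module
open Pool.Agent.H914 Pool.Agent.H914.VarClass Pool.Agent.H914.VarClass.Obj
  Pool.Agent.H914.WeilCohomology
open Pool.Agent.Y133.Half (Sys PH xp xp_def Ev Adj)
open Pool.Agent.Y133.Half.Sys (mem_Op)
open Pool.Agent.Y129 (pw pj word exists_word_basis permRep permHom word_succ liftN liftN_pj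
  PowerAction TG tateClasses exists_glue dim_pw tateClasses_le finrank_pw)
open Pool.Agent.TH125.Gal (IsGaloisAct Intertwines)

set_option linter.unusedSectionVars false

variable {k : Type u} [Field k] {𝒱 : VarClass k} {ops : CycleOps 𝒱}
  {W : WeilCohomology.{u, v} ops} {X Y Z P Q : 𝒱.Obj} {Γ : Type} [Group Γ] {χ : Γ →* W.Kˣ}
  {ρ : ∀ n, Γ →* (W.H (pw X n) ≃ₐ[W.K] W.H (pw X n))} {θ : Γ →* W.Kˣ}

/-- The morphism to the power. -/
noncomputable def ge (X : 𝒱.Obj) (n : ℕ) : (pw X n).prod (pw X n) ⟶ pw X (n + n + 1) :=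
  (exists_glue X n n).choose

/-- The first half of the factors. -/
noncomputable def gp (X : 𝒱.Obj) (n : ℕ) : pw X (n + n + 1) ⟶ pw X n :=
  (exists_glue X n n).choose_spec.choose

/-- The second half of the factors. -/
noncomputable def gq (X : 𝒱.Obj) (n : ℕ) : pw X (n + n + 1) ⟶ pw X n :=
  (exists_glue X n n).choose_spec.choose_spec.choose

theorem gl_spec (X : 𝒱.Obj) (n : ℕ) :
    (∃ s : Fin (n + 1) → Fin (n + n + 1 + 1), ∀ i, gp X n ≫ pj X n i = pj X _ (s i)) ∧
    (∃ s : Fin (n + 1) → Fin (n + n + 1 + 1), ∀ i, gq X n ≫ pj X n i = pj X _ (s i)) ∧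
    ge X n ≫ gp X n = fst _ _ ∧ ge X n ≫ gq X n = snd _ _ :=
  (exists_glue X n n).choose_spec.choose_spec.choose_spec

/-- The operator given by a class. -/
noncomputable def opc (W : WeilCohomology.{u, v} ops) (X : 𝒱.Obj) (n : ℕ) :
    W.H (pw X (n + n + 1)) →ₗ[W.K] Module.End W.K (W.H (pw X n)) where
  toFun c := pp W (gp X n) (gq X n) c
  map_add' c d := by
    refine LinearMap.ext fun x => ?_
    rw [LinearMap.add_apply, pp_apply, pp_apply, pp_apply, add_mul, map_add]
  map_smul' r c := by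
    refine LinearMap.ext fun x => ?_
    rw [RingHom.id_apply, LinearMap.smul_apply, pp_apply, pp_apply, smul_mul_assoc, map_smul]

theorem opc_apply (n : ℕ) (c : W.H (pw X (n + n + 1))) (x : W.H (pw X n)) :
    opc W X n c x = W.push (gq X n) (c * W.map (gp X n) x) := rfl

theorem corr_eq_opc (n : ℕ) (c : W.H ((pw X n).prod (pw X n))) :
    W.corr c = opc W X n (W.push (ge X n) c) := by
  refine LinearMap.ext fun x => ?_
  obtain ⟨-, -, h1, h2⟩ := gl_spec X n
  rw [corr_apply, opc_apply, ← h1, ← h2, W.map_comp, W.push_comp, W.push_mul]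

theorem opc_surjective (n : ℕ) : Function.Surjective (opc W X n) := by
  intro a
  obtain ⟨c, hc⟩ := (corr_bijective (W := W) (X := pw X n)).2 a
  exact ⟨W.push (ge X n) c, (corr_eq_opc n c).symm.trans hc⟩

theorem opc_injective (n : ℕ) : Function.Injective (opc W X n) := by
  refine (LinearMap.injective_iff_surjective_of_finrank_eq_finrank ?_).2 (opc_surjective n)
  rw [Module.finrank_linearMap, finrank_pw, finrank_pw, ← pow_add]
  congr 1
  omega

/-- The operators of a system. -/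
theorem mem_Op_iff (S : Sys W) (n : ℕ) (a : Module.End W.K (W.H (pw X n))) :
    a ∈ S.Op (pw X n) (pw X n) ↔ ∃ c ∈ S.C (pw X (n + n + 1)), opc W X n c = a := by
  constructor
  · intro h
    obtain ⟨c, hc, rfl⟩ := mem_Op.1 h
    exact ⟨_, S.push _ hc, (corr_eq_opc n c).symm⟩
  · rintro ⟨c, hc, rfl⟩
    exact pp_mem S _ _ hc

section act

variable (h : PowerAction W X χ ρ) (hθ : ∀ g, θ g ^ 2 = χ g)

include h hθ in
theorem nu_opc (n : ℕ) (g : Γ) (c : W.H (pw X (n + n + 1))) (x : W.H (pw X n)) :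
    nu ρ θ n g (opc W X n c x) = opc W X n (nu ρ θ (n + n + 1) g c) (nu ρ θ n g x) := by
  obtain ⟨⟨s, hs⟩, ⟨t, ht⟩, -, -⟩ := gl_spec X n
  rw [opc_apply, opc_apply, nu_push h hθ (h.equiv _ t ht), nu_mulH h, nu_map (h.equiv _ s hs)]

include h hθ in
theorem comm_nu_iff (n : ℕ) (g : Γ) (c : W.H (pw X (n + n + 1))) :
    opc W X n c * nu ρ θ n g = nu ρ θ n g * opc W X n c ↔ nu ρ θ (n + n + 1) g c = c := by
  constructor
  · intro h1
    apply opc_injective n
    refine LinearMap.ext fun y => ?_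
    obtain ⟨x, rfl⟩ : ∃ x, nu ρ θ n g x = y := ⟨nu ρ θ n g⁻¹ y, nu_inv h n g y⟩
    rw [← nu_opc h hθ]
    exact (LinearMap.congr_fun h1 x).symm
  · intro h1
    refine LinearMap.ext fun x => ?_
    rw [Module.End.mul_apply, Module.End.mul_apply, nu_opc h hθ, h1]

end act

section parity

/-- The trivial action. -/
noncomputable def rtriv (W : WeilCohomology.{u, v} ops) (X : 𝒱.Obj) :
    ∀ n, ℤˣ →* (W.H (pw X n) ≃ₐ[W.K] W.H (pw X n)) := fun _ => 1

/-- The character of the parity. -/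
noncomputable def tpar (W : WeilCohomology.{u, v} ops) : ℤˣ →* W.Kˣ :=
  Units.map (Int.castRingHom W.K).toMonoidHom

theorem power_triv : PowerAction W X (1 : ℤˣ →* W.Kˣ) (rtriv W X) where
  galois n :=
    { gr_mem := fun g i a ha => ha
      tr_act := fun g a => by
        rw [MonoidHom.one_apply, Units.val_one, one_pow, one_mul]
        rfl
      cl_act := fun g j c hc => ⟨c, hc, by
        rw [MonoidHom.one_apply, Units.val_one, one_pow, one_smul]
        rfl⟩
      cl_fix := fun j c _ => ⟨⊤, inferInstance, fun g _ => by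
        rw [MonoidHom.one_apply, Units.val_one, one_pow, one_smul]
        rfl⟩ }
  proj n i := fun g a => rfl

theorem tpar_sq (g : ℤˣ) : tpar W g ^ 2 = (1 : ℤˣ →* W.Kˣ) g := by
  rw [← map_pow, Int.units_sq, map_one, MonoidHom.one_apply]

theorem nu_par (n : ℕ) : nu (rtriv W X) (tpar W) n (-1) = H914.par (W.isInternal (pw X n)) := by
  refine gr_ext (W.isInternal (pw X n)) fun i x hx => ?_
  rw [nu_gr _ hx, H914.par, scal_apply _ _ hx]
  congr 2
  change ((tpar W (-1)⁻¹ : W.Kˣ) : W.K) = -1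
  have h1 : (-1 : ℤˣ)⁻¹ = -1 := by decide
  rw [h1]
  change (Int.castRingHom W.K) (((-1 : ℤˣ) : ℤ)) = -1
  rw [Units.val_neg, Units.val_one, map_neg, map_one]

theorem comm_par_iff (n : ℕ) (c : W.H (pw X (n + n + 1))) :
    opc W X n c * H914.par (W.isInternal (pw X n)) = H914.par (W.isInternal (pw X n)) * opc W X n c
      ↔ H914.par (W.isInternal (pw X (n + n + 1))) c = c := by
  rw [← nu_par, ← nu_par]
  exact comm_nu_iff power_triv tpar_sq n (-1) c

end parity

section classes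

variable (h : PowerAction W X χ ρ) (hθ : ∀ g, θ g ^ 2 = χ g)

/-- The component of a class. -/
noncomputable abbrev prj (W : WeilCohomology.{u, v} ops) (Y : 𝒱.Obj) (i : ℕ) :
    Module.End W.K (W.H Y) := H914.proj (W.isInternal Y) i

theorem sum_prj (Y : 𝒱.Obj) (c : W.H Y) :
    c = ∑ i ∈ Finset.range (2 * Y.dim + 1), prj W Y i c := by
  have h1 := H914.sum_proj (W.isInternal Y) (N := 2 * Y.dim + 1)
    (fun i hi => W.gr_eq_bot Y i (by omega))
  have h2 := LinearMap.congr_fun h1 c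
  rw [LinearMap.sum_apply] at h2
  exact h2.symm

theorem prj_comm {n : ℕ} {f : Module.End W.K (W.H (pw X n))}
    (hf : ∀ i, ∀ x ∈ W.gr (pw X n) i, f x ∈ W.gr (pw X n) i) (i : ℕ) (c : W.H (pw X n)) :
    prj W (pw X n) i (f c) = f (prj W (pw X n) i c) := by
  refine gr_ind n (p := fun c => prj W (pw X n) i (f c) = f (prj W (pw X n) i c)) ?_ ?_ ?_ c
  · intro a b ha hb
    rw [map_add, map_add, ha, hb, map_add, map_add]
  · rw [map_zero, map_zero, map_zero]
  · intro j x hx
    by_cases hij : j = i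
    · subst hij
      rw [H914.proj_same _ hx, H914.proj_same _ (hf j x hx)]
    · rw [H914.proj_ne _ hx hij, H914.proj_ne _ (hf j x hx) hij, map_zero]

theorem prj_even {n : ℕ} {c : W.H (pw X n)} (hc : H914.par (W.isInternal (pw X n)) c = c) {i : ℕ}
    (hi : i % 2 = 1) : prj W (pw X n) i c = 0 := by
  have h1 : prj W (pw X n) i c = (-1 : W.K) ^ i • prj W (pw X n) i c := by
    conv_lhs => rw [← hc]
    rw [prj_comm (f := H914.par (W.isInternal (pw X n)))
      (fun j x hx => by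
        rw [PH.par (PH.of hx)]
        exact Submodule.smul_mem _ _ hx) i c,
      PH.par (PH.of (H914.proj_mem (W.isInternal (pw X n)) i c))]
  have h2 : (-1 : W.K) ^ i = -1 := Odd.neg_one_pow (Nat.odd_iff.2 hi)
  rw [h2, neg_smul, one_smul] at h1
  have h3 : (2 : W.K) • prj W (pw X n) i c = 0 := by
    rw [two_smul]
    nth_rewrite 1 [h1]
    exact neg_add_cancel _
  exact (smul_eq_zero.1 h3).resolve_left two_ne_zero

include h hθ in
/-- **Tate classes are the even classes fixed by the normalized action.** -/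
theorem mem_TG_iff (n : ℕ) (c : W.H (pw X n)) : c ∈ TG W X χ ρ n ↔
    (∃ Δ : Subgroup Γ, Δ.FiniteIndex ∧ ∀ g ∈ Δ, nu ρ θ n g c = c) ∧
      H914.par (W.isInternal (pw X n)) c = c := by
  have hpow : ∀ (g : Γ) (j : ℕ), ((θ g⁻¹ : W.Kˣ) : W.K) ^ (2 * j) * (χ g : W.K) ^ j = 1 := by
    intro g j
    rw [pow_mul, ← mul_pow, ← hθ g, Units.val_pow_eq_pow_val, ← mul_pow, ← Units.val_mul,
      ← map_mul θ, inv_mul_cancel, map_one, Units.val_one, one_pow, one_pow]
  constructor
  · intro hc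
    refine Submodule.iSup_induction (fun j => tateClasses χ (W.gr (pw X n)) (ρ n) j)
      (motive := fun c => (∃ Δ : Subgroup Γ, Δ.FiniteIndex ∧ ∀ g ∈ Δ, nu ρ θ n g c = c) ∧
        H914.par (W.isInternal (pw X n)) c = c) hc ?_ ?_ ?_
    · rintro j c ⟨hc, Δ, hΔ, h1⟩
      refine ⟨⟨Δ, hΔ, fun g hg => ?_⟩, ?_⟩
      · rw [nu_gr g hc, h1 g hg, smul_smul, hpow, one_smul]
      · rw [PH.par (PH.of hc), pow_mul, neg_one_sq, one_pow, one_smul]
    · exact ⟨⟨⊤, inferInstance, fun g _ => map_zero _⟩, map_zero _⟩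
    · rintro a b ⟨⟨Δ, hΔ, h1⟩, h2⟩ ⟨⟨Δ', hΔ', h1'⟩, h2'⟩
      refine ⟨⟨Δ ⊓ Δ', inferInstance, fun g hg => ?_⟩, ?_⟩
      · rw [map_add, h1 g hg.1, h1' g hg.2]
      · rw [map_add, h2, h2']
  · rintro ⟨⟨Δ, hΔ, h1⟩, h2⟩
    rw [sum_prj (pw X n) c]
    refine Submodule.sum_mem _ fun i _ => ?_
    rcases Nat.mod_two_eq_zero_or_one i with hi | hi
    · obtain ⟨j, rfl⟩ : ∃ j, i = 2 * j := ⟨i / 2, by omega⟩
      refine le_iSup (fun j => tateClasses χ (W.gr (pw X n)) (ρ n) j) j ⟨H914.proj_mem _ _ _,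
        Δ, hΔ, fun g hg => ?_⟩
      have h3 : nu ρ θ n g (prj W (pw X n) (2 * j) c) = prj W (pw X n) (2 * j) c := by
        rw [← prj_comm (f := nu ρ θ n g) (fun i x hx => nu_mem h g hx), h1 g hg]
      rw [nu_gr g (H914.proj_mem (W.isInternal (pw X n)) (2 * j) c)] at h3
      have h4 := congrArg (fun x => (χ g : W.K) ^ j • x) h3
      simp only [smul_smul] at h4
      rw [mul_comm ((χ g : W.K) ^ j), hpow, one_smul] at h4
      exact h4
    · rw [prj_even h2 hi]
      exact zero_mem _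

end classes

end Pool.Agent.E8helper1.TX
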