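import Pool.Agent.E8helper1.TX.Gal2

/-!
# Tate classes as matrices
-/

open CategoryTheory AlgebraicGeometry

universe u v

namespace Pool.Agent.E8helper1.TX

open Module
open Pool.Agent.H914 Pool.Agent.H914.VarClass Pool.Agent.H914.VarClass.Obj
  Pool.Agent.H914.WeilCohomology
open Pool.Agent.Y133.Half (Sys PH xp xp_def Ev Adj)
open Pool.Agent.Y133.Half.Sys (mem_Op)
open Pool.Agent.Y129 (pw pj word exists_word_basis permRep permHom word_succ liftN liftN_pj
  PowerAction TG tateClasses exists_glue dim_pw tateClasses_le finrank_pw)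
open Pool.Agent.TH125.Gal (IsGaloisAct Intertwines)

set_option linter.unusedSectionVars false

variable {k : Type u} [Field k] {𝒱 : VarClass k} {ops : CycleOps 𝒱}
  {W : WeilCohomology.{u, 0} ops} {X Y Z P Q : 𝒱.Obj} {Γ : Type} [Group Γ] {χ : Γ →* W.Kˣ}
  {ρ : ∀ n, Γ →* (W.H (pw X n) ≃ₐ[W.K] W.H (pw X n))} {θ : Γ →* W.Kˣ}
  {ι : Type} [Fintype ι] [DecidableEq ι] (v : Basis ι W.K (W.H X))

theorem mt_ext (n : ℕ) (a : Module.End W.K (W.H X)) (b : Module.End W.K (W.H (pw X n)))
    (I J : Fin (n + 2) → ι) : mt v (n + 1) (extN n a b) I J =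
      v.repr (a (v (J 0))) (I 0) * mt v n b (fun i => I i.succ) (fun i => J i.succ) := by
  rw [mt, mt, LinearMap.toMatrix_apply, LinearMap.toMatrix_apply, extN_wb, wb_repr_xp]

/-- The matrix of the power of an operator. -/
theorem mt_extP (s : Module.End W.K (W.H X)) (n : ℕ) :
    mt v n (extP s n) = tpowK W.K (LinearMap.toMatrix v v s) (n + 1) := by
  induction n with
  | zero =>
    ext I J
    have h1 : wb v 0 J = v (J 0) := wb_zero v J
    have h2 : tpowK W.K (LinearMap.toMatrix v v s) (0 + 1) I J =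
        LinearMap.toMatrix v v s (I 0) (J 0) := by
      rw [tpowK]
      exact Fin.prod_univ_one _
    rw [h2, LinearMap.toMatrix_apply, mt, LinearMap.toMatrix_apply]
    change (wb v 0).repr (s (wb v 0 J)) I = _
    rw [h1]
    exact wb_repr_zero v _ _
  | succ n ih =>
    ext I J
    change mt v (n + 1) (extN n s (extP s n)) I J = _
    rw [mt_ext, ih]
    have h1 : tpowK W.K (LinearMap.toMatrix v v s) (n + 1 + 1) I J =
        LinearMap.toMatrix v v s (I 0) (J 0) *
        tpowK W.K (LinearMap.toMatrix v v s) (n + 1) (fun i => I i.succ) fun i => J i.succ :=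
      Fin.prod_univ_succ _
    rw [h1, LinearMap.toMatrix_apply]

theorem mt_mul (n : ℕ) (a b : Module.End W.K (W.H (pw X n))) :
    mt v n (a * b) = mt v n a * mt v n b := LinearMap.toMatrix_mul _ _ _

theorem mt_injective (n : ℕ) : Function.Injective (mt v n) :=
  (LinearMap.toMatrix (wb v n) (wb v n)).injective

theorem mt_surjective (n : ℕ) : Function.Surjective (mt v n) :=
  (LinearMap.toMatrix (wb v n) (wb v n)).surjective

variable (h : PowerAction W X χ ρ) (hθ : ∀ g, θ g ^ 2 = χ g)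

/-- The normalized action on the cohomology of `X`. -/
noncomputable def nu0 (ρ : ∀ n, Γ →* (W.H (pw X n) ≃ₐ[W.K] W.H (pw X n))) (θ : Γ →* W.Kˣ) (g : Γ) :
    Module.End W.K (W.H X) := nu ρ θ 0 g

/-- The normalized action on the cohomology of `X × X`. -/
noncomputable def nu1 (ρ : ∀ n, Γ →* (W.H (pw X n) ≃ₐ[W.K] W.H (pw X n))) (θ : Γ →* W.Kˣ) (g : Γ) :
    Module.End W.K (W.H (X.prod X)) := nu ρ θ 1 g

theorem nu0_one : nu0 ρ θ 1 = 1 := nu_one 0

include h in
theorem nu0_mul (g g' : Γ) : nu0 ρ θ (g * g') = nu0 ρ θ g * nu0 ρ θ g' := nu_mul h 0 g g'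

/-- The normalized action in matrices. -/
noncomputable def R0 (h : PowerAction W X χ ρ) (θ : Γ →* W.Kˣ) : Γ →* Matrix ι ι W.K where
  toFun g := LinearMap.toMatrix v v (nu0 ρ θ g)
  map_one' := by
    rw [nu0_one, LinearMap.toMatrix_one]
  map_mul' g g' := by
    rw [nu0_mul h, LinearMap.toMatrix_mul]

/-- The parity in matrices. -/
noncomputable def p0 : Matrix ι ι W.K := LinearMap.toMatrix v v (H914.par (W.isInternal X))

theorem tpowK_R0 (g : Γ) (n : ℕ) : tpowK W.K (R0 v h θ g) (n + 1) = mt v n (nu ρ θ n g) := by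
  rw [nu_extP h g n, mt_extP]
  rfl

theorem extP_parN : ∀ n : ℕ, extP (H914.par (W.isInternal X)) n =
    H914.par (W.isInternal (pw X n)) := by
  obtain ⟨ι, _, _, v, hv⟩ := Pool.Agent.Y129.exists_homogeneous_basis W X
  choose dg hv using hv
  intro n
  rw [extP_par]
  refine (wb v n).ext fun x => ?_
  rw [PN_wb v hv, PH.par (wb_PH v hv n x)]

theorem tpowK_p0 (n : ℕ) :
    tpowK W.K (p0 v) (n + 1) = mt v n (H914.par (W.isInternal (pw X n))) := by
  rw [← extP_parN, mt_extP]
  rfl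

include h hθ in
/-- **The potentially invariant operators are the operators given by Tate classes.** -/
theorem mem_PotOp_iff (n : ℕ) (M : Matrix (Fin (n + 1) → ι) (Fin (n + 1) → ι) W.K) :
    M ∈ PotOp (R0 v h θ) (p0 v) (n + 1) ↔
      ∃ c ∈ TG W X χ ρ (n + n + 1), mt v n (opc W X n c) = M := by
  have key : ∀ c : W.H (pw X (n + n + 1)), mt v n (opc W X n c) ∈ PotOp (R0 v h θ) (p0 v) (n + 1) ↔
      c ∈ TG W X χ ρ (n + n + 1) := by
    intro c
    rw [mem_TG_iff h hθ]
    change ((∃ Δ : Subgroup Γ, Δ.FiniteIndex ∧ ∀ g ∈ Δ,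
      mt v n (opc W X n c) * tpowK W.K (R0 v h θ g) (n + 1) =
        tpowK W.K (R0 v h θ g) (n + 1) * mt v n (opc W X n c)) ∧
      mt v n (opc W X n c) * tpowK W.K (p0 v) (n + 1) =
        tpowK W.K (p0 v) (n + 1) * mt v n (opc W X n c)) ↔ _
    refine and_congr ?_ ?_
    · refine exists_congr fun Δ => and_congr Iff.rfl (forall_congr' fun g => ?_)
      refine imp_congr Iff.rfl ?_
      rw [tpowK_R0 v h, ← mt_mul, ← mt_mul, (mt_injective v n).eq_iff, comm_nu_iff h hθ]
    · rw [tpowK_p0, ← mt_mul, ← mt_mul, (mt_injective v n).eq_iff, comm_par_iff]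
  constructor
  · intro hM
    obtain ⟨a, rfl⟩ := mt_surjective v n M
    obtain ⟨c, rfl⟩ := opc_surjective (W := W) (X := X) n a
    exact ⟨c, (key c).1 hM, rfl⟩
  · rintro ⟨c, hc, rfl⟩
    exact (key c).2 hc

/-! ### Operators on the cohomology of `X` -/

theorem corr_fst_snd (c : W.H (X.prod X)) (x : W.H X) :
    W.corr c x = W.push (snd X X) (c * W.map (fst X X) x) := corr_apply _ _ _

include h hθ in
theorem nu_corr (g : Γ) (c : W.H (X.prod X)) (x : W.H X) :
    nu0 ρ θ g (W.corr c x) = W.corr (nu1 ρ θ g c) (nu0 ρ θ g x) := by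
  have hf : Intertwines (A := W.H (pw X 0)) (B := W.H (pw X 1))
      (W.map (fst X (pw X 0))) (ρ 0) (ρ 1) := h.proj 1 0
  have hs : Intertwines (A := W.H (pw X 0)) (B := W.H (pw X 1))
      (W.map (snd X (pw X 0))) (ρ 0) (ρ 1) :=
    h.equiv (m := 0) (n := 1) (snd X (pw X 0)) (fun i => i.succ) fun i => rfl
  rw [corr_fst_snd, corr_fst_snd]
  have e1 := nu_push h hθ (m := 0) (n := 1) (p := snd X (pw X 0)) hs g
    (c * W.map (fst X X) x : W.H (X.prod X))
  refine e1.trans ?_
  have e2 := nu_mulH h (θ := θ) 1 g c (W.map (fst X X) x : W.H (X.prod X))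
  have e3 := nu_map (θ := θ) (m := 0) (n := 1) (p := fst X (pw X 0)) hf g x
  exact congrArg (W.push (snd X X)) (e2.trans (congrArg (nu1 ρ θ g c * ·) e3))

include h hθ in
theorem comm_corr_iff (g : Γ) (c : W.H (X.prod X)) :
    (W.corr c : Module.End W.K (W.H X)) * nu0 ρ θ g = nu0 ρ θ g * W.corr c ↔
        nu1 ρ θ g c = c := by
  constructor
  · intro h1
    have h2 : W.corr (nu1 ρ θ g c) = W.corr c := by
      refine LinearMap.ext fun y => ?_
      obtain ⟨x, rfl⟩ : ∃ x : W.H X, nu0 ρ θ g x = y :=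
        ⟨nu0 ρ θ g⁻¹ y, nu_inv h 0 g y⟩
      rw [← nu_corr h hθ]
      exact (LinearMap.congr_fun h1 x).symm
    exact (corr_bijective (W := W) (X := X)).1 h2
  · intro h1
    refine LinearMap.ext fun x => ?_
    rw [Module.End.mul_apply, Module.End.mul_apply, nu_corr h hθ, h1]

/-- The operator is given by a sum of Tate classes on `X × X`. -/
def IsTateOp (χ : Γ →* W.Kˣ) (ρ : ∀ n, Γ →* (W.H (pw X n) ≃ₐ[W.K] W.H (pw X n)))
    (a : Module.End W.K (W.H X)) : Prop :=
  ∃ c ∈ ⨆ j, tateClasses χ (W.gr (pw X 1)) (ρ 1) j, W.corr (X := X) (Y := X) c = a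

include h hθ in
theorem isPot_iff (z : Matrix ι ι W.K) : IsPot (R0 v h θ) (p0 v) z ↔
    ∃ a, IsTateOp χ ρ a ∧ LinearMap.toMatrix v v a = z := by
  have key : ∀ c : W.H (X.prod X), IsPot (R0 v h θ) (p0 v) (LinearMap.toMatrix v v (W.corr c)) ↔
      (show W.H (pw X 1) from c) ∈ TG W X χ ρ 1 := by
    intro c
    refine Iff.trans ?_ (mem_TG_iff h hθ 1 (show W.H (pw X 1) from c)).symm
    refine and_congr ?_ ?_
    · refine exists_congr fun Δ => and_congr Iff.rfl (forall_congr' fun g => ?_)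
      refine imp_congr Iff.rfl ?_
      have e1 : R0 v h θ g = LinearMap.toMatrix v v (nu0 ρ θ g) := rfl
      rw [e1, ← LinearMap.toMatrix_mul, ← LinearMap.toMatrix_mul,
        (LinearMap.toMatrix v v).injective.eq_iff, comm_corr_iff h hθ]
      rfl
    · have e1 : p0 v = LinearMap.toMatrix v v (nu0 (rtriv W X) (tpar W) (-1)) := by
        have h1 : nu0 (rtriv W X) (tpar W) (-1) = H914.par (W.isInternal X) := nu_par 0
        rw [h1]
        rfl
      rw [e1, ← LinearMap.toMatrix_mul, ← LinearMap.toMatrix_mul,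
        (LinearMap.toMatrix v v).injective.eq_iff, comm_corr_iff power_triv tpar_sq]
      have h2 : nu1 (rtriv W X) (tpar W) (-1) = H914.par (W.isInternal (pw X 1)) := nu_par 1
      rw [h2]
      rfl
  constructor
  · intro hz
    obtain ⟨a, rfl⟩ := (LinearMap.toMatrix v v).surjective z
    obtain ⟨c, rfl⟩ := (corr_bijective (W := W) (X := X)).2 a
    exact ⟨_, ⟨c, (key c).1 hz, rfl⟩, rfl⟩
  · rintro ⟨a, ⟨c, hc, rfl⟩, rfl⟩
    exact (key c).2 hc

end Pool.Agent.E8helper1.TX
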