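import Pool.Agent.E8helper1.TX.Gal3

/-!
# The data of the Galois action over `ℚ_ℓ`
-/

open CategoryTheory AlgebraicGeometry

universe u v

namespace Pool.Agent.E8helper1.TX

open Module Matrix
open Pool.Agent.H914 Pool.Agent.H914.VarClass Pool.Agent.H914.VarClass.Obj
  Pool.Agent.H914.WeilCohomology
open Pool.Agent.Y133.Half (Sys PH xp xp_def Ev Adj)
open Pool.Agent.Y133.Half.Sys (mem_Op)
open Pool.Agent.Y129 (pw pj PowerAction TG tateClasses)
open Pool.Agent.TH125.Gal (IsGaloisAct Intertwines)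
open Pool.Agent.Y126.Notions (PotentiallySemisimple)
open Pool.Agent.E8helper1.CT (HasLattice)

set_option linter.unusedSectionVars false

section transport

variable {K L : Type} [Field K] [Field L] (φ : K ≃+* L)

/-- Matrices with coefficients in `K` and in `L`. -/
def mapφ {N : Type} (M : Matrix N N K) : Matrix N N L := M.map φ

variable {N : Type} [Fintype N] [DecidableEq N]

theorem mapφ_mul (A B : Matrix N N K) : mapφ φ (A * B) = mapφ φ A * mapφ φ B :=
  Matrix.map_mul (f := (φ : K →+* L))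

theorem mapφ_one : mapφ φ (1 : Matrix N N K) = 1 :=
  Matrix.map_one _ (map_zero φ) (map_one φ)

theorem mapφ_injective : Function.Injective (mapφ φ (N := N)) := by
  intro A B h
  ext i j
  have h1 := congrFun (congrFun h i) j
  exact φ.injective h1

theorem mapφ_symm (A : Matrix N N L) : mapφ φ (A.map φ.symm) = A := by
  ext i j
  exact φ.apply_symm_apply _

theorem mapφ_symm' (A : Matrix N N K) : (mapφ φ A).map φ.symm = A := by
  ext i j
  exact φ.symm_apply_apply _

/-- The matrices whose transports belong to `A`. -/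
def trφ (A : Submodule K (Matrix N N K)) : Submodule L (Matrix N N L) where
  carrier := {M | M.map φ.symm ∈ A}
  zero_mem' := by
    have h1 : (0 : Matrix N N L).map φ.symm = 0 := Matrix.map_zero _ (map_zero φ.symm)
    change (0 : Matrix N N L).map φ.symm ∈ A
    rw [h1]
    exact zero_mem _
  add_mem' := by
    intro M M' h h'
    have h1 : (M + M').map φ.symm = M.map φ.symm + M'.map φ.symm :=
      Matrix.map_add _ (map_add φ.symm) _ _
    change (M + M').map φ.symm ∈ A
    rw [h1]
    exact add_mem h h'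
  smul_mem' := by
    intro c M h
    have h1 : (c • M).map φ.symm = φ.symm c • M.map φ.symm := by
      ext i j
      exact map_mul φ.symm _ _
    change (c • M).map φ.symm ∈ A
    rw [h1]
    exact A.smul_mem _ h

theorem mem_trφ {A : Submodule K (Matrix N N K)} {M : Matrix N N L} :
    M ∈ trφ φ A ↔ M.map φ.symm ∈ A := Iff.rfl

theorem mapφ_mem {A : Submodule K (Matrix N N K)} {M : Matrix N N K} :
    mapφ φ M ∈ trφ φ A ↔ M ∈ A := by
  rw [mem_trφ, mapφ_symm']

theorem finrank_trφ (A : Submodule K (Matrix N N K)) : finrank L (trφ φ A) = finrank K A := by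
  let j : A ≃+ trφ φ A :=
    { toFun := fun M => ⟨mapφ φ M.1, (mapφ_mem φ).2 M.2⟩
      invFun := fun M => ⟨M.1.map φ.symm, M.2⟩
      left_inv := fun M => Subtype.ext (mapφ_symm' φ _)
      right_inv := fun M => Subtype.ext (mapφ_symm φ _)
      map_add' := fun M M' => Subtype.ext (Matrix.map_add _ (map_add φ) _ _) }
  have h1 := rank_eq_of_equiv_equiv (R := K) (R' := L) φ j φ.bijective (fun r m => by
    apply Subtype.ext
    ext a b
    exact map_mul φ _ _)
  rw [finrank, finrank, h1]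

theorem trφ_le {A B : Submodule K (Matrix N N K)} (h : A ≤ B) : trφ φ A ≤ trφ φ B :=
  fun _ hM => h hM

theorem le_of_trφ {A B : Submodule K (Matrix N N K)} (h : trφ φ A ≤ trφ φ B) : A ≤ B :=
  fun _ hM => (mapφ_mem φ).1 (h ((mapφ_mem φ).2 hM))

theorem bcM_trφ [Algebra K ℂ] [Algebra L ℂ] (hc : ∀ x : K, algebraMap L ℂ (φ x) = algebraMap K ℂ x)
    (A : Submodule K (Matrix N N K)) : bcM L (trφ φ A) = bcM K A := by
  have h1 : ∀ M : Matrix N N K, (mapφ φ M).map (algebraMap L ℂ) = M.map (algebraMap K ℂ) := by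
    intro M
    ext i j
    exact hc _
  unfold bcM
  congr 1
  ext M
  constructor
  · rintro ⟨M', hM', rfl⟩
    refine ⟨M'.map φ.symm, hM', ?_⟩
    simp only
    rw [← h1, mapφ_symm]
  · rintro ⟨M', hM', rfl⟩
    refine ⟨mapφ φ M', (mapφ_mem φ).2 hM', ?_⟩
    simp only
    rw [h1]

theorem mapφ_tpowK {n : Type} [Fintype n] [DecidableEq n] (g : Matrix n n K) (m : ℕ) :
    mapφ φ (tpowK K g m) = tpowK L (mapφ φ g) m := by
  ext I J
  change φ (∏ i, g (I i) (J i)) = ∏ i, φ (g (I i) (J i))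
  rw [map_prod]

theorem PotOp_trφ {n : Type} [Fintype n] [DecidableEq n] {Γ : Type} [Group Γ]
    (R : Γ →* Matrix n n K) (p : Matrix n n K) (R' : Γ →* Matrix n n L)
    (hR : ∀ g, R' g = mapφ φ (R g)) (m : ℕ) :
    PotOp R' (mapφ φ p) m = trφ φ (PotOp R p m) := by
  have key : ∀ (M : Matrix (Fin m → n) (Fin m → n) K) (g : Matrix n n K),
      mapφ φ M * tpowK L (mapφ φ g) m = tpowK L (mapφ φ g) m * mapφ φ M ↔
      M * tpowK K g m = tpowK K g m * M := by
    intro M g
    rw [← mapφ_tpowK, ← mapφ_mul, ← mapφ_mul, (mapφ_injective φ).eq_iff]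
  ext M
  obtain ⟨M, rfl⟩ : ∃ M', mapφ φ M' = M := ⟨_, mapφ_symm φ M⟩
  rw [mapφ_mem]
  change ((∃ Δ : Subgroup Γ, Δ.FiniteIndex ∧ ∀ g ∈ Δ, _) ∧ _) ↔
    ((∃ Δ : Subgroup Γ, Δ.FiniteIndex ∧ ∀ g ∈ Δ, _) ∧ _)
  refine and_congr ?_ (key _ _)
  refine exists_congr fun Δ => and_congr Iff.rfl (forall_congr' fun g => ?_)
  refine imp_congr Iff.rfl ?_
  rw [hR]
  exact key _ _

theorem IsPot_trφ {n : Type} [Fintype n] [DecidableEq n] {Γ : Type} [Group Γ]
    (R : Γ →* Matrix n n K) (p : Matrix n n K) (R' : Γ →* Matrix n n L)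
    (hR : ∀ g, R' g = mapφ φ (R g)) (z : Matrix n n K) :
    IsPot R' (mapφ φ p) (mapφ φ z) ↔ IsPot R p z := by
  have key : ∀ M g : Matrix n n K,
      mapφ φ M * mapφ φ g = mapφ φ g * mapφ φ M ↔ M * g = g * M := by
    intro M g
    rw [← mapφ_mul, ← mapφ_mul, (mapφ_injective φ).eq_iff]
  refine and_congr ?_ (key _ _)
  refine exists_congr fun Δ => and_congr Iff.rfl (forall_congr' fun g => ?_)
  refine imp_congr Iff.rfl ?_
  rw [hR]
  exact key _ _

end transport

variable {k : Type u} [Field k] {𝒱 : VarClass k} {ops : CycleOps 𝒱}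
  {W : WeilCohomology.{u, 0} ops} {X : 𝒱.Obj} {Γ : Type} [Group Γ] {χ : Γ →* W.Kˣ}
  {ρ : ∀ n, Γ →* (W.H (pw X n) ≃ₐ[W.K] W.H (pw X n))} {θ : Γ →* W.Kˣ}
  {ι : Type} [Fintype ι] [DecidableEq ι] (v : Basis ι W.K (W.H X))

section forms

theorem Bm_isUnit : IsUnit (Bm v).det := by
  rw [isUnit_iff_ne_zero]
  intro h0
  obtain ⟨w, hw, hw'⟩ := Matrix.exists_vecMul_eq_zero_iff.2 h0
  apply hw
  have h1 : ∑ i, w i • v i = 0 := by
    apply W.nondeg
    intro b
    rw [← v.sum_repr b, Finset.mul_sum, map_sum]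
    refine Finset.sum_eq_zero fun j _ => ?_
    rw [mul_smul_comm, map_smul, Finset.sum_mul, map_sum]
    have h2 := congrFun hw' j
    rw [Matrix.vecMul, dotProduct] at h2
    have h3 : ∑ i, W.tr X (w i • v i * v j) = ∑ i, w i * Bm v i j := by
      refine Finset.sum_congr rfl fun i _ => ?_
      rw [smul_mul_assoc, map_smul, smul_eq_mul, Bm]
    rw [h3, h2]
    exact smul_zero _
  funext i
  have h2 := congrArg (fun x => v.repr x i) h1
  simp only [map_sum, map_smul, Basis.repr_self, Finsupp.coe_finsetSum, Finset.sum_apply,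
    Finsupp.smul_apply, smul_eq_mul, map_zero, Finsupp.coe_zero, Pi.zero_apply] at h2
  rw [Finset.sum_eq_single i] at h2
  · rw [Finsupp.single_eq_same, mul_one] at h2
    exact h2
  · intro j _ hj
    rw [Finsupp.single_eq_of_ne (Ne.symm hj), mul_zero]
  · intro h
    exact absurd (Finset.mem_univ _) h

/-- Operators and forms in matrices. -/
theorem form_mul (f g : Module.End W.K (W.H X)) (i j : ι) :
    ((LinearMap.toMatrix v v f)ᵀ * Bm v * LinearMap.toMatrix v v g) i j =
      W.tr X (f (v i) * g (v j)) := by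
  have h1 : ∀ (f : Module.End W.K (W.H X)) i, f (v i) =
      ∑ l, LinearMap.toMatrix v v f l i • v l := by
    intro f i
    conv_lhs => rw [← v.sum_repr (f (v i))]
    refine Finset.sum_congr rfl fun l _ => ?_
    rw [LinearMap.toMatrix_apply]
  rw [h1 f i, h1 g j, Finset.sum_mul, map_sum, Matrix.mul_apply]
  simp only [Finset.mul_sum, map_sum, smul_mul_assoc, mul_smul_comm, map_smul, smul_eq_mul,
    Matrix.mul_apply, Matrix.transpose_apply, Finset.sum_mul]
  rw [Finset.sum_comm]
  refine Finset.sum_congr rfl fun l _ => Finset.sum_congr rfl fun l' _ => ?_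
  rw [Bm]
  ring

theorem toMatrix_mulVec (f : Module.End W.K (W.H X)) (x : W.H X) :
    LinearMap.toMatrix v v f *ᵥ (fun i => v.repr x i) = fun i => v.repr (f x) i := by
  funext i
  exact congrFun (LinearMap.toMatrix_mulVec_repr v v f x) i

theorem vecMul_toMatrix (f : Module.End W.K (W.H X)) :
    (fun i => W.tr X (v i)) ᵥ* LinearMap.toMatrix v v f = fun j => W.tr X (f (v j)) := by
  funext j
  have h1 : f (v j) = ∑ l, LinearMap.toMatrix v v f l j • v l := by
    conv_lhs => rw [← v.sum_repr (f (v j))]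
    refine Finset.sum_congr rfl fun l _ => ?_
    rw [LinearMap.toMatrix_apply]
  rw [h1, map_sum, Matrix.vecMul, dotProduct]
  refine Finset.sum_congr rfl fun l _ => ?_
  rw [map_smul, smul_eq_mul, mul_comm]

end forms

end Pool.Agent.E8helper1.TX
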