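import Mathlib
import Pool.Agent.Y126.Notions

/-!
# Auxiliary statements: square roots of characters, semisimplicity
-/

set_option autoImplicit false

namespace Pool.Agent.E8helper1.TX

open Module
open Pool.Agent.Y126.Notions (PotentiallySemisimple)

/-- **Piece SQRT**: an `ℓ`-adic character with values of absolute value one has a square root on a
subgroup of finite index. -/
def S_SQRT : Prop := ∀ (ℓ : ℕ) [Fact ℓ.Prime] (Γ : Type) [Group Γ] (χ : Γ →* ℚ_[ℓ]ˣ),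
  (∀ g, ‖(χ g : ℚ_[ℓ])‖ = 1) → ∃ Δ : Subgroup Γ, Δ.FiniteIndex ∧ ∃ θ : Δ →* ℚ_[ℓ]ˣ,
    (∀ g : Δ, θ g ^ 2 = χ g) ∧ ∀ g : Δ, ‖(θ g : ℚ_[ℓ])‖ = 1

/-- **Piece SSG**: a direct sum of twists of potentially semisimple representations is potentially
semisimple. -/
def S_SSG : Prop := ∀ (K : Type) [Field K] (V : Type) [AddCommGroup V] [Module K V]
  [FiniteDimensional K V] (gr : ℕ → Submodule K V) (_ : DirectSum.IsInternal gr)
  (Γ : Type) [Group Γ] (ρ ρ' : Representation K Γ V) (c : Γ → ℕ → K) (_ : ∀ g i, c g i ≠ 0)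
  (_ : ∀ g i, ∀ x ∈ gr i, ρ' g x = c g i • ρ g x) (_ : ∀ g i, ∀ x ∈ gr i, ρ g x ∈ gr i),
  (∀ Δ : Subgroup Γ, Δ.FiniteIndex → ∀ i, ∀ U : Submodule K V, U ≤ gr i →
    (∀ g ∈ Δ, ∀ u ∈ U, ρ g u ∈ U) → ∃ U' : Submodule K V, U' ≤ gr i ∧
      (∀ g ∈ Δ, ∀ u ∈ U', ρ g u ∈ U') ∧ U ⊓ U' = ⊥ ∧ U ⊔ U' = gr i) →
  PotentiallySemisimple ρ'

end Pool.Agent.E8helper1.TX
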