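import Pool.Agent.E8helper1.TX.Gal4
import Pool.Agent.E8helper1.TX.Side

/-!
# The data of the Galois action over `ℚ_ℓ`: construction
-/

open CategoryTheory AlgebraicGeometry

universe u v

namespace Pool.Agent.E8helper1.TX

open Module Matrix
open Pool.Agent.H914 Pool.Agent.H914.VarClass Pool.Agent.H914.VarClass.Obj
  Pool.Agent.H914.WeilCohomology
open Pool.Agent.Y133.Half (Sys PH xp xp_def Ev Adj)
open Pool.Agent.Y133.Half.Sys (mem_Op)
open Pool.Agent.Y129 (pw pj PowerAction TG tateClasses)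
open Pool.Agent.TH125.Gal (IsGaloisAct Intertwines)
open Pool.Agent.Y126.Notions (PotentiallySemisimple)
open Pool.Agent.E8helper1.CT (HasLattice)

set_option linter.unusedSectionVars false

variable {k : Type u} [Field k] {𝒱 : VarClass k} {ops : CycleOps 𝒱}
  {W : WeilCohomology.{u, 0} ops} {X : 𝒱.Obj} {Γ : Type} [Group Γ] {χ : Γ →* W.Kˣ}
  {ρ : ∀ n, Γ →* (W.H (pw X n) ≃ₐ[W.K] W.H (pw X n))} {θ : Γ →* W.Kˣ}
  {ι : Type} [Fintype ι] [DecidableEq ι] (v : Basis ι W.K (W.H X))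

section hyp

/-- The action on the cohomology of `X` is semisimple: in every degree a subspace which is stable
under a subgroup of finite index has a complement which is stable under this subgroup. -/
def SemisimpleH (ρ : ∀ n, Γ →* (W.H (pw X n) ≃ₐ[W.K] W.H (pw X n))) : Prop :=
  ∀ Δ : Subgroup Γ, Δ.FiniteIndex → ∀ i, ∀ U : Submodule W.K (W.H (pw X 0)), U ≤ W.gr (pw X 0) i →
    (∀ g ∈ Δ, ∀ u ∈ U, ρ 0 g u ∈ U) → ∃ U' : Submodule W.K (W.H (pw X 0)), U' ≤ W.gr (pw X 0) i ∧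
      (∀ g ∈ Δ, ∀ u ∈ U', ρ 0 g u ∈ U') ∧ U ⊓ U' = ⊥ ∧ U ⊔ U' = W.gr (pw X 0) i

end hyp

variable (h : PowerAction W X χ ρ) (hθ : ∀ g, θ g ^ 2 = χ g)

/-- The normalized action as a representation. -/
noncomputable def rep0 (h : PowerAction W X χ ρ) (θ : Γ →* W.Kˣ) :
    Representation W.K Γ (W.H X) where
  toFun g := nu0 ρ θ g
  map_one' := nu0_one
  map_mul' g g' := nu0_mul h g g'

/-- The original action as a representation. -/
noncomputable def rep1 (ρ : ∀ n, Γ →* (W.H (pw X n) ≃ₐ[W.K] W.H (pw X n))) :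
    Representation W.K Γ (W.H X) where
  toFun g := (ρ 0 g : W.H (pw X 0) ≃ₐ[W.K] W.H (pw X 0)).toLinearMap
  map_one' := by
    rw [map_one]
    rfl
  map_mul' g g' := by
    rw [map_mul]
    rfl

theorem pss_rep0 (hSSG : S_SSG) (hss : SemisimpleH ρ) : PotentiallySemisimple (rep0 h θ) := by
  refine hSSG W.K (W.H X) (W.gr X) (W.isInternal X) Γ (rep1 ρ) (rep0 h θ)
    (fun g i => ((θ g⁻¹ : W.Kˣ) : W.K) ^ i) (fun g i => pow_ne_zero _ (Units.ne_zero _)) ?_ ?_ ?_
  · intro g i x hx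
    exact nu_gr (ρ := ρ) (θ := θ) (n := 0) g hx
  · intro g i x hx
    exact (h.galois 0).gr_mem g i x hx
  · exact hss

section qp

variable {ℓ : ℕ} [Fact ℓ.Prime] (φ : W.K ≃+* ℚ_[ℓ])

/-- The action in matrices over `ℚ_ℓ`. -/
noncomputable def Rq (h : PowerAction W X χ ρ) (θ : Γ →* W.Kˣ) : Γ →* Matrix ι ι ℚ_[ℓ] where
  toFun g := mapφ φ (R0 v h θ g)
  map_one' := by rw [map_one, mapφ_one]
  map_mul' g g' := by rw [map_mul, mapφ_mul]

theorem Rq_apply (g : Γ) : Rq v φ h θ g = mapφ φ (R0 v h θ g) := rfl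

/-- The coordinates. -/
noncomputable def Eφ (x : W.H X) : ι → ℚ_[ℓ] := fun i => φ (v.repr x i)

theorem Eφ_add (x y : W.H X) : Eφ v φ (x + y) = Eφ v φ x + Eφ v φ y := by
  funext i
  rw [Eφ, map_add, Finsupp.add_apply, map_add]
  rfl

theorem Eφ_smul (c : W.K) (x : W.H X) : Eφ v φ (c • x) = φ c • Eφ v φ x := by
  funext i
  rw [Eφ, map_smul, Finsupp.smul_apply, smul_eq_mul, map_mul]
  rfl

theorem Eφ_bijective : Function.Bijective (Eφ v φ) := by
  constructor
  · intro x y hxy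
    apply v.repr.injective
    ext i
    exact φ.injective (congrFun hxy i)
  · intro w
    refine ⟨∑ i, φ.symm (w i) • v i, ?_⟩
    funext i
    rw [Eφ, v.repr_sum_self, RingEquiv.apply_symm_apply]

theorem mrep_Eφ (g : Γ) (x : W.H X) : mrep (Rq v φ h θ) g (Eφ v φ x) = Eφ v φ (nu0 ρ θ g x) := by
  change (Rq v φ h θ g) *ᵥ (Eφ v φ x) = _
  rw [Rq_apply]
  funext i
  have h1 := congrFun (toMatrix_mulVec v (nu0 ρ θ g) x) i
  rw [Eφ, ← h1]
  simp only [Matrix.mulVec, dotProduct, map_sum, map_mul]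
  rfl

/-- Transport of semisimplicity. -/
theorem pss_mrep (hss : PotentiallySemisimple (rep0 h θ)) :
    PotentiallySemisimple (mrep (Rq v φ h θ)) := by
  intro Δ hΔ U hU
  obtain ⟨hinj, hsurj⟩ := Eφ_bijective v φ
  let U0 : Submodule W.K (W.H X) :=
    { carrier := {x | Eφ v φ x ∈ U}
      zero_mem' := by
        have h1 : Eφ v φ (0 : W.H X) = 0 := by
          funext i
          rw [Eφ, map_zero, Finsupp.zero_apply, map_zero]
          rfl
        change Eφ v φ (0 : W.H X) ∈ U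
        rw [h1]
        exact zero_mem _
      add_mem' := by
        intro a b ha hb
        change Eφ v φ (a + b) ∈ U
        rw [Eφ_add]
        exact add_mem ha hb
      smul_mem' := by
        intro c a ha
        change Eφ v φ (c • a) ∈ U
        rw [Eφ_smul]
        exact U.smul_mem _ ha }
  obtain ⟨U1, h1, h2⟩ := hss Δ hΔ U0 (fun s hs u hu => by
    change Eφ v φ (nu0 ρ θ s u) ∈ U
    rw [← mrep_Eφ v h φ]
    exact hU s hs _ hu)
  let U2 : Submodule ℚ_[ℓ] (ι → ℚ_[ℓ]) :=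
    { carrier := {y | ∃ x ∈ U1, Eφ v φ x = y}
      zero_mem' := ⟨0, zero_mem _, by
        funext i
        rw [Eφ, map_zero, Finsupp.zero_apply, map_zero]
        rfl⟩
      add_mem' := by
        rintro _ _ ⟨x, hx, rfl⟩ ⟨y, hy, rfl⟩
        exact ⟨x + y, add_mem hx hy, Eφ_add v φ x y⟩
      smul_mem' := by
        rintro c _ ⟨x, hx, rfl⟩
        refine ⟨φ.symm c • x, U1.smul_mem _ hx, ?_⟩
        rw [Eφ_smul, RingEquiv.apply_symm_apply] }
  refine ⟨U2, ?_, ?_⟩
  · rintro s hs _ ⟨x, hx, rfl⟩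
    exact ⟨nu0 ρ θ s x, h1 s hs x hx, (mrep_Eφ v h φ s x).symm⟩
  · constructor
    · rw [Submodule.disjoint_def]
      rintro _ hy ⟨x, hx, rfl⟩
      have h3 : x ∈ U0 := hy
      have h4 := (Submodule.disjoint_def.1 h2.disjoint) x h3 hx
      rw [h4]
      funext i
      rw [Eφ, map_zero, Finsupp.zero_apply, map_zero]
      rfl
    · rw [codisjoint_iff, eq_top_iff]
      intro y _
      obtain ⟨x, rfl⟩ := hsurj y
      have h3 : x ∈ U0 ⊔ U1 := by
        rw [codisjoint_iff.1 h2.codisjoint]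
        exact Submodule.mem_top
      obtain ⟨a, ha, b, hb, rfl⟩ := Submodule.mem_sup.1 h3
      rw [Eφ_add]
      exact add_mem (Submodule.mem_sup_left ha) (Submodule.mem_sup_right ⟨b, hb, rfl⟩)

theorem lattice_mrep {dg : ι → ℕ} (hv : ∀ i, v i ∈ W.gr X (dg i))
    (hlat : ∀ g i j, ‖φ (v.repr (ρ 0 g (v j)) i)‖ ≤ 1)
    (hθ1 : ∀ g, ‖φ ((θ g : W.Kˣ) : W.K)‖ = 1) : HasLattice ℓ (mrep (Rq v φ h θ)) := by
  refine ⟨Fintype.card ι, (Pi.basisFun ℚ_[ℓ] ι).reindex (Fintype.equivFin ι), fun s i j => ?_⟩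
  rw [Basis.reindex_apply, Basis.repr_reindex_apply, Pi.basisFun_repr, Pi.basisFun_apply]
  have h1 : mrep (Rq v φ h θ) s (Pi.single ((Fintype.equivFin ι).symm j) 1)
      ((Fintype.equivFin ι).symm i) =
      Rq v φ h θ s ((Fintype.equivFin ι).symm i) ((Fintype.equivFin ι).symm j) := by
    change ((Rq v φ h θ s) *ᵥ (Pi.single ((Fintype.equivFin ι).symm j) 1))
      ((Fintype.equivFin ι).symm i) = _
    rw [Matrix.mulVec_single_one]
    rfl
  rw [h1]
  obtain ⟨a, ha⟩ : ∃ a, a = (Fintype.equivFin ι).symm i := ⟨_, rfl⟩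
  obtain ⟨b, hb⟩ : ∃ b, b = (Fintype.equivFin ι).symm j := ⟨_, rfl⟩
  rw [← ha, ← hb]
  have h2 : Rq v φ h θ s a b = φ (v.repr (nu0 ρ θ s (v b)) a) := by
    rw [Rq_apply]
    change φ (LinearMap.toMatrix v v (nu0 ρ θ s) a b) = _
    rw [LinearMap.toMatrix_apply]
  obtain ⟨y, hy⟩ : ∃ y : W.H X, y = ρ 0 s (v b) := ⟨_, rfl⟩
  have h3 : nu0 ρ θ s (v b) = ((θ s⁻¹ : W.Kˣ) : W.K) ^ (dg b) • y := by
    rw [hy]
    exact nu_gr (ρ := ρ) (θ := θ) (n := 0) s (hv b)
  rw [h2, h3, map_smul, Finsupp.smul_apply, smul_eq_mul, map_mul, map_pow, norm_mul, norm_pow,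
    hθ1, one_pow, one_mul, hy]
  exact hlat s a b

theorem par_tr (x : W.H X) : W.tr X (H914.par (W.isInternal X) x) = W.tr X x := by
  have h1 := nu_tr (X := X) power_triv tpar_sq 0 (-1) x
  rw [nu_par] at h1
  exact h1

theorem par_mulH (x y : W.H X) : H914.par (W.isInternal X) (x * y) =
    H914.par (W.isInternal X) x * H914.par (W.isInternal X) y := by
  have h1 := nu_mulH (X := X) (θ := tpar W) power_triv 0 (-1) x y
  rw [nu_par] at h1
  exact h1

theorem par_oneH : H914.par (W.isInternal X) (1 : W.H X) = 1 := by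
  rw [PH.par (PH.of (W.one_mem X)), pow_zero, one_smul]

include h hθ in
theorem nu0_tr (g : Γ) (x : W.H X) : W.tr X (nu0 ρ θ g x) = W.tr X x := nu_tr h hθ 0 g x

include h in
theorem nu0_mulH (g : Γ) (x y : W.H X) : nu0 ρ θ g (x * y) = nu0 ρ θ g x * nu0 ρ θ g y :=
  nu_mulH h 0 g x y

theorem nu0_oneH (g : Γ) : nu0 ρ θ g (1 : W.H X) = 1 := nu_oneH 0 g

include h in
theorem par_nu0 (g : Γ) : H914.par (W.isInternal X) * nu0 ρ θ g =
    nu0 ρ θ g * H914.par (W.isInternal X) := by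
  refine gr_ext (W.isInternal X) fun i x hx => ?_
  rw [Module.End.mul_apply, Module.End.mul_apply, PH.par (PH.of hx), map_smul]
  have h1 : nu0 ρ θ g x ∈ W.gr X i := nu_mem (ρ := ρ) (θ := θ) h (n := 0) g hx
  rw [PH.par (PH.of h1)]

/-- The adjoint relations in matrices. -/
theorem form_inv {f : Module.End W.K (W.H X)} (hf : ∀ x y, W.tr X (f x * f y) = W.tr X (x * y)) :
    (LinearMap.toMatrix v v f)ᵀ * Bm v * LinearMap.toMatrix v v f = Bm v := by
  ext i j
  rw [form_mul, hf, Bm]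

variable [Nontrivial (W.H X)]

/-- **The data.** -/
noncomputable def galData {dg : ι → ℕ} (hv : ∀ i, v i ∈ W.gr X (dg i))
    (h : PowerAction W X χ ρ) (hθ : ∀ g, θ g ^ 2 = χ g)
    (hlat : ∀ g i j, ‖φ (v.repr (ρ 0 g (v j)) i)‖ ≤ 1)
    (hθ1 : ∀ g, ‖φ ((θ g : W.Kˣ) : W.K)‖ = 1) (hSSG : S_SSG) (hss : SemisimpleH ρ) :
    GalData ℓ ι Γ where
  R := Rq v φ h θ
  p := mapφ φ (p0 v)
  B := mapφ φ (Bm v)
  e := Eφ v φ 1
  t := fun i => φ (W.tr X (v i))
  p_mul := by
    rw [← mapφ_mul, p0, ← LinearMap.toMatrix_mul, par_mul_par, LinearMap.toMatrix_one, mapφ_one]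
  p_comm g := by
    rw [Rq_apply, ← mapφ_mul, ← mapφ_mul]
    congr 1
    change LinearMap.toMatrix v v _ * LinearMap.toMatrix v v _ =
      LinearMap.toMatrix v v _ * LinearMap.toMatrix v v _
    rw [← LinearMap.toMatrix_mul, ← LinearMap.toMatrix_mul, par_nu0 h]
  B_unit := by
    have h1 : (mapφ φ (Bm v)).det = φ (Bm v).det :=
      (RingHom.map_det (φ : W.K →+* ℚ_[ℓ]) (Bm v)).symm
    rw [h1]
    exact (Bm_isUnit v).map φ
  B_inv g := by
    have h1 : (mapφ φ (R0 v h θ g))ᵀ = mapφ φ (R0 v h θ g)ᵀ := rfl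
    rw [Rq_apply, h1, ← mapφ_mul, ← mapφ_mul]
    congr 1
    exact form_inv v fun x y => by rw [← nu0_mulH h, nu0_tr h hθ]
  B_p := by
    have h1 : (mapφ φ (p0 v))ᵀ = mapφ φ (p0 v)ᵀ := rfl
    rw [h1, ← mapφ_mul, ← mapφ_mul]
    congr 1
    exact form_inv v fun x y => by rw [← par_mulH, par_tr]
  e_ne := by
    intro h0
    have h1 : Eφ v φ (0 : W.H X) = 0 := by
      funext i
      rw [Eφ, map_zero, Finsupp.zero_apply, map_zero]
      rfl
    exact one_ne_zero ((Eφ_bijective v φ).1 (h0.trans h1.symm))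
  e_inv g := by
    have h1 := mrep_Eφ (θ := θ) v h φ g 1
    rw [nu0_oneH] at h1
    exact h1
  e_p := by
    have h1 := toMatrix_mulVec v (H914.par (W.isInternal X)) 1
    rw [par_oneH] at h1
    funext i
    have h2 := congrArg φ (congrFun h1 i)
    simp only [Matrix.mulVec, dotProduct, map_sum, map_mul] at h2
    exact h2
  t_ne := by
    intro h0
    have h1 : ∀ i, W.tr X (v i) = 0 := by
      intro i
      have h2 := congrFun h0 i
      exact (map_eq_zero φ).1 h2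
    have h3 : W.tr X = 0 := v.ext h1
    apply one_ne_zero (α := W.H X)
    apply W.nondeg
    intro b
    rw [h3]
    rfl
  t_inv g := by
    have h1 := vecMul_toMatrix v (nu0 ρ θ g)
    funext j
    have h2 := congrArg φ (congrFun h1 j)
    simp only [Matrix.vecMul, dotProduct, map_sum, map_mul, nu0_tr h hθ] at h2
    exact h2
  t_p := by
    have h1 := vecMul_toMatrix v (H914.par (W.isInternal X))
    funext j
    have h2 := congrArg φ (congrFun h1 j)
    simp only [Matrix.vecMul, dotProduct, map_sum, map_mul, par_tr] at h2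
    exact h2
  lattice := lattice_mrep v h φ hv hlat hθ1
  ss := pss_mrep v h φ (pss_rep0 h hSSG hss)

end qp

end Pool.Agent.E8helper1.TX
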