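import Pool.Agent.Y133.Half.Sys
import Pool.Agent.Y129.Pow

/-!
# Operators given by classes: pull-backs, push-forwards, multiplications, partial traces
-/

open CategoryTheory AlgebraicGeometry

universe u v

namespace Pool.Agent.E8helper1.TX

open Module
open Pool.Agent.H914 Pool.Agent.H914.VarClass Pool.Agent.H914.VarClass.Obj
  Pool.Agent.H914.WeilCohomology
open Pool.Agent.Y133.Half (Sys PH xp xp_def Ev)
open Pool.Agent.Y133.Half.Sys (mem_Op)

set_option linter.unusedSectionVars false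

variable {k : Type u} [Field k] {𝒱 : VarClass k} {ops : CycleOps 𝒱}
  {W : WeilCohomology.{u, v} ops} {X Y Z P Q : 𝒱.Obj}

theorem corr_push_lift (g₁ : Z ⟶ X) (g₂ : Z ⟶ Y) (c : W.H Z) (x : W.H X) :
    W.corr (W.push (Obj.lift g₁ g₂) c) x = W.push g₂ (c * W.map g₁ x) := by
  rw [corr_apply, ← W.push_mul, ← W.push_comp, ← W.map_comp, Obj.lift_fst, Obj.lift_snd]

/-- The operator `x ↦ g₂_* (c · g₁^* x)`. -/
noncomputable def pp (W : WeilCohomology.{u, v} ops) (g₁ : Z ⟶ X) (g₂ : Z ⟶ Y) (c : W.H Z) :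
    W.H X →ₗ[W.K] W.H Y :=
  W.push g₂ ∘ₗ LinearMap.mulLeft W.K c ∘ₗ (W.map g₁).toLinearMap

theorem pp_apply (g₁ : Z ⟶ X) (g₂ : Z ⟶ Y) (c : W.H Z) (x : W.H X) :
    pp W g₁ g₂ c x = W.push g₂ (c * W.map g₁ x) := rfl

theorem pp_mem (S : Sys W) (g₁ : Z ⟶ X) (g₂ : Z ⟶ Y) {c : W.H Z} (hc : c ∈ S.C Z) :
    pp W g₁ g₂ c ∈ S.Op X Y :=
  mem_Op.2 ⟨W.push (Obj.lift g₁ g₂) c, S.push _ hc, LinearMap.ext fun x => corr_push_lift _ _ _ _⟩

theorem map_mem_Op (S : Sys W) (f : X ⟶ Y) : (W.map f).toLinearMap ∈ S.Op Y X := by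
  have h := pp_mem S f (𝟙 X) (S.one X)
  have h2 : pp W f (𝟙 X) (1 : W.H X) = (W.map f).toLinearMap := by
    refine LinearMap.ext fun x => ?_
    rw [pp_apply, W.push_id, one_mul]
    rfl
  rwa [h2] at h

/-- The class of the diagonal. -/
noncomputable def dl (W : WeilCohomology.{u, v} ops) (X : 𝒱.Obj) : W.H (X.prod X) :=
  W.push (diag X) 1

theorem dl_mem (S : Sys W) : dl W X ∈ S.C (X.prod X) := S.push _ (S.one X)

theorem corr_dl (x : W.H X) : W.corr (dl W X) x = x := by
  rw [dl, W.corr_diag, one_mul]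

theorem tr_dl (x y : W.H X) : W.tr (X.prod X) (dl W X * xp W x y) = W.tr X (x * y) := by
  rw [dl, W.tr_push, one_mul, xp_def, map_mul (W.map (diag X)), ← W.map_comp, ← W.map_comp]
  have e1 : diag X ≫ snd X X = 𝟙 X := Obj.lift_snd _ _
  have e2 : diag X ≫ fst X X = 𝟙 X := Obj.lift_fst _ _
  rw [e1, e2, W.map_id, W.map_id]

/-- The projection of `X × (X × P)` to `P`. -/
noncomputable def prP (X P : 𝒱.Obj) : X.prod (X.prod P) ⟶ P := snd X (X.prod P) ≫ snd X P

/-- The projection of `X × (X × P)` to `X × X`. -/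
noncomputable def prXX (X P : 𝒱.Obj) : X.prod (X.prod P) ⟶ X.prod X :=
  Obj.lift (fst X (X.prod P)) (snd X (X.prod P) ≫ fst X P)

/-- The partial trace over the factor `X` of an operator on the cohomology of `X × P`, with
signs. -/
noncomputable def strL (W : WeilCohomology.{u, v} ops) (X P : 𝒱.Obj)
    (a : Module.End W.K (W.H (X.prod P))) : Module.End W.K (W.H P) :=
  (pp W (𝟙 _) (prP X P) (W.map (prXX X P) (dl W X))) ∘ₗ (extOp W 1 a) ∘ₗ
    (pp W (prP X P) (𝟙 _) (W.map (prXX X P) (dl W X)))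

theorem strL_mem (S : Sys W) {a : Module.End W.K (W.H (X.prod P))}
    (ha : a ∈ S.Op (X.prod P) (X.prod P)) : strL W X P a ∈ S.Op P P :=
  Sys.Op.comp (pp_mem S _ _ (S.map _ (dl_mem S)))
    (Sys.Op.comp (Sys.Op.ext Sys.Op.id ha) (pp_mem S _ _ (S.map _ (dl_mem S))))

theorem kxp (x : W.H X) (y : W.H Y) : xp W x y = kappa W X Y (x ⊗ₜ y) := (kappa_tmul x y).symm

/-- The basis of the external products. -/
noncomputable def xb {ι κ : Type*} (v : Basis ι W.K (W.H X)) (w : Basis κ W.K (W.H Y)) :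
    Basis (ι × κ) W.K (W.H (X.prod Y)) := (v.tensorProduct w).map (kappa W X Y)

theorem xb_apply {ι κ : Type*} (v : Basis ι W.K (W.H X)) (w : Basis κ W.K (W.H Y)) (p : ι × κ) :
    xb v w p = xp W (v p.1) (w p.2) := by
  rw [xb, Basis.map_apply, Basis.tensorProduct_apply', kxp]

section diag

variable {ι : Type} [Fintype ι] [DecidableEq ι] (v : Basis ι W.K (W.H X)) {dg : ι → ℕ}
  (hv : ∀ i, v i ∈ W.gr X (dg i))

/-- The coefficients of the class of the diagonal. -/
noncomputable def dc (i j : ι) : W.K := (xb v v).repr (dl W X) (i, j)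

theorem dl_eq : dl W X = ∑ i, ∑ j, dc v i j • xp W (v i) (v j) := by
  conv_lhs => rw [← (xb v v).sum_repr (dl W X)]
  rw [Fintype.sum_prod_type]
  refine Finset.sum_congr rfl fun i _ => Finset.sum_congr rfl fun j _ => ?_
  rw [xb_apply]
  rfl

theorem par_xp {i j : ℕ} {x : W.H X} {y : W.H Y} (hx : x ∈ W.gr X i) (hy : y ∈ W.gr Y j) :
    H914.par (W.isInternal (X.prod Y)) (xp W x y) = (-1 : W.K) ^ (i + j) • xp W x y :=
  PH.par (Pool.Agent.Y133.Half.xp_mem (PH.of hx) (PH.of hy))

include hv in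
theorem dc_par (i j : ι) (h : dc v i j ≠ 0) : (dg i + dg j) % 2 = 0 := by
  have h1 : H914.par (W.isInternal (X.prod X)) (dl W X) = dl W X := by
    have h2 : dl W X ∈ PH W (X.prod X) 0 := PH.push _ (PH.of (W.one_mem X))
    rw [PH.par h2, pow_zero, one_smul]
  have h2 : (xb v v).repr (H914.par (W.isInternal (X.prod X)) (dl W X)) (i, j) =
      (-1 : W.K) ^ (dg i + dg j) * dc v i j := by
    have h3 : H914.par (W.isInternal (X.prod X)) (dl W X) =
        ∑ p : ι × ι, ((-1 : W.K) ^ (dg p.1 + dg p.2) * dc v p.1 p.2) • xb v v p := by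
      rw [dl_eq v, map_sum, Fintype.sum_prod_type]
      refine Finset.sum_congr rfl fun a _ => ?_
      rw [map_sum]
      refine Finset.sum_congr rfl fun b _ => ?_
      rw [map_smul, par_xp (hv a) (hv b), smul_smul, xb_apply, mul_comm]
    rw [h3, Basis.repr_sum_self]
  rw [h1] at h2
  change dc v i j = _ at h2
  by_contra hodd
  have h3 : (-1 : W.K) ^ (dg i + dg j) = -1 := by
    rw [Pool.Agent.Y133.Half.neg_pow_congr (b := 1) (by omega), pow_one]
  rw [h3] at h2
  have h4 : (2 : W.K) * dc v i j = 0 := by linear_combination h2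
  exact h ((mul_eq_zero.1 h4).resolve_left two_ne_zero)

include hv in
/-- The class of the diagonal as an operator. -/
theorem sum_dc (z : W.H X) : ∑ i, ∑ j, (dc v i j * W.tr X (v i * z)) • v j =
    H914.par (W.isInternal X) z := by
  have key : ∀ l, ∑ i, ∑ j, (dc v i j * W.tr X (v i * v l)) • v j =
      H914.par (W.isInternal X) (v l) := by
    intro l
    have h1 : W.corr (dl W X) (v l) = v l := corr_dl _
    rw [dl_eq v] at h1
    have h2 : ∀ a b, W.corr (dc v a b • xp W (v a) (v b)) (v l) =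
        (-1 : W.K) ^ (dg l) • (dc v a b * W.tr X (v a * v l)) • v b := by
      intro a b
      rw [W.corr_smul, LinearMap.smul_apply,
        Pool.Agent.Y133.Half.corr_xp _ (PH.of (hv b)) (PH.of (hv l)), smul_smul, smul_smul]
      congr 1
      by_cases h0 : dc v a b = 0
      · rw [h0]; ring
      by_cases h3 : dg a + dg l = 2 * X.dim
      · have h4 := dc_par v hv a b h0
        have h5 : (-1 : W.K) ^ (dg b * dg l) = (-1 : W.K) ^ (dg l) := by
          apply Pool.Agent.Y133.Half.neg_pow_congr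
          rw [Nat.mul_mod]
          have h6 : dg b % 2 = dg l % 2 := by omega
          rw [h6]
          rcases Nat.mod_two_eq_zero_or_one (dg l) with h7 | h7 <;> rw [h7]
        rw [h5]
        ring
      · rw [W.tr_eq_zero (W.mul_mem (hv a) (hv l)) h3]
        ring
    have h3 : W.corr (∑ i, ∑ j, dc v i j • xp W (v i) (v j)) (v l) =
        (-1 : W.K) ^ (dg l) • ∑ i, ∑ j, (dc v i j * W.tr X (v i * v l)) • v j := by
      have h4 : W.corr (∑ i, ∑ j, dc v i j • xp W (v i) (v j)) =
          ∑ i, ∑ j, W.corr (dc v i j • xp W (v i) (v j)) := by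
        change Pool.Agent.Y133.Half.corrL W X X _ = _
        simp only [map_sum]
        rfl
      rw [h4, LinearMap.sum_apply, Finset.smul_sum]
      refine Finset.sum_congr rfl fun a _ => ?_
      rw [LinearMap.sum_apply, Finset.smul_sum]
      exact Finset.sum_congr rfl fun b _ => h2 a b
    rw [h3] at h1
    have h4 : (-1 : W.K) ^ (dg l) * (-1 : W.K) ^ (dg l) = 1 := by
      rw [← mul_pow]; simp
    rw [PH.par (PH.of (hv l))]
    conv_rhs => rw [← h1]
    rw [smul_smul, h4, one_smul]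
  have h5 : (∑ i, ∑ j, (dc v i j • (W.tr X ∘ₗ LinearMap.mulLeft W.K (v i)).smulRight (v j))) =
      H914.par (W.isInternal X) := by
    refine v.ext fun l => ?_
    rw [← key l, LinearMap.sum_apply]
    refine Finset.sum_congr rfl fun a _ => ?_
    rw [LinearMap.sum_apply]
    refine Finset.sum_congr rfl fun b _ => ?_
    rw [LinearMap.smul_apply, LinearMap.smulRight_apply, smul_smul]
    rfl
  rw [← h5, LinearMap.sum_apply]
  refine Finset.sum_congr rfl fun a _ => ?_
  rw [LinearMap.sum_apply]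
  refine Finset.sum_congr rfl fun b _ => ?_
  rw [LinearMap.smul_apply, LinearMap.smulRight_apply, smul_smul]
  rfl

include hv in
theorem sum_tr (a : Module.End W.K (W.H X)) : ∑ i, ∑ j, dc v i j * W.tr X (v i * a (v j)) =
    LinearMap.trace W.K (W.H X) (a * H914.par (W.isInternal X)) := by
  have h5 : H914.par (W.isInternal X) =
      (∑ i, ∑ j, (dc v i j • (W.tr X ∘ₗ LinearMap.mulLeft W.K (v i)).smulRight (v j))) := by
    refine LinearMap.ext fun z => ?_
    rw [← sum_dc v hv z, LinearMap.sum_apply]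
    refine Finset.sum_congr rfl fun a _ => ?_
    rw [LinearMap.sum_apply]
    refine Finset.sum_congr rfl fun b _ => ?_
    rw [LinearMap.smul_apply, LinearMap.smulRight_apply, smul_smul]
    rfl
  rw [h5, Finset.mul_sum, map_sum]
  refine Finset.sum_congr rfl fun i _ => ?_
  rw [Finset.mul_sum, map_sum]
  refine Finset.sum_congr rfl fun j _ => ?_
  have h6 : a * (W.tr X ∘ₗ LinearMap.mulLeft W.K (v i)).smulRight (v j) =
      (W.tr X ∘ₗ LinearMap.mulLeft W.K (v i)).smulRight (a (v j)) := by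
    refine LinearMap.ext fun z => ?_
    rw [Module.End.mul_apply, LinearMap.smulRight_apply, LinearMap.smulRight_apply, map_smul]
  rw [mul_smul_comm, map_smul, h6, LinearMap.trace_smulRight, smul_eq_mul]
  rfl

end diag

theorem push_prP (w : W.H (X.prod X)) :
    W.push (prP X P) (W.map (prXX X P) w) = W.tr (X.prod X) w • (1 : W.H P) := by
  refine Pool.Agent.Y133.Half.xp_induction (p := fun w => W.push (prP X P) (W.map (prXX X P) w) =
    W.tr (X.prod X) w • (1 : W.H P)) ?_ ?_ w
  · intro a b ha hb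
    rw [map_add, map_add, ha, hb, map_add, add_smul]
  · intro i j a _ b _
    have h1 : W.map (prXX X P) (xp W a b) = xp W a (xp W b (1 : W.H P)) := by
      rw [xp_def, xp_def, xp_def, map_mul (W.map (prXX X P)), ← W.map_comp, ← W.map_comp]
      have e1 : prXX X P ≫ fst X X = fst X (X.prod P) := Obj.lift_fst _ _
      have e2 : prXX X P ≫ snd X X = snd X (X.prod P) ≫ fst X P := Obj.lift_snd _ _
      rw [e1, e2, map_one (W.map (snd X P)), mul_one, W.map_comp]
    rw [h1, prP, W.push_comp, xp_def a, W.push_snd, map_smul, xp_def, W.push_snd, smul_smul,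
      Pool.Agent.Y133.Half.tr_xp]

theorem xp_assoc (x y : W.H X) (z : W.H P) :
    W.map (prXX X P) (xp W x y) * W.map (prP X P) z = xp W x (xp W y z) := by
  rw [xp_def, xp_def, xp_def, map_mul (W.map (prXX X P)), ← W.map_comp, ← W.map_comp]
  have e1 : prXX X P ≫ fst X X = fst X (X.prod P) := Obj.lift_fst _ _
  have e2 : prXX X P ≫ snd X X = snd X (X.prod P) ≫ fst X P := Obj.lift_snd _ _
  rw [e1, e2, prP, W.map_comp, W.map_comp, mul_assoc, map_mul (W.map (snd X (X.prod P)))]

theorem pp_third (x y : W.H X) (z : W.H P) :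
    pp W (𝟙 _) (prP X P) (W.map (prXX X P) (dl W X)) (xp W x (xp W y z)) =
      W.tr X (x * y) • z := by
  rw [pp_apply, W.map_id, ← xp_assoc, ← mul_assoc, ← map_mul, W.push_mul, push_prP, tr_dl,
    smul_mul_assoc, one_mul]

section str

variable {ι : Type} [Fintype ι] [DecidableEq ι] (v : Basis ι W.K (W.H X)) {dg : ι → ℕ}
  (hv : ∀ i, v i ∈ W.gr X (dg i))

include hv in
/-- **The partial trace with signs of an external product.** -/
theorem strL_ext (a : Module.End W.K (W.H X)) (b : Module.End W.K (W.H P)) :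
    strL W X P (extOp W a b) =
      LinearMap.trace W.K (W.H X) (a * H914.par (W.isInternal X)) • b := by
  refine LinearMap.ext fun z => ?_
  rw [strL, LinearMap.comp_apply, LinearMap.comp_apply]
  have h1 : pp W (prP X P) (𝟙 _) (W.map (prXX X P) (dl W X)) z =
      ∑ i, ∑ j, dc v i j • xp W (v i) (xp W (v j) z) := by
    rw [pp_apply, W.push_id, dl_eq v, map_sum, Finset.sum_mul]
    refine Finset.sum_congr rfl fun i _ => ?_
    rw [map_sum, Finset.sum_mul]
    refine Finset.sum_congr rfl fun j _ => ?_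
    rw [map_smul, smul_mul_assoc, xp_assoc]
  have h2 : ∀ i j, extOp W 1 (extOp W a b) (xp W (v i) (xp W (v j) z)) =
      xp W (v i) (xp W (a (v j)) (b z)) := by
    intro i j
    rw [xp_def, extOp_tmul, xp_def (v j), extOp_tmul]
    rfl
  rw [h1]
  simp only [map_sum, map_smul, h2, pp_third, smul_smul]
  rw [LinearMap.smul_apply, ← sum_tr v hv a, Finset.sum_smul]
  refine Finset.sum_congr rfl fun i _ => ?_
  rw [Finset.sum_smul]

end str

end Pool.Agent.E8helper1.TX
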