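import Pool.Agent.E8helper1.TX.Fin4
import Pool.Agent.Y133.Half.Index

/-!
# Homological and numerical equivalence
-/

open CategoryTheory AlgebraicGeometry

universe u v

namespace Pool.Agent.E8helper1.TX

open Module Matrix
open Pool.Agent.H914 Pool.Agent.H914.VarClass Pool.Agent.H914.VarClass.Obj
  Pool.Agent.H914.WeilCohomology Pool.Agent.H281R3.HT
open Pool.Agent.Y133.Half (Sys PH xp xp_def Ev Adj algSys)
open Pool.Agent.Y133.Half.Sys (mem_Op)
open Pool.Agent.Y129 (pw pj PowerAction TG tateClasses liftN liftN_pj pw_ext)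
open scoped ComplexOrder

set_option linter.unusedSectionVars false

section mat

variable {n : Type} [Fintype n] [DecidableEq n]

/-- The form `trace (A Q⁻¹ Aᴴ Q)` is definite. -/
theorem eq_zero_of_trace {P Q : Matrix n n ℂ} (hP : IsUnit P.det) (hPQ : Pᴴ * Q * P = 1) {m : ℕ}
    {A : Op n m} (h : (A * (tpow Q⁻¹ m * Aᴴ * tpow Q m)).trace = 0) : A = 0 := by
  have hPP : P * P⁻¹ = 1 := Matrix.mul_nonsing_inv _ hP
  have hPP' : P⁻¹ * P = 1 := Matrix.nonsing_inv_mul _ hP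
  have hPH : (P⁻¹)ᴴ * Pᴴ = 1 := by
    rw [← Matrix.conjTranspose_mul, hPP, Matrix.conjTranspose_one]
  have hQ : Q = (P⁻¹)ᴴ * P⁻¹ := by
    calc Q = ((P⁻¹)ᴴ * Pᴴ) * Q * (P * P⁻¹) := by rw [hPH, hPP, Matrix.one_mul, Matrix.mul_one]
      _ = (P⁻¹)ᴴ * (Pᴴ * Q * P) * P⁻¹ := by simp only [Matrix.mul_assoc]
      _ = (P⁻¹)ᴴ * P⁻¹ := by rw [hPQ, Matrix.mul_one]
  have hQi : Q⁻¹ = P * Pᴴ := by
    refine Matrix.inv_eq_left_inv ?_
    calc P * Pᴴ * Q = P * (Pᴴ * Q * P) * P⁻¹ := by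
          simp only [Matrix.mul_assoc]; rw [hPP, Matrix.mul_one]
      _ = 1 := by rw [hPQ, Matrix.mul_one, hPP]
  have hstar : ∀ M : Matrix n n ℂ, tpow Mᴴ m = (tpow M m)ᴴ := fun M => by
    ext I J
    rw [Matrix.conjTranspose_apply, tpow, tpow, star_prod]
    rfl
  obtain ⟨R, hR⟩ : ∃ R, R = tpow P⁻¹ m := ⟨_, rfl⟩
  obtain ⟨R', hR'⟩ : ∃ R', R' = tpow P m := ⟨_, rfl⟩
  have hRR : R * R' = 1 := by rw [hR, hR', ← tpow_mul, hPP', tpow_one]
  have hRR' : R' * R = 1 := by rw [hR, hR', ← tpow_mul, hPP, tpow_one]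
  have e1 : tpow Q m = Rᴴ * R := by rw [hQ, tpow_mul, hstar, ← hR]
  have e2 : tpow Q⁻¹ m = R' * R'ᴴ := by rw [hQi, tpow_mul, hstar, ← hR']
  have h2 : ((R * A * R') * (R * A * R')ᴴ).trace = 0 := by
    rw [e1, e2] at h
    rw [← h, Matrix.conjTranspose_mul, Matrix.conjTranspose_mul]
    have h3 : A * (R' * R'ᴴ * Aᴴ * (Rᴴ * R)) = (A * R' * (R'ᴴ * (Aᴴ * Rᴴ))) * R := by
      simp only [Matrix.mul_assoc]
    rw [h3, Matrix.trace_mul_comm _ R]
    simp only [Matrix.mul_assoc]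
  have h3 := Matrix.trace_mul_conjTranspose_self_eq_zero_iff.1 h2
  calc A = (R' * R) * A * (R' * R) := by rw [hRR', Matrix.one_mul, Matrix.mul_one]
    _ = R' * (R * A * R') * R := by simp only [Matrix.mul_assoc]
    _ = 0 := by rw [h3, Matrix.mul_zero, Matrix.zero_mul]

end mat

variable {k : Type u} [Field k] {𝒱 : VarClass k} {ops : CycleOps 𝒱}
  {W : WeilCohomology.{u, 0} ops} [Algebra W.K ℂ] {X : 𝒱.Obj}
  {ι : Type} [Fintype ι] [DecidableEq ι] (v : Basis ι W.K (W.H X))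

theorem mc_trace (n : ℕ) (a : Module.End W.K (W.H (pw X n))) :
    (mc v n a).trace = algebraMap W.K ℂ (LinearMap.trace W.K _ a) := by
  rw [LinearMap.trace_eq_matrix_trace W.K (wb v n), mc]
  exact (AddMonoidHom.map_trace (algebraMap W.K ℂ).toAddMonoidHom
    (LinearMap.toMatrix (wb v n) (wb v n) a)).symm

theorem mc_injective (n : ℕ) : Function.Injective (mc (X := X) (W := W) v n) := by
  intro a b hab
  apply mt_injective v n
  ext I J
  have h1 := congrFun (congrFun hab I) J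
  exact (algebraMap W.K ℂ).injective h1

/-- A system closed under adjoints is nondegenerate. -/
theorem num_eq_bot (S : Sys W) (hp : H914.par (W.isInternal X) ∈ S.Op X X)
    {P Q : Matrix ι ι ℂ} (hP : IsUnit P.det) (hPQ : Pᴴ * Q * P = 1)
    (hstar : ∀ m, ∀ A ∈ SB v S m, tpow Q⁻¹ m * Aᴴ * tpow Q m ∈ SB v S m) (n : ℕ) :
    S.Num ((pw X n).prod (pw X n)) = ⊥ := by
  rw [eq_bot_iff]
  rintro c ⟨hc, hc'⟩
  obtain ⟨a, ha⟩ : ∃ a : Module.End W.K (W.H (pw X n)), a = W.corr c := ⟨_, rfl⟩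
  have haO : a ∈ S.Op (pw X n) (pw X n) := by
    rw [ha]
    exact Sys.Op.corr hc
  have hpar : H914.par (W.isInternal (pw X n)) ∈ S.Op (pw X n) (pw X n) := by
    have h1 := PN_mem S hp n
    rwa [← extP_par, extP_parN] at h1
  have h1 : ∀ b ∈ S.Op (pw X n) (pw X n), LinearMap.trace W.K _ (a * b) = 0 := by
    intro b hb
    obtain ⟨d, hd, hd'⟩ := mem_Op.1 (Sys.Op.comp hb hpar)
    have h2 := Pool.Agent.Y133.Half.trace_corr_corr (W := W) (N := pw X n) (M := pw X n) c d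
    rw [hc' _ (S.map _ hd)] at h2
    rw [hd'] at h2
    have h3 : LinearMap.trace W.K (W.H (pw X n)) (H914.par (W.isInternal (pw X n)) *
        ((a * b) * H914.par (W.isInternal (pw X n)))) = 0 := by
      rw [ha]
      exact h2
    rw [LinearMap.trace_mul_comm, mul_assoc, par_mul_par, mul_one] at h3
    exact h3
  have h2 : ∀ B ∈ SB v S (n + 1), (mc v n a * B).trace = 0 := by
    intro B hB
    refine SB_induction v S (p := fun B => (mc v n a * B).trace = 0) ?_ ?_ ?_ ?_ hB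
    · rw [mul_zero, Matrix.trace_zero]
    · intro A A' hA hA'
      rw [mul_add, Matrix.trace_add, hA, hA', add_zero]
    · intro r A hA
      rw [Matrix.mul_smul, Matrix.trace_smul, hA, smul_zero]
    · intro b hb
      rw [← mc_mul, mc_trace, h1 b hb, map_zero]
  have h3 := h2 _ (hstar (n + 1) _ (mem_SB v S haO))
  have h4 := eq_zero_of_trace hP hPQ h3
  have h5 : mc v n (0 : Module.End W.K (W.H (pw X n))) = 0 := by
    have := mc_smul v n (0 : W.K) (0 : Module.End W.K (W.H (pw X n)))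
    rwa [zero_smul, map_zero, zero_smul] at this
  have h6 : a = 0 := mc_injective v n (h4.trans h5.symm)
  rw [ha] at h6
  exact (Submodule.mem_bot _).2 (corr_inj h6)

/-- The powers embed in higher powers. -/
theorem num_down (S : Sys W) {m n : ℕ} (hmn : m ≤ n) (h : S.Num (pw X n) = ⊥) :
    S.Num (pw X m) = ⊥ := by
  rw [eq_bot_iff]
  intro c hc
  let p : pw X n ⟶ pw X m := liftN X m (fun i => pj X n (Fin.castLE (by omega) i))
  let σ : pw X m ⟶ pw X n := liftN X n (fun i =>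
    if hi : (i : ℕ) < m + 1 then pj X m ⟨i, hi⟩ else pj X m 0)
  have h1 : σ ≫ p = 𝟙 _ := by
    apply pw_ext
    intro i
    rw [Category.assoc, liftN_pj, liftN_pj, Category.id_comp]
    have h2 : ((Fin.castLE (by omega : m + 1 ≤ n + 1) i : Fin (n + 1)) : ℕ) < m + 1 := i.2
    rw [dif_pos h2]
    congr 1
  have h2 := Sys.Num.map p hc
  rw [h, Submodule.mem_bot] at h2
  have h3 : W.map σ (W.map p c) = c := by
    rw [← W.map_comp, h1, W.map_id]
  rw [h2, map_zero] at h3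
  rw [← h3]
  exact zero_mem _

theorem num_iso (S : Sys W) {Y Z : 𝒱.Obj} (θ : Y ≅ Z) (h : S.Num Y = ⊥) : S.Num Z = ⊥ := by
  rw [eq_bot_iff]
  intro c hc
  have h2 := Sys.Num.map θ.hom hc
  rw [h, Submodule.mem_bot] at h2
  have h3 : W.map θ.inv (W.map θ.hom c) = c := by
    rw [← W.map_comp, Iso.inv_hom_id, W.map_id]
  rw [h2, map_zero] at h3
  rw [← h3]
  exact zero_mem _

/-- Homological and numerical equivalence coincide on all powers. -/
theorem homEqNum_all (hp : H914.par (W.isInternal X) ∈ (algSys W).Op X X)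
    {P Q : Matrix ι ι ℂ} (hP : IsUnit P.det) (hPQ : Pᴴ * Q * P = 1)
    (hstar : ∀ m, ∀ A ∈ SB v (algSys W) m, tpow Q⁻¹ m * Aᴴ * tpow Q m ∈ SB v (algSys W) m)
    (n : ℕ) : HomEqNum W (pw X n) := by
  rw [Pool.Agent.Y133.Half.homEqNum_iff]
  obtain ⟨i⟩ := Pool.Agent.Y129.pw_iso X n n (n + n + 1) rfl
  exact num_down (algSys W) (by omega) (num_iso (algSys W) i
    (num_eq_bot v (algSys W) hp hP hPQ hstar n))

end Pool.Agent.E8helper1.TX
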