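import Pool.Agent.E8helper1.TX.Hod2
import Pool.Agent.E8helper89.TX.Hdg
import Pool.Agent.E8helper65.TX.Hrs
import Pool.Agent.E8helper26.TX.TRF
import Pool.Agent.E8helper63.TX.Dim

/-!
# The theorem for Hodge classes
-/

open CategoryTheory AlgebraicGeometry

universe u

namespace Pool.Agent.E8helper1.TX

open Module Matrix
open Pool.Agent.H914 Pool.Agent.H914.VarClass Pool.Agent.H914.VarClass.Obj
  Pool.Agent.H914.WeilCohomology
open Pool.Agent.Y133.Half (Sys PH xp xp_def)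
open Pool.Agent.Y133.Half.Sys (mem_Op)
open Pool.Agent.Y121 (AH.HodgeTheory AH.hodgeSys AH.IsHodge)
open Pool.Agent.Y121.AHS (HL emL smL mulL Types IsType)
open Pool.Agent.Y121.AH (em em_add em_zero ex em_smul em_mul em_map em_push em_corr)
open Pool.Agent.Y129 (pw pj liftN liftN_pj pw_ext)
open scoped ComplexOrder

set_option linter.unusedSectionVars false

section sys

variable {k : Type u} [Field k] {𝒱 : VarClass k} {ops : CycleOps 𝒱}
  {W : WeilCohomology.{u, 0} ops} {X : 𝒱.Obj}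

/-- The comparison of two systems on smaller powers. -/
theorem sys_down (S T : Sys W) {m n : ℕ} (hmn : m ≤ n) (hT : T.C (pw X n) ≤ S.C (pw X n)) :
    T.C (pw X m) ≤ S.C (pw X m) := by
  intro c hc
  let p : pw X n ⟶ pw X m := liftN X m (fun i => pj X n (Fin.castLE (by omega) i))
  let σ : pw X m ⟶ pw X n := liftN X n (fun i =>
    if hi : (i : ℕ) < m + 1 then pj X m ⟨i, hi⟩ else pj X m 0)
  have h1 : σ ≫ p = 𝟙 _ := by
    apply pw_ext
    intro i
    rw [Category.assoc, liftN_pj, liftN_pj, Category.id_comp]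
    have h2 : ((Fin.castLE (by omega : m + 1 ≤ n + 1) i : Fin (n + 1)) : ℕ) < m + 1 := i.2
    rw [dif_pos h2]
    congr 1
  have h3 : W.map σ (W.map p c) = c := by
    rw [← W.map_comp, h1, W.map_id]
  rw [← h3]
  exact S.map σ (hT (T.map p hc))

variable {ι : Type} [Fintype ι] [DecidableEq ι] (v : Basis ι W.K (W.H X))

theorem SK_mono {S T : Sys W} (h : ∀ Z, S.C Z ≤ T.C Z) (m : ℕ) : SK v S m ≤ SK v T m := by
  cases m with
  | zero => exact le_rfl
  | succ n =>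
    intro M hM
    obtain ⟨a, ha, rfl⟩ := (mem_SK_succ v S n _).1 hM
    obtain ⟨c, hc, rfl⟩ := (mem_Op_iff S n a).1 ha
    exact (mem_SK_succ v T n _).2 ⟨_, (mem_Op_iff T n _).2 ⟨c, h _ hc, rfl⟩, rfl⟩

theorem SK_le_iff (S T : Sys W) (n : ℕ) : SK v T (n + 1) ≤ SK v S (n + 1) ↔
    T.C (pw X (n + n + 1)) ≤ S.C (pw X (n + n + 1)) := by
  constructor
  · intro h1 c hc
    have h2 := h1 ((mem_SK_succ v T n _).2 ⟨_, (mem_Op_iff T n _).2 ⟨c, hc, rfl⟩, rfl⟩)
    obtain ⟨a, ha, h3⟩ := (mem_SK_succ v _ n _).1 h2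
    obtain ⟨c', hc', rfl⟩ := (mem_Op_iff _ n a).1 ha
    have h4 := opc_injective n (mt_injective v n h3)
    rw [← h4]
    exact hc'
  · intro h1 M hM
    obtain ⟨a, ha, rfl⟩ := (mem_SK_succ v T n _).1 hM
    obtain ⟨c, hc, rfl⟩ := (mem_Op_iff T n a).1 ha
    exact (mem_SK_succ v S n _).2 ⟨_, (mem_Op_iff S n _).2 ⟨c, h1 hc, rfl⟩, rfl⟩

theorem finrank_SK' (S : Sys W) (n : ℕ) : finrank W.K (SK v S (n + 1)) =
    finrank W.K (S.C (pw X (n + n + 1))) := by
  have h1 : SK v S (n + 1) = (S.C (pw X (n + n + 1))).map (clm v n) := by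
    ext M
    rw [mem_SK_succ, Submodule.mem_map]
    constructor
    · rintro ⟨a, ha, rfl⟩
      obtain ⟨c, hc, rfl⟩ := (mem_Op_iff _ n a).1 ha
      exact ⟨c, hc, rfl⟩
    · rintro ⟨c, hc, rfl⟩
      exact ⟨_, (mem_Op_iff _ n _).2 ⟨c, hc, rfl⟩, rfl⟩
  rw [h1]
  exact (Submodule.equivMapOfInjective _ (clm_injective v n) _).finrank_eq.symm

end sys

section hodge

variable {k : Type u} [Field k] {𝒱 : VarClass k} {ops : CycleOps 𝒱}
  {T : AH.HodgeTheory ops} {X : 𝒱.Obj}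

/-- `H` is the Hodge decomposition of the Hodge theory `T`, and the complex conjugation is the
conjugation of the cohomology with complex coefficients with respect to the rational cohomology. -/
structure Compat (T : AH.HodgeTheory ops) (H : HodgeDec T.W) : Prop where
  pq : ∀ (Z : 𝒱.Obj) (p q : ℤ) (x : (baseW T.W ℂ).H Z), x ∈ T.pq Z p q ↔ IsType H.pq p q x
  real : ∀ (Z : 𝒱.Obj) (c : T.W.H Z), H.cj Z (emL T.W ℂ c) = emL T.W ℂ c

/-- Hodge classes are fixed by the twisted conjugation. -/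
theorem hodge_fixed {H : HodgeDec T.W} (hC : Compat T H) {TJ : TwConj T.W}
    (hTJ : ∀ (X : 𝒱.Obj) (p q : ℤ) (x : HL T.W ℂ X), IsType H.pq p q x →
      (TJ.J X x : HL T.W ℂ X) = smL (Complex.I ^ (p - q)) (H.cj X x)) (Z : 𝒱.Obj) (j : ℕ)
    (c : T.W.H Z) (hc : AH.IsHodge T Z j c) : TJ.J Z (em T.W ℂ c) = em T.W ℂ c := by
  have h1 : IsType H.pq j j (em T.W ℂ c) := (hC.pq Z j j _).1 hc.2
  have h2 := hTJ Z j j (em T.W ℂ c) h1
  have h3 : H.cj Z (em T.W ℂ c) = em T.W ℂ c := hC.real Z c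
  have h4 : Complex.I ^ ((j : ℤ) - j) = 1 := by rw [sub_self, zpow_zero]
  rw [h4, h3] at h2
  refine h2.trans ?_
  exact one_smul ℂ (show TensorProduct T.W.K ℂ (T.W.H Z) from em T.W ℂ c)

theorem eff_of {H : HodgeDec T.W} (hC : Compat T H) : Eff T := fun Z p q x hx =>
  H.eff Z p q x ((hC.pq Z p q x).1 hx)

theorem top_of {H : HodgeDec T.W} (hC : Compat T H) : Top T := fun Z p q x hx =>
  H.top Z p q x ((hC.pq Z p q x).1 hx)

/-- The data of the star operator and the cocharacter. -/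
structure HD (T : AH.HodgeTheory ops) (X : 𝒱.Obj) {ι : Type} [Fintype ι] [DecidableEq ι]
    (v : Basis ι T.W.K (T.W.H X)) (dg : ι → ℕ) where
  /-- the cocharacter -/
  hm : Matrix ι ι ℂ
  /-- the twisted conjugation -/
  TJ : TwConj T.W
  /-- the star operator -/
  s : Module.End T.W.K (T.W.H X)
  hop : ∀ (n : ℕ) (a : Module.End T.W.K (T.W.H (pw X n))),
      a ∈ (AH.hodgeSys T).Op (pw X n) (pw X n) ↔
        mc v n a * dpow hm (n + 1) = dpow hm (n + 1) * mc v n a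
  int : ∀ (μ : ℂ) (u : ι → ℂ), u ≠ 0 → hm.mulVec u = μ • u → ∃ z : ℤ, μ = z ∧ |z| ≤ X.dim
  dgr : ∀ i j, hm i j ≠ 0 → dg i = dg j
  skew : hmᵀ * BC v = -(BC v * hm)
  fix : ∀ (Z : 𝒱.Obj) (j : ℕ) (c : T.W.H Z), AH.IsHodge T Z j c → TJ.J Z (em T.W ℂ c) = em T.W ℂ c
  ss : s * s = 1
  hs : m1 v s * hm = hm * m1 v s
  spar : s * H914.par (T.W.isInternal X) = H914.par (T.W.isInternal X) * s
  pos : ∀ x : (baseW T.W ℂ).H X, x ≠ 0 → ∃ r : ℝ, 0 < r ∧
      (baseW T.W ℂ).tr X (x * bcO s (TJ.J X x)) = cK T.W (r : ℂ)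

theorem exists_HD (hHOP : S_HOP2.{u}) {H : HodgeDec T.W} (hC : Compat T H) {D : X.Cycles}
    (hD : Polarizes H X D) {ι : Type} [Fintype ι] [DecidableEq ι]
    (v : Basis ι T.W.K (T.W.H X)) (dg : ι → ℕ) (hv : ∀ i, v i ∈ T.W.gr X (dg i)) :
    Nonempty (HD T X v dg) := by
  obtain ⟨hm, h1, h2, h3, h4, h5⟩ := hHOP T (eff_of hC) (top_of hC) X v dg hv
  obtain ⟨TJ, hTJ⟩ := Pool.Agent.E8helper89.TX.t_HDG T.W H
  obtain ⟨s, hs1, hs2, hs3⟩ := Pool.Agent.E8helper65.TX.t_HRS T.W H TJ hTJ X D hD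
  have hLc : T.W.cl X D ∈ T.W.gr X (2 * 1) := T.W.cl_mem hD.1
  refine ⟨⟨hm, TJ, s, h1, h2, h4, h5, hodge_fixed hC hTJ, hs1, ?_, ?_, hs3⟩⟩
  · refine (comm_of_rat v hv T.rat (T.W.cl X D) hs2 (M := hm) ⟨h3 D hD.1, fun i j hij => ?_⟩).symm
    by_contra h5
    exact hij (h4 i j h5)
  · refine (hs2 (H914.par (T.W.isInternal X)) (fun i x hx => ?_) fun x => ?_).symm
    · rw [PH.par (PH.of hx)]
      exact Submodule.smul_mem _ _ hx
    · rw [par_mulH, PH.par (PH.of hLc), pow_mul, neg_one_sq, one_pow, one_smul]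

section data

variable {ι : Type} [Fintype ι] [DecidableEq ι] {v : Basis ι T.W.K (T.W.H X)} {dg : ι → ℕ}
  (E : HD T X v dg) (hv : ∀ i, v i ∈ T.W.gr X (dg i))

theorem HD.s_mem : E.s ∈ (AH.hodgeSys T).Op X X := mem_Op_of_comm v E.hop E.hs

include E hv in
theorem HD.par_mem : H914.par (T.W.isInternal X) ∈ (AH.hodgeSys T).Op X X := by
  refine mem_Op_of_comm v E.hop ?_
  rw [m1_par v hv]
  ext i j
  rw [Matrix.diagonal_mul, Matrix.mul_diagonal]
  by_cases h : E.hm i j = 0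
  · rw [h, zero_mul, mul_zero]
  · rw [E.dgr i j h, mul_comm]

theorem HD.mem_SK (m : ℕ) (B : Matrix (Fin m → ι) (Fin m → ι) T.W.K) :
    B ∈ SK v (AH.hodgeSys T) m ↔
      B.map (algebraMap T.W.K ℂ) * dpow E.hm m = dpow E.hm m * B.map (algebraMap T.W.K ℂ) := by
  cases m with
  | zero =>
    have hc : ∀ A B : Op ι 0, A * B = B * A := by
      intro A B
      ext I J
      obtain rfl := Subsingleton.elim I J
      rw [Matrix.mul_apply, Matrix.mul_apply, Fintype.sum_subsingleton _ I,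
        Fintype.sum_subsingleton _ I, mul_comm]
    exact ⟨fun _ => hc _ _, fun _ => Submodule.mem_top⟩
  | succ n =>
    rw [mem_SK_succ]
    constructor
    · rintro ⟨a, ha, rfl⟩
      exact (E.hop n a).1 ha
    · intro h
      refine ⟨Matrix.toLin (wb v n) (wb v n) B, (E.hop n _).2 ?_, ?_⟩
      · rw [mc, LinearMap.toMatrix_toLin]
        exact h
      · rw [mt, LinearMap.toMatrix_toLin]

theorem HD.posDef : (Qm v E.s (jmat v E.TJ)).PosDef := Qm_posDef v E.TJ E.s E.pos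

theorem HD.isUnit : IsUnit (Qm v E.s (jmat v E.TJ)).det := by
  rw [isUnit_iff_ne_zero]
  exact E.posDef.det_pos.ne'

include hv in
/-- A system of Hodge classes which contains the classes on `X × X` is closed under adjoints. -/
theorem HD.star (S : Sys T.W) (hS : ∀ Z, S.C Z ≤ (AH.hodgeSys T).C Z)
    (hp : H914.par (T.W.isInternal X) ∈ S.Op X X) (hs : E.s ∈ S.Op X X) (m : ℕ)
    (A : Op ι m) (hA : A ∈ SB v S m) : tpow (Qm v E.s (jmat v E.TJ))⁻¹ m * Aᴴ *
      tpow (Qm v E.s (jmat v E.TJ)) m ∈ SB v S m := by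
  refine SB_star v hv S hp hs E.ss (fun n a ha => Submodule.subset_span ⟨ha, ?_⟩) E.isUnit m A hA
  refine hodge_JComm E.TJ v E.fix n ?_
  obtain ⟨c, hc, rfl⟩ := mem_Op.1 ha
  exact Sys.Op.corr (S := AH.hodgeSys T) (hS _ hc)

end data

/-- **The theorem for Hodge classes.** -/
theorem hodge_core (hHOP : S_HOP2.{u}) {H : HodgeDec T.W} (hC : Compat T H) {D : X.Cycles}
    (hD : Polarizes H X D) [Nontrivial (T.W.H X)] (S : Sys T.W)
    (hS : ∀ Z, S.C Z ≤ (AH.hodgeSys T).C Z) (M0 : ℕ)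
    (hM0 : M0 = (finrank T.W.K (T.W.H X)).factorial *
      (max 1 X.dim) ^ (finrank T.W.K (T.W.H X) - 1)) (m : ℕ)
    (hmm : (finrank T.W.K (T.W.H X) : ℝ) ^ 3 * (M0 : ℝ) ^ 2 *
      Real.log (2 * finrank T.W.K (T.W.H X) * M0 + 1) ≤ (m + 1 : ℕ))
    (hle : (AH.hodgeSys T).C (pw X (m + m + 1)) ≤ S.C (pw X (m + m + 1))) (n : ℕ) :
    (AH.hodgeSys T).C (pw X n) ≤ S.C (pw X n) := by
  obtain ⟨ι, _, _, v, hv⟩ := Pool.Agent.Y129.exists_homogeneous_basis T.W X
  choose dg hv using hv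
  obtain ⟨E⟩ := exists_HD hHOP hC hD v dg hv
  have hb : Fintype.card ι = finrank T.W.K (T.W.H X) := (Module.finrank_eq_card_basis v).symm
  rw [← hb] at hM0 hmm
  have hne : Nonempty ι := by
    by_contra hne
    rw [not_nonempty_iff] at hne
    have h3 : Subsingleton (T.W.H X) := by
      have h4 := (v.repr.toEquiv.trans Finsupp.equivFunOnFinite).injective
      exact h4.subsingleton
    exact not_subsingleton (T.W.H X) h3
  have hle1 : (AH.hodgeSys T).C (X.prod X) ≤ S.C (X.prod X) :=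
    sys_down (X := X) S (AH.hodgeSys T) (m := 1) (by omega) hle
  have hOp : (AH.hodgeSys T).Op X X ≤ S.Op X X := Submodule.map_mono hle1
  have hp := hOp (E.par_mem hv)
  have hs := hOp E.s_mem
  have key := hodge_mat T.rat E.hm (SK v S) (SK v (AH.hodgeSys T)) E.mem_SK
    Pool.Agent.E8helper26.TX.t_TRF (w := max 1 X.dim) (le_max_left _ _)
    (fun μ u hu h => by
      obtain ⟨z, hz1, hz2⟩ := E.int μ u hu h
      refine ⟨z, hz1, hz2.trans ?_⟩
      exact_mod_cast le_max_right _ _)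
    (psys0 v S hv hp) (SB_eq_bcM v S) (Qm v E.s (jmat v E.TJ)) E.posDef
    (E.star hv S hS hp hs)
    (fun m A hA => by
      rw [← SB_eq_bcM] at hA ⊢
      exact E.star hv (AH.hodgeSys T) (fun Z => le_rfl) (E.par_mem hv) E.s_mem m A hA)
    (SK_mono v hS) M0 hM0 (m + 1) hmm ((SK_le_iff v S (AH.hodgeSys T) m).2 hle) (n + 1)
  refine sys_down S (AH.hodgeSys T) (by omega : n ≤ n + n + 1) ((SK_le_iff v S _ n).1 ?_)
  intro M hM
  have h1 : M.map (algebraMap T.W.K ℂ) ∈ bcM T.W.K (SK v S (n + 1)) := by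
    rw [← key]
    exact Submodule.subset_span ⟨M, hM, rfl⟩
  exact Pool.Agent.E8helper63.TX.t_DIM2 T.W.K _ _ M h1

end hodge

end Pool.Agent.E8helper1.TX
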