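import Pool.Agent.E8helper1.TX.Hod4
import Pool.Agent.Y121.AHS.Law

/-!
# The theorem for absolutely Hodge classes
-/

open CategoryTheory AlgebraicGeometry

universe u

namespace Pool.Agent.E8helper1.TX

open Module Matrix
open Pool.Agent.H914 Pool.Agent.H914.VarClass Pool.Agent.H914.VarClass.Obj
  Pool.Agent.H914.WeilCohomology
open Pool.Agent.Y133.Half (Sys PH xp xp_def ClassPred)
open Pool.Agent.Y133.Half.Sys (mem_Op)
open Pool.Agent.Y121
open Pool.Agent.Y121.AHS
open Pool.Agent.Y121.AHS.Full (toD isAbsHodge_iff)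
open Pool.Agent.Y129 (pw)

set_option linter.unusedSectionVars false

variable {k : Type u} [Field k] {𝒱 : VarClass k} {ops : CycleOps 𝒱}

/-- `H` is the Hodge decomposition of the Hodge theory `T` with the complex conjugation of
`H(X, ℂ) = H(X, ℚ) ⊗ ℂ`, which fixes the rational classes. -/
structure IsDecOf (T : HodgeTheory ops) (H : HodgeDec T.W) : Prop where
  pq : H.pq = T.pq
  real : ∀ (Z : 𝒱.Obj) (c : T.W.H Z), H.cj Z (emL T.W ℂ c) = emL T.W ℂ c

theorem compat_of {T : HodgeTheory ops} {H : HodgeDec T.W} (h : IsDecOf T H) :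
    Compat (toH T) H where
  pq Z p q x := by
    have h1 : IsType H.pq p q x ↔ IsType T.pq p q x := by rw [h.pq]
    exact h1.symm
  real := h.real

variable {T : HodgeTheory ops} {D : Full.Conjugates T} {X : 𝒱.Obj}

/-- All Hodge classes are absolutely Hodge, in terms of spaces. -/
theorem abs_iff (Z : 𝒱.Obj) : (AH.hodgeSys (toH T)).C Z ≤ (AH.absSys (toD D)).C Z ↔
    ∀ j c, IsHodge T Z j c → Full.IsAbsHodge D Z j c := by
  constructor
  · intro h j c hc
    have h1 : c ∈ (AH.absPred (toD D)).sp Z := h (Submodule.subset_span ⟨j, hc⟩)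
    have h2 := ClassPred.sp_proj h1 j
    have h3 : H914.proj ((toH T).W.isInternal Z) (2 * j) c = c := proj_same _ hc.1
    rw [h3] at h2
    exact isAbsHodge_iff.1 h2
  · intro h
    refine Submodule.span_le.2 ?_
    rintro c ⟨j, hc⟩
    exact Submodule.subset_span ⟨j, isAbsHodge_iff.2 (h j c hc)⟩

/-- The exponent. -/
abbrev Mb (b d : ℕ) : ℕ := b.factorial * (max 1 d) ^ (b - 1)

/-- **One power decides**, for the absolutely Hodge classes, all types. -/
theorem abs_one_power (hHOP : S_HOP2.{u}) {H : HodgeDec T.W} (hH : IsDecOf T H) {Dv : X.Cycles}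
    (hDv : Polarizes H X Dv) [Nontrivial (T.W.H X)] (m : ℕ) (hm1 : 1 ≤ m)
    (hm : (finrank T.W.K (T.W.H X) : ℝ) ^ 3 * (Mb (finrank T.W.K (T.W.H X)) X.dim : ℝ) ^ 2 *
      Real.log (2 * finrank T.W.K (T.W.H X) * (Mb (finrank T.W.K (T.W.H X)) X.dim : ℕ) + 1) ≤ m)
    (h : ∀ j c, IsHodge T (pw X (2 * m - 1)) j c → Full.IsAbsHodge D (pw X (2 * m - 1)) j c) :
    ∀ n j c, IsHodge T (pw X n) j c → Full.IsAbsHodge D (pw X n) j c := by
  have hnt : Nontrivial ((toH T).W.H X) := ‹Nontrivial (T.W.H X)›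
  intro n
  obtain ⟨m', rfl⟩ : ∃ m', m = m' + 1 := ⟨m - 1, by omega⟩
  have e : 2 * (m' + 1) - 1 = m' + m' + 1 := by omega
  rw [e] at h
  refine (abs_iff (pw X n)).1 ?_
  exact hodge_core (T := toH T) hHOP (compat_of hH) hDv (AH.absSys (toD D))
    (fun Z => AH.abs_le_hodge (toD D) Z) _ rfl m' hm ((abs_iff _).2 h) n

end Pool.Agent.E8helper1.TX
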